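import Pool.Agent.Helper82.EC2.St
import Pool.Agent.Helper82.EC.Basic

/-!
# MP_47b98d_co, EC2 module Ac2: counts at a rich vertex with a small neighbour
-/

set_option autoImplicit false

open Finset
open scoped Classical

namespace Pool.Agent.Helper82.EC2

open EC EC.MGraph

section Ac2

variable {V E : Type} [Fintype V] [Fintype E] {G : MGraph V E} {D μ : ℕ}

omit [Fintype V] in
/-- the edges joining `u` and `v`, seen from `v` -/
private theorem ac2_mult_eq (u v : V) :
    (univ.filter fun f => G.ends f = s(u, v)) = (G.inc v).filter fun f => G.opp v f = u := by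
  ext f
  simp only [mem_filter, mem_univ, true_and]
  constructor
  · intro h
    have h' : G.ends f = s(v, u) := by rw [h, Sym2.eq_swap]
    exact ⟨mem_inc.mpr (mem_ends_left h'), opp_eq h'⟩
  · rintro ⟨h1, h2⟩
    rw [opp_spec (mem_inc.mp h1), h2, Sym2.eq_swap]

/-- poor vertices form `P0` -/
private theorem ac2_mem_P0 (Q : ℝ) (p : V) : p ∈ P0 G Q ↔ (G.deg p : ℝ) < Q := by
  unfold P0
  simp

private theorem ac2_mem_S0 (s : ℕ) (p : V) : p ∈ S0 G D s ↔ s + 2 * G.deg p + 2 ≤ D := by
  unfold S0
  simp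

/-- number of edges to a subset of the poor vertices and to a poor vertex `x` -/
private theorem ac2_le_mm (dt : Data G D μ) (Q : ℝ) (w x : V) (S : Finset V)
    (hx : (G.deg x : ℝ) < Q) (hS : S ⊆ P0 G Q) :
    G.degTo w (S.erase x) + G.mult x w ≤ mm dt Q w := by
  unfold MGraph.degTo MGraph.mult mm
  rw [ac2_mult_eq x w, ← card_union_of_disjoint]
  · apply card_le_card
    intro f
    simp only [mem_union, mem_filter, mem_erase]
    rintro (⟨h1, _, h3⟩ | ⟨h1, h2⟩)
    · exact ⟨h1, (ac2_mem_P0 Q _).mp (hS h3)⟩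
    · exact ⟨h1, by rw [h2]; exact hx⟩
  · rw [disjoint_left]
    intro f h1 h2
    simp only [mem_filter, mem_erase] at h1 h2
    exact h1.2.1 h2.2

/-- number of poor edges, split at a vertex `x` -/
private theorem ac2_mm_le (dt : Data G D μ) (Q : ℝ) (w x : V) :
    mm dt Q w ≤ G.degTo w ((P0 G Q).erase x) + G.mult x w := by
  unfold MGraph.degTo MGraph.mult mm
  rw [ac2_mult_eq x w]
  refine le_trans ?_ (card_union_le _ _)
  apply card_le_card
  intro f
  simp only [mem_union, mem_filter, mem_erase]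
  rintro ⟨h1, h2⟩
  by_cases h : G.opp w f = x
  · exact Or.inr ⟨h1, h⟩
  · exact Or.inl ⟨h1, h, (ac2_mem_P0 Q _).mpr h2⟩

omit [Fintype V] in
/-- the edges from `x` to different vertices are different edges at `x` -/
private theorem ac2_sum_mult_le (x : V) (T : Finset V) : ∑ v ∈ T, G.mult x v ≤ G.deg x := by
  have h : ∑ v ∈ T, G.mult x v =
      (T.biUnion fun v => univ.filter fun f => G.ends f = s(x, v)).card := by
    rw [card_biUnion]
    · rfl
    · intro v _ v' _ hvv
      rw [Function.onFun, disjoint_left]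
      intro f h1 h2
      simp only [mem_filter, mem_univ, true_and] at h1 h2
      rw [h1] at h2
      exact hvv (Sym2.congr_right.mp h2)
  rw [h]
  unfold MGraph.deg
  apply card_le_card
  intro f hf
  simp only [mem_biUnion, mem_filter, mem_univ, true_and] at hf
  obtain ⟨v, _, hv⟩ := hf
  exact mem_inc.mpr (mem_ends_left hv)

/-- the first two counts -/
private theorem ac2_base (dt : Data G D μ) (Q : ℝ) (w : V)
    (hS : (G.deg (dt.xx w) : ℝ) + Q < D + 1) :
    (∀ f ∈ dt.FF w, Q ≤ G.deg (G.opp w f)) ∧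
    mm dt Q w + jj dt Q w + (D - G.deg w) + 1 = G.deg (dt.xx w) := by
  have hfan := dt.fan w
  set x := dt.xx w with hxdef
  set F := dt.FF w with hFdef
  have hw := dt.deg_le w
  have hsum := hfan.sum_le
  have hdef : ∀ v ∈ F.image (G.opp w), D - G.deg v + D + 2 ≤ G.deg x + G.deg w := by
    intro v hv
    have := single_le_sum (f := fun v => D - G.deg v) (fun i _ => Nat.zero_le _) hv
    omega
  have h1 : ∀ f ∈ F, Q ≤ G.deg (G.opp w f) := by
    intro f hf
    have h2 := hdef _ (mem_image_of_mem _ hf)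
    have h3 : D + 2 ≤ G.deg x + G.deg (G.opp w f) := by omega
    have h4 : (D : ℝ) + 2 ≤ G.deg x + G.deg (G.opp w f) := by exact_mod_cast h3
    linarith
  refine ⟨h1, ?_⟩
  -- the edges at `w`
  have hcard : F.card + mm dt Q w + jj dt Q w = G.deg w := by
    have e1 := card_filter_add_card_filter_not (s := G.inc w)
      (fun f => (G.deg (G.opp w f) : ℝ) < Q)
    have e2 := card_filter_add_card_filter_not
      (s := (G.inc w).filter fun f => ¬ (G.deg (G.opp w f) : ℝ) < Q) (fun f => f ∈ F)
    have e3 : (((G.inc w).filter fun f => ¬ (G.deg (G.opp w f) : ℝ) < Q).filter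
        fun f => f ∈ F) = F := by
      ext f
      simp only [mem_filter, not_lt]
      constructor
      · rintro ⟨_, h⟩; exact h
      · intro h; exact ⟨⟨hfan.sub h, h1 f h⟩, h⟩
    have e4 : (((G.inc w).filter fun f => ¬ (G.deg (G.opp w f) : ℝ) < Q).filter
        fun f => ¬ f ∈ F) = (G.inc w).filter fun f => f ∉ F ∧ Q ≤ G.deg (G.opp w f) := by
      ext f
      simp only [mem_filter, not_lt]
      tauto
    rw [e3, e4] at e2
    unfold MGraph.deg mm jj
    rw [← hFdef]
    omega
  have hF := hfan.card_eq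
  omega

end Ac2

theorem stAc2 : StAc2 := by
  intro V E _ _ G D μ dt Q hT w hR hSm
  have hS : (G.deg (dt.xx w) : ℝ) + Q < D + 1 := hSm
  obtain ⟨h1, h2⟩ := ac2_base dt Q w hS
  have hfan := dt.fan w
  set x := dt.xx w with hxdef
  set F := dt.FF w with hFdef
  have hw := dt.deg_le w
  have hlo := hT.lo
  have hx : (G.deg x : ℝ) < Q := by
    have h3 : (G.deg x : ℝ) < D + 1 - Q := by linarith
    linarith
  have hsum := hfan.sum_le
  have hsplit1 := ac2_le_mm dt Q w x (P0 G Q) hx (Subset.refl _)
  have hsplit2 := ac2_mm_le dt Q w x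
  have h3 : 1 ≤ G.mult x w := by
    unfold MGraph.mult
    rw [Nat.succ_le_iff, card_pos]
    exact ⟨dt.ee w, by simp only [mem_filter, mem_univ, true_and]; exact dt.ends_eq w⟩
  have h4 : G.mult x w ≤ mm dt Q w := by omega
  have hwP : w ∉ P0 G Q := by
    rw [ac2_mem_P0]; simpa using hR
  have hPle : ∀ p ∈ P0 G Q, G.deg x + G.deg p ≤ D := by
    intro p hp
    rw [ac2_mem_P0] at hp
    have h5 : ((G.deg x + G.deg p : ℕ) : ℝ) < ((D + 1 : ℕ) : ℝ) := by
      push_cast
      linarith
    have h6 : G.deg x + G.deg p < D + 1 := by exact_mod_cast h5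
    omega
  have hSP : S0 G D (G.deg x) ⊆ P0 G Q := by
    intro p hp
    rw [ac2_mem_S0] at hp
    rw [ac2_mem_P0]
    have h5 : (G.deg x : ℝ) + 2 * G.deg p + 2 ≤ D := by exact_mod_cast hp
    have h6 : (0 : ℝ) ≤ G.deg x := Nat.cast_nonneg _
    linarith
  have hcnt := hfan.cnt (P0 G Q) hwP hPle
  have hcntS := hfan.cntS (P0 G Q) (S0 G D (G.deg x)) hSP hwP hPle (by
      intro p hp q hq
      rw [ac2_mem_S0] at hp hq
      omega)
  refine ⟨h1, h2, h3, h4, ?_, ?_, ?_, ?_, ?_⟩
  · intro v hv
    have := hcnt v hv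
    omega
  · omega
  · have hwn : w ∉ F.image (G.opp w) := by
      intro h
      rw [mem_image] at h
      obtain ⟨f, hf, hfw⟩ := h
      exact opp_ne (mem_inc.mp (hfan.sub hf)) hfw
    have := ac2_sum_mult_le (G := G) x (insert w (F.image (G.opp w)))
    rw [sum_insert hwn] at this
    omega
  · omega
  · intro f hf hfv hlt
    have hRv : Q ≤ G.deg (G.opp w f) := h1 f hf
    have hfw : w ∈ G.ends f := mem_inc.mp (hfan.sub hf)
    set v := G.opp w f with hvdef
    have hltr : (G.deg (dt.xx v) : ℝ) < G.deg x := by exact_mod_cast hlt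
    have hSv : (G.deg (dt.xx v) : ℝ) + Q < D + 1 := by linarith
    obtain ⟨_, h2v⟩ := ac2_base dt Q v hSv
    have hfanv := dt.fan v
    have hvD := dt.deg_le v
    have hvP : v ∉ P0 G Q := by
      rw [ac2_mem_P0]; simpa using hRv
    have hPlev : ∀ p ∈ P0 G Q, G.deg (dt.xx v) + G.deg p ≤ D := by
      intro p hp
      have := hPle p hp
      omega
    have hcv := hfanv.cnt (P0 G Q) hvP hPlev w (by
      rw [mem_image]
      exact ⟨f, hfv, opp_opp hfw⟩)
    -- `xx v` is not adjacent to `w`
    have h0 : G.mult (dt.xx v) w = 0 := by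
      unfold MGraph.mult
      rw [card_eq_zero, filter_eq_empty_iff]
      intro g _ hg
      have hg' : G.ends g = s(w, dt.xx v) := by rw [hg, Sym2.eq_swap]
      have h7 : G.deg x ≤ G.deg (G.opp w g) :=
        dt.min_deg w g (mem_inc.mpr (mem_ends_left hg'))
      rw [opp_eq hg'] at h7
      omega
    have hmw := ac2_mm_le dt Q w (dt.xx v)
    -- the edges from `v` to `x`
    have hxne : x ≠ dt.xx v := by
      intro h
      rw [← h] at hlt
      omega
    have hxv : G.mult x v ≤ G.degTo v ((P0 G Q).erase (dt.xx v)) := by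
      unfold MGraph.mult MGraph.degTo
      rw [ac2_mult_eq x v]
      apply card_le_card
      intro g
      simp only [mem_filter, mem_erase]
      rintro ⟨h5, h6⟩
      refine ⟨h5, ?_, ?_⟩
      · rw [h6]; exact hxne
      · rw [h6]; exact (ac2_mem_P0 Q _).mpr hx
    have hmv := ac2_le_mm dt Q v x (S0 G D (G.deg x)) hx hSP
    constructor
    · omega
    · omega

end Pool.Agent.Helper82.EC2

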