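import Pool.Agent.Helper82.EC2.St

/-!
# MP_47b98d_co, second generation: module Debt2
-/

set_option autoImplicit false

open Finset
open scoped Classical

namespace Pool.Agent.Helper82.EC2

open EC EC.MGraph

namespace Debt2Aux

variable {V E : Type} [Fintype V] [Fintype E] {G : MGraph V E} {D μ : ℕ}

/-- size of the fibre of the fan over `v` -/
noncomputable def fib (dt : Data G D μ) (w v : V) : ℕ :=
  ((dt.FF w).filter (fun f => G.opp w f = v)).card

lemma fib_le (dt : Data G D μ) (w v : V) : fib dt w v ≤ μ := by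
  have h2 : ((dt.FF w).filter (fun f => G.opp w f = v)).card ≤ G.mult w v := by
    apply Finset.card_le_card
    intro f hf
    rw [Finset.mem_filter] at hf
    rw [Finset.mem_filter]
    refine ⟨Finset.mem_univ _, ?_⟩
    have h3 : w ∈ G.ends f := by
      have := (dt.fan w).sub hf.1
      simpa [MGraph.inc] using this
    have h4 := hf.2
    unfold MGraph.opp at h4
    rw [dif_pos h3] at h4
    rw [← h4]
    exact (Sym2.other_spec h3).symm
  exact h2.trans (dt.mult_le w v)

lemma sum_fib (dt : Data G D μ) (w : V) (g : V → ℝ) :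
    ∑ f ∈ dt.FF w, g (G.opp w f) = ∑ v ∈ (dt.FF w).image (G.opp w), (fib dt w v : ℝ) * g v := by
  rw [← Finset.sum_fiberwise_of_maps_to (s := dt.FF w) (t := (dt.FF w).image (G.opp w))
    (g := G.opp w) (fun f hf => Finset.mem_image_of_mem _ hf)]
  apply Finset.sum_congr rfl
  intro v _
  rw [fib, ← nsmul_eq_mul, ← Finset.sum_const]
  apply Finset.sum_congr rfl
  intro f hf
  rw [(Finset.mem_filter.1 hf).2]

/-- summation over a fan -/
lemma sum_fan_le (dt : Data G D μ) (w : V) (g : V → ℝ)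
    (hg : ∀ v, 0 ≤ g v) :
    ∑ f ∈ dt.FF w, g (G.opp w f) ≤ μ * ∑ v ∈ (dt.FF w).image (G.opp w), g v := by
  rw [sum_fib, Finset.mul_sum]
  apply Finset.sum_le_sum
  intro v _
  exact mul_le_mul_of_nonneg_right (by exact_mod_cast fib_le dt w v) (hg v)

lemma Thr.Qpos {D : ℕ} {Q : ℝ} (h : Thr D Q) : 0 < Q := by
  have := h.lo
  have : (0 : ℝ) ≤ D := Nat.cast_nonneg D
  linarith [h.lo]

lemma QQ_le (hPay : StPay) (dt : Data G D μ) (Q : ℝ) (hT : Thr D Q) (w : V)
    (hS : Sm dt Q w) (hs : 1 ≤ G.deg (dt.xx w)) :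
    QQ G D Q w ≤ mm dt Q w * gg Q (G.deg (dt.xx w)) := by
  have hQ := Thr.Qpos hT
  have hS' : (G.deg (dt.xx w) : ℝ) + Q < D + 1 := hS
  have hs' : (1 : ℝ) ≤ G.deg (dt.xx w) := by exact_mod_cast hs
  unfold QQ mm
  rw [← nsmul_eq_mul, ← Finset.sum_const, Finset.sum_filter]
  apply Finset.sum_le_sum
  intro f hf
  obtain ⟨-, hmed⟩ := hPay V E G D μ dt Q hT w (G.opp w f)
  have hmin := dt.min_deg w f hf
  have hmin' : (G.deg (dt.xx w) : ℝ) ≤ G.deg (G.opp w f) := by exact_mod_cast hmin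
  split_ifs with hp
  · by_cases hsm : (D : ℝ) + 1 ≤ G.deg (G.opp w f) + Q
    · obtain ⟨-, h1, h2⟩ := hmed hsm hp
      refine h1.trans (h2.trans ?_)
      unfold gg
      have : Q / ((D : ℝ) + 1 - Q) ≤ Q / G.deg (dt.xx w) := by
        apply div_le_div_of_nonneg_left hQ.le (by linarith)
        linarith
      linarith
    · push Not at hsm
      unfold pay
      split_ifs with h1
      · unfold gg
        have : Q / (G.deg (G.opp w f) : ℝ) ≤ Q / G.deg (dt.xx w) := by
          apply div_le_div_of_nonneg_left hQ.le (by linarith)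
          exact hmin'
        linarith
      · unfold gg
        have : 1 ≤ Q / (G.deg (dt.xx w) : ℝ) := by
          rw [le_div_iff₀ (by linarith)]
          linarith
        linarith
  · unfold pay
    rw [if_neg (by tauto)]

end Debt2Aux

open Debt2Aux

theorem stDebt2 (hPay : StPay) (hAc : StAc2) (hLoss : StLoss2) (hFL : StFL) : StDebt2 := by
  intro V E _ _ G D μ dt Q hT w hR hS hGood hsp
  obtain ⟨-, A2, A3, A4, A5, A6, A7, A8, A9⟩ := hAc V E G D μ dt Q hT w hR hS
  have hL := hLoss V E G D μ dt Q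
  set x := dt.xx w with hx
  set s := G.deg x with hs
  set m := mm dt Q w with hm
  set j := jj dt Q w with hj
  set wm := G.mult x w with hwm
  have hQ := Thr.Qpos hT
  have hs1 : 1 ≤ s := by omega
  have hm1 : 1 ≤ m := by omega
  have hdw : G.deg w ≤ D := dt.deg_le w
  have hD2 : (2 : ℝ) ≤ D := by exact_mod_cast hT.two_le
  have hDpos : (0 : ℝ) < D := by linarith
  have hQD : Q ≤ D := by linarith [hT.hi]
  have hSr : (s : ℝ) + Q < D + 1 := hS
  obtain ⟨t, ht⟩ : ∃ t, D = G.deg w + t := ⟨D - G.deg w, by omega⟩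
  have ht' : D - G.deg w = t := by omega
  rw [ht'] at A2 A8
  have htr : (G.deg w : ℝ) = D - t := by
    have : (D : ℝ) = G.deg w + t := by exact_mod_cast ht
    linarith
  have hQQ := QQ_le hPay dt Q hT w hS hs1
  have hspare : spare dt Q w = (D : ℝ) - t - Q - QQ G D Q w - al D Q * j := by
    unfold spare
    rw [if_pos hS, htr]
  have hspEE : - EE D Q s m j t ≤ spare dt Q w := by
    rw [hspare]
    unfold EE
    linarith
  have hEE : 0 < EE D Q s m j t := by linarith
  obtain ⟨ω, hω, hωC, hFR⟩ := hGood m j t A2 hm1 hEE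
  have hω0 := hω.nonneg
  have hμ1 : 1 ≤ μ := A3.trans (dt.mult_le x w)
  have hμr : (1 : ℝ) ≤ μ := by exact_mod_cast hμ1
  have hdl0 : 0 ≤ dl D Q := by
    unfold dl
    have : 0 ≤ (D : ℝ) - Q := by linarith
    positivity
  have hcard : ((dt.FF w).card : ℝ) = (D : ℝ) + 1 - s := by
    have h1 := (dt.fan w).card_eq
    have h2 : ((dt.FF w).card : ℝ) + s = D + 1 := by exact_mod_cast h1
    linarith
  have hL' := hL ω hT w hR hS hω hωC
  set C := Q / D / s - dl D Q with hC
  set N := (dt.FF w).image (G.opp w) with hN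
  set A : V → Prop := fun v => G.deg (dt.xx v) < s ∧ ∃ f ∈ dt.FF w, G.opp w f = v ∧ f ∈ dt.FF v
    with hA
  set S : V → ℝ := fun v => (G.degTo v ((S0 G D s).erase x) : ℝ) with hSdef
  set h : V → ℝ := fun v => (G.mult x v : ℝ) with hhdef
  set cost : V → ℝ := fun v =>
    (if A v then Q / D / G.deg (dt.xx v) - dl D Q - ω else Q / D / s - dl D Q - ω) * S v +
      (Q / D / s - dl D Q) * h v with hcost
  have hS0 : ∀ v, 0 ≤ S v := fun v => Nat.cast_nonneg _
  have hh0 : ∀ v, 0 ≤ h v := fun v => Nat.cast_nonneg _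
  have hloss : ∀ f ∈ dt.FF w, al D Q - tau dt Q w f ≤
      ω * G.degTo (G.opp w f) ((P0 G Q).erase x) + cost (G.opp w f) +
        ((D : ℝ) - G.deg (G.opp w f)) / D := by
    intro f hf
    have hl := hL' f hf
    by_cases hr : G.deg (dt.xx (G.opp w f)) < s
    · by_cases hAv : A (G.opp w f)
      · simp only [hcost, if_pos hAv]
        rw [if_pos hr] at hl
        exact hl
      · have hfn : f ∉ dt.FF (G.opp w f) := fun hh => hAv ⟨hr, f, hf, rfl, hh⟩
        have hsm : Sm dt Q (G.opp w f) := by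
          unfold Sm
          have : (G.deg (dt.xx (G.opp w f)) : ℝ) < s := by exact_mod_cast hr
          linarith
        have htau : tau dt Q w f = al D Q := by
          unfold tau
          rw [if_pos ⟨hsm, hfn⟩]
        rw [htau, sub_self]
        have hdv : (G.deg (G.opp w f) : ℝ) ≤ D := by exact_mod_cast dt.deg_le _
        have h1 : 0 ≤ cost (G.opp w f) := by
          simp only [hcost, if_neg hAv]
          exact add_nonneg (mul_nonneg (by linarith) (hS0 _))
            (mul_nonneg (by linarith) (hh0 _))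
        have h2 : 0 ≤ ((D : ℝ) - G.deg (G.opp w f)) / D :=
          div_nonneg (by linarith) hDpos.le
        have h3 : 0 ≤ ω * G.degTo (G.opp w f) ((P0 G Q).erase x) :=
          mul_nonneg hω0 (Nat.cast_nonneg _)
        linarith
    · have hAv : ¬ A (G.opp w f) := fun hh => hr hh.1
      simp only [hcost, if_neg hAv]
      rw [if_neg hr] at hl
      exact hl
  -- the sums
  have hS1 : ∑ f ∈ dt.FF w, ω * G.degTo (G.opp w f) ((P0 G Q).erase x) ≤
      ((D : ℝ) + 1 - s) * ω * ((j : ℝ) - 1 + wm) := by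
    have : ∑ f ∈ dt.FF w, ω * G.degTo (G.opp w f) ((P0 G Q).erase x) ≤
        ∑ f ∈ dt.FF w, ω * ((j : ℝ) - 1 + wm) := by
      apply Finset.sum_le_sum
      intro f hf
      apply mul_le_mul_of_nonneg_left _ hω0
      have h1 := A5 (G.opp w f) (Finset.mem_image_of_mem _ hf)
      have h2 : (G.degTo (G.opp w f) ((P0 G Q).erase x) : ℝ) + 1 ≤ j + wm := by exact_mod_cast h1
      linarith
    rw [Finset.sum_const, nsmul_eq_mul, hcard] at this
    linarith
  have hS4 : ∑ f ∈ dt.FF w, ((D : ℝ) - G.deg (G.opp w f)) ≤ μ * ((s : ℝ) - 2 - t) := by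
    refine (sum_fan_le dt w (fun v => (D : ℝ) - G.deg v) (fun v => ?_)).trans ?_
    · have : (G.deg v : ℝ) ≤ D := by exact_mod_cast dt.deg_le v
      linarith
    apply mul_le_mul_of_nonneg_left _ (Nat.cast_nonneg _)
    have h1 : ∑ v ∈ (dt.FF w).image (G.opp w), ((D : ℝ) - G.deg v) =
        ((∑ v ∈ (dt.FF w).image (G.opp w), (D - G.deg v) : ℕ) : ℝ) := by
      push_cast
      apply Finset.sum_congr rfl
      intro v _
      rw [Nat.cast_sub (dt.deg_le v)]
    have h2 : ((∑ v ∈ (dt.FF w).image (G.opp w), (D - G.deg v) : ℕ) : ℝ) + 2 + t ≤ s := by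
      exact_mod_cast A8
    rw [h1]
    linarith
  have hSc : ∑ f ∈ dt.FF w, cost (G.opp w f) = ∑ v ∈ N, (fib dt w v : ℝ) * cost v :=
    sum_fib dt w cost
  have hfibsum : ∑ v ∈ N, (fib dt w v : ℝ) = (D : ℝ) + 1 - s := by
    have := sum_fib dt w (fun _ => (1 : ℝ))
    simp only [mul_one, Finset.sum_const, nsmul_eq_mul] at this
    rw [← hcard]
    exact this.symm
  obtain ⟨y, hy0, hyn, hyr, hys, hyF⟩ := hFL V N A (fun v => (fib dt w v : ℝ)) S h
    (fun v => (G.deg (dt.xx v) : ℝ)) ((D : ℝ) + 1 - s) μ s ((s : ℝ) - wm) ((j : ℝ) - 1 + wm)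
    ((m : ℝ) + 2) (Q / D) (dl D Q) ω (by linarith) (by positivity) (by exact_mod_cast hs1)
    (by positivity) hdl0 hω0 hωC
    (fun v _ => ⟨Nat.cast_nonneg _, by exact_mod_cast fib_le dt w v⟩)
    hfibsum (fun v _ => ⟨hS0 v, hh0 v⟩)
    (by
      have : ∑ v ∈ N, S v + 1 ≤ j + wm := by
        simp only [hSdef]
        exact_mod_cast A6
      linarith)
    (by
      have : ∑ v ∈ N, h v + wm ≤ s := by
        simp only [hhdef]
        exact_mod_cast A7
      linarith)
    (by
      rintro v - ⟨hlt, f, hf, rfl, hfv⟩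
      obtain ⟨h1, h2⟩ := A9 f hf hfv hlt
      refine ⟨?_, ?_, ?_⟩
      · simp only [hhdef]; exact_mod_cast h1
      · simp only [hSdef, hhdef]; exact_mod_cast h2
      · exact_mod_cast hlt)
  have hFRy := hFR wm A3 (dt.mult_le x w) A4 y hy0 hyn hyr (fun h0 => by
    have := hys h0
    have h3 : (m : ℝ) + 3 ≤ s := by linarith
    exact_mod_cast h3)
  have hsum : ∑ f ∈ dt.FF w, (al D Q - tau dt Q w f) ≤
      ((D : ℝ) + 1 - s) * ω * ((j : ℝ) - 1 + wm) + ∑ v ∈ N, (fib dt w v : ℝ) * cost v +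
        μ * ((s : ℝ) - 2 - t) / D := by
    refine (Finset.sum_le_sum hloss).trans ?_
    rw [Finset.sum_add_distrib, Finset.sum_add_distrib, ← Finset.sum_div, hSc]
    have h4 := div_le_div_of_nonneg_right hS4 hDpos.le
    linarith
  rw [Finset.sum_sub_distrib, Finset.sum_const, nsmul_eq_mul, hcard] at hsum
  unfold FR at hFRy
  have hyF' : ∑ v ∈ N, (fib dt w v : ℝ) * cost v ≤
      y * (Q / D - (dl D Q + ω) * ((m : ℝ) + 2)) + min (μ : ℝ) ((D : ℝ) + 1 - s - y) *
        (((s : ℝ) - wm) * (Q / D / s - dl D Q) +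
          ((j : ℝ) - 1 + wm - ((m : ℝ) + 2) * y / μ) * (Q / D / s - dl D Q - ω)) := by
    refine le_trans (le_of_eq ?_) hyF
    apply Finset.sum_congr rfl
    intro v _
    simp only [hcost]
    by_cases hAv : A v
    · rw [if_pos hAv, if_pos hAv]
    · rw [if_neg hAv, if_neg hAv]
  linarith

end Pool.Agent.Helper82.EC2
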