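import Pool.Agent.Helper82.EC2.St

/-!
# MP_47b98d_co, second generation: module FL
-/

set_option autoImplicit false

open Finset
open scoped Classical

namespace Pool.Agent.Helper82.EC2

namespace FLAux

/-- the claim for one vertex of type `A` -/
lemma claimA {S h ρ r q s δ ω : ℝ} (hr : 0 < r) (hs : 0 < s) (hq : 0 ≤ q) (hδ : 0 ≤ δ)
    (hω : 0 ≤ ω) (hS : 0 ≤ S) (hh : 0 ≤ h) (h1 : r + h ≤ ρ) (h2 : S + h + 1 ≤ ρ)
    (h3 : ρ + 1 ≤ s) :
    (q / ρ - δ - ω) * S + (q / s - δ) * h ≤
      min 1 (S / r) * (q - (δ + ω) * r) + (1 - min 1 (S / r)) * ((q / s - δ) * h) := by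
  have hρ : 0 < ρ := by linarith
  have hCq : q / s - δ ≤ q / ρ := by
    have : q / s ≤ q / ρ := div_le_div_of_nonneg_left hq hρ (by linarith)
    linarith
  rcases le_or_gt S r with hSr | hSr
  · have hl : min 1 (S / r) = S / r := min_eq_right (by rw [div_le_one hr]; exact hSr)
    rw [hl]
    have hkey : q / ρ * r + (q / s - δ) * h ≤ q := by
      have h4 : (q / s - δ) * h ≤ q / ρ * h := mul_le_mul_of_nonneg_right hCq hh
      have h5 : q / ρ * (r + h) ≤ q / ρ * ρ :=
        mul_le_mul_of_nonneg_left h1 (div_nonneg hq hρ.le)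
      have h6 : q / ρ * ρ = q := div_mul_cancel₀ q hρ.ne'
      nlinarith
    have hl0 : 0 ≤ S / r := div_nonneg hS hr.le
    have h7 : S / r * (q / ρ * r + (q / s - δ) * h) ≤ S / r * q :=
      mul_le_mul_of_nonneg_left hkey hl0
    have h8 : S / r * r = S := div_mul_cancel₀ S hr.ne'
    have e1 : S / r * (q / ρ * r + (q / s - δ) * h) =
        q / ρ * (S / r * r) + S / r * ((q / s - δ) * h) := by ring
    rw [e1, h8] at h7
    have e2 : S / r * (q - (δ + ω) * r) = S / r * q - (δ + ω) * (S / r * r) := by ring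
    rw [e2, h8]
    nlinarith
  · have hl : min 1 (S / r) = 1 := min_eq_left (by rw [one_le_div hr]; exact hSr.le)
    rw [hl]
    have h4 : (q / s - δ) * h ≤ q / ρ * h := mul_le_mul_of_nonneg_right hCq hh
    have h5 : q / ρ * (S + h) ≤ q / ρ * ρ :=
      mul_le_mul_of_nonneg_left (by linarith) (div_nonneg hq hρ.le)
    have h6 : q / ρ * ρ = q := div_mul_cancel₀ q hρ.ne'
    have h7 : (δ + ω) * r ≤ (δ + ω) * S := mul_le_mul_of_nonneg_left hSr.le (by linarith)
    nlinarith

end FLAux

open FLAux

theorem stFL : StFL := by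
  intro ι N A mu S h ρ n μ s H SA r q δ ω hμ hr hs hq hδ hω hωC hmu hn hSh hSA hH hA
  set l : ι → ℝ := fun v => if A v then min 1 (S v / r) else 0 with hl
  have hC : 0 ≤ q / s - δ := by linarith
  have hl0 : ∀ v ∈ N, 0 ≤ l v := by
    intro v hv
    simp only [hl]
    split_ifs
    · exact le_min zero_le_one (div_nonneg (hSh v hv).1 hr.le)
    · exact le_rfl
  have hl1 : ∀ v, l v ≤ 1 := by
    intro v
    simp only [hl]
    split_ifs
    · exact min_le_left _ _
    · exact zero_le_one
  have hlS : ∀ v ∈ N, l v * r ≤ S v := by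
    intro v hv
    simp only [hl]
    split_ifs
    · have : min 1 (S v / r) * r ≤ S v / r * r :=
        mul_le_mul_of_nonneg_right (min_le_right _ _) hr.le
      rwa [div_mul_cancel₀ _ hr.ne'] at this
    · rw [zero_mul]; exact (hSh v hv).1
  set y : ℝ := ∑ v ∈ N, mu v * l v with hy
  have hy0 : 0 ≤ y := Finset.sum_nonneg fun v hv => mul_nonneg (hmu v hv).1 (hl0 v hv)
  have hyn : y ≤ n := by
    rw [← hn]
    refine Finset.sum_le_sum fun v hv => ?_
    have := mul_le_mul_of_nonneg_left (hl1 v) (hmu v hv).1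
    linarith
  have hyr : y * r ≤ μ * SA := by
    calc y * r = ∑ v ∈ N, mu v * (l v * r) := by
          rw [hy, Finset.sum_mul]
          exact Finset.sum_congr rfl fun v _ => by ring
      _ ≤ ∑ v ∈ N, μ * S v := by
          refine Finset.sum_le_sum fun v hv => ?_
          exact mul_le_mul (hmu v hv).2 (hlS v hv) (mul_nonneg (hl0 v hv) hr.le) hμ.le
      _ = μ * ∑ v ∈ N, S v := by rw [Finset.mul_sum]
      _ ≤ μ * SA := mul_le_mul_of_nonneg_left hSA hμ.le
  refine ⟨y, hy0, hyn, hyr, ?_, ?_⟩
  · intro hpos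
    obtain ⟨v, hv, hne⟩ := Finset.exists_ne_zero_of_sum_ne_zero hpos.ne'
    have hAv : A v := by
      by_contra hnA
      apply hne
      simp only [hl, if_neg hnA, mul_zero]
    obtain ⟨h1, -, h3⟩ := hA v hv hAv
    have := (hSh v hv).2
    linarith
  · set M := min μ (n - y) with hM
    have hM0 : 0 ≤ M := le_min hμ.le (by linarith)
    have hny : n - y = ∑ v ∈ N, mu v * (1 - l v) := by
      rw [← hn, hy, ← Finset.sum_sub_distrib]
      exact Finset.sum_congr rfl fun v _ => by ring
    have hM1 : ∀ v ∈ N, mu v * (1 - l v) ≤ M := by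
      intro v hv
      refine le_min ?_ ?_
      · have h1 := hl0 v hv
        have h2 := (hmu v hv).1
        have h3 := (hmu v hv).2
        nlinarith
      · rw [hny]
        exact Finset.single_le_sum (f := fun v => mu v * (1 - l v))
          (fun v hv => mul_nonneg (hmu v hv).1 (by linarith [hl1 v])) hv
    have hterm : ∀ v ∈ N, mu v * ((if A v then q / ρ v - δ - ω else q / s - δ - ω) * S v +
        (q / s - δ) * h v) ≤ mu v * l v * (q - (δ + ω) * r) + M * ((q / s - δ) * h v) +
          M * (q / s - δ - ω) * (S v - r * (mu v * l v) / μ) := by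
      intro v hv
      have hCh : 0 ≤ (q / s - δ) * h v := mul_nonneg hC (hSh v hv).2
      have hCB : 0 ≤ q / s - δ - ω := by linarith
      have h4 : mu v * (1 - l v) * ((q / s - δ) * h v) ≤ M * ((q / s - δ) * h v) :=
        mul_le_mul_of_nonneg_right (hM1 v hv) hCh
      have hmul : r * (mu v * l v) / μ ≤ S v := by
        rw [div_le_iff₀ hμ]
        calc r * (mu v * l v) = mu v * (l v * r) := by ring
          _ ≤ μ * S v := mul_le_mul (hmu v hv).2 (hlS v hv) (mul_nonneg (hl0 v hv) hr.le) hμ.le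
          _ = S v * μ := by ring
      have h5 : 0 ≤ M * (q / s - δ - ω) * (S v - r * (mu v * l v) / μ) :=
        mul_nonneg (mul_nonneg hM0 hCB) (by linarith)
      by_cases hAv : A v
      · rw [if_pos hAv]
        obtain ⟨a1, a2, a3⟩ := hA v hv hAv
        have hcl := claimA (S := S v) (h := h v) (ρ := ρ v) hr hs hq hδ hω (hSh v hv).1
          (hSh v hv).2 a1 a2 a3
        have hlv : l v = min 1 (S v / r) := by simp only [hl, if_pos hAv]
        rw [← hlv] at hcl
        have h6 := mul_le_mul_of_nonneg_left hcl (hmu v hv).1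
        nlinarith
      · rw [if_neg hAv]
        have hlv : l v = 0 := by simp only [hl, if_neg hAv]
        rw [hlv] at h4 ⊢
        have h7 : mu v ≤ M := by
          have := hM1 v hv
          rw [hlv] at this
          linarith
        have h8 : mu v * ((q / s - δ - ω) * S v) ≤ M * ((q / s - δ - ω) * S v) :=
          mul_le_mul_of_nonneg_right h7 (mul_nonneg hCB (hSh v hv).1)
        have e : r * (mu v * 0) / μ = 0 := by simp
        rw [e]
        nlinarith
    refine (Finset.sum_le_sum hterm).trans ?_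
    rw [Finset.sum_add_distrib, Finset.sum_add_distrib, ← Finset.sum_mul, ← Finset.mul_sum,
      ← Finset.mul_sum, ← Finset.mul_sum, Finset.sum_sub_distrib, ← Finset.sum_div,
      ← Finset.mul_sum, ← hy]
    have hCB : 0 ≤ q / s - δ - ω := by linarith
    have h9 : M * ((q / s - δ) * ∑ v ∈ N, h v) ≤ M * ((q / s - δ) * H) :=
      mul_le_mul_of_nonneg_left (mul_le_mul_of_nonneg_left hH hC) hM0
    have h10 : M * (q / s - δ - ω) * (∑ v ∈ N, S v - r * y / μ) ≤
        M * (q / s - δ - ω) * (SA - r * y / μ) :=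
      mul_le_mul_of_nonneg_left (by linarith) (mul_nonneg hM0 hCB)
    nlinarith

end Pool.Agent.Helper82.EC2
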