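import Pool.Agent.Helper82.EC2.StN

/-!
# MP_47b98d_co, EC2 module FRA: reduction of `FR` to three inequalities
-/

set_option autoImplicit false

open Finset
open scoped Classical

namespace Pool.Agent.Helper82.EC2

/-- the last case of `stFRA`, linear bookkeeping -/
private lemma fra_end {E W1 M A B z y0 T RA R1 R2 K : ℝ}
    (hT : T = E - RA + W1 + M + K)
    (h3 : T + R1 + R2 ≤ 0)
    (key : A + B = K + y0)
    (e1 : z ≤ B - (y0 - R1 - R2)) : E + W1 + M + (A + z) ≤ RA := by
  linarith

theorem stFRA : StFRA := by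
  intro D μ Q s m j t w W hD hQ hQD hμ hs hsD hμn hsum hj ht hw hwm hW hWC hT0 h1 h2 y hy0 hyn
    hyr hyp
  have hDpos : (0 : ℝ) < D := by
    have : (2 : ℝ) ≤ (D : ℝ) := by exact_mod_cast hD
    linarith
  have hn : 0 < (D : ℝ) + 1 - s := by linarith
  have hspos : 0 < s := by linarith
  have hμpos : 0 < μ := by linarith
  unfold FR
  set n : ℝ := (D : ℝ) + 1 - s with hndef
  set ω : ℝ := W / n with hωdef
  set q : ℝ := Q / D with hqdef
  set δ : ℝ := dl D Q with hδdef
  have hq : 0 < q := div_pos hQ hDpos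
  have hωn : n * ω = W := by rw [hωdef]; field_simp
  have hC1 : 0 ≤ q / s - δ - ω := by linarith
  have hC : 0 ≤ q / s - δ := by
    have : 0 ≤ ω := div_nonneg hW hn.le
    linarith
  have hTdef : T0 D μ Q s m j t w W = EE D Q s m j t - n * al D Q + W * (j - 1 + w) +
      μ * (s - 2 - t) / D + μ * ((s - w) * (q / s - δ) + (j - 1 + w) * (q / s - δ - ω)) := by
    rfl
  have hB : 0 ≤ j - 1 + w - (m + 2) * y / μ := by
    have : (m + 2) * y / μ ≤ j - 1 + w := by
      rw [div_le_iff₀ hμpos]
      nlinarith
    linarith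
  have hrho : s - (m + 2) = j + t - 1 := by linarith
  -- value with `μ` instead of the minimum
  have key : y * (q - (δ + ω) * (m + 2)) + μ * ((s - w) * (q / s - δ) +
        (j - 1 + w - (m + 2) * y / μ) * (q / s - δ - ω)) =
      μ * ((s - w) * (q / s - δ) + (j - 1 + w) * (q / s - δ - ω)) + y * q * (j + t - 1) / s := by
    rw [← hrho]
    field_simp
    ring
  rcases le_or_gt y (n - μ) with hle | hgt
  · have hmin : min μ (n - y) = μ := min_eq_left (by linarith)
    rw [hmin]
    rcases eq_or_lt_of_le hy0 with h0 | hpos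
    · have hk := key
      rw [← h0] at hk ⊢
      have e0 : (0 : ℝ) * q * (j + t - 1) / s = 0 := by ring
      rw [e0] at hk
      rw [hωn]
      linarith
    · have := h1 y hpos hle hyr (hyp hpos)
      rw [hωn]
      linarith
  · have hpos : 0 < y := by linarith
    have hmin : min μ (n - y) = n - y := min_eq_right (by linarith)
    rw [hmin]
    have h3 := h2 y hgt hyn hyr (hyp hpos)
    rw [hωn]
    -- replace `n - y` by `μ` in the second product
    have hBC : 0 ≤ (j - 1 + w - (m + 2) * y / μ) * (q / s - δ - ω) := mul_nonneg hB hC1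
    have hz : 0 < y - (n - μ) := by linarith
    have e1 : (n - y) * ((s - w) * (q / s - δ) +
        (j - 1 + w - (m + 2) * y / μ) * (q / s - δ - ω)) ≤
        μ * ((s - w) * (q / s - δ) + (j - 1 + w - (m + 2) * y / μ) * (q / s - δ - ω)) -
        (y - (n - μ)) * ((s - w) * (q / s - δ)) := by
      have e5 : 0 ≤ (y - (n - μ)) * ((j - 1 + w - (m + 2) * y / μ) * (q / s - δ - ω)) :=
        mul_nonneg hz.le hBC
      have e6 : μ * ((s - w) * (q / s - δ) + (j - 1 + w - (m + 2) * y / μ) * (q / s - δ - ω)) -
        (y - (n - μ)) * ((s - w) * (q / s - δ)) - (n - y) * ((s - w) * (q / s - δ) +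
        (j - 1 + w - (m + 2) * y / μ) * (q / s - δ - ω)) =
        (y - (n - μ)) * ((j - 1 + w - (m + 2) * y / μ) * (q / s - δ - ω)) := by ring
      rw [← sub_nonneg, e6]
      exact e5
    have e2 : y * q * (j + t - 1) / s - (y - (n - μ)) * ((s - w) * (q / s - δ)) ≤
        (n - μ) * q * (j + t - 1) / s + (y - (n - μ)) * δ * (s - w) := by
      have e3 : (n - μ) * q * (j + t - 1) / s + (y - (n - μ)) * δ * (s - w) -
          (y * q * (j + t - 1) / s - (y - (n - μ)) * ((s - w) * (q / s - δ))) =
          (y - (n - μ)) * (q * (s - w - (j + t - 1)) / s) := by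
        field_simp
        ring
      have e4 : 0 ≤ (y - (n - μ)) * (q * (s - w - (j + t - 1)) / s) := by
        apply mul_nonneg hz.le
        apply div_nonneg _ hspos.le
        apply mul_nonneg hq.le
        linarith
      rw [← sub_nonneg, e3]
      exact e4
    refine fra_end hTdef h3 key ?_
    refine le_trans e1 ?_
    generalize (y - (n - μ)) * ((s - w) * (q / s - δ)) = X1 at e2 ⊢
    generalize (n - μ) * q * (j + t - 1) / s = X2 at e2 ⊢
    generalize (y - (n - μ)) * δ * (s - w) = X3 at e2 ⊢
    generalize y * q * (j + t - 1) / s = X4 at e2 ⊢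
    linarith

end Pool.Agent.Helper82.EC2

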