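import Pool.Agent.Helper82.EC2.StN

/-!
# MP_47b98d_co, EC2 module LA: from natural numbers to the normalised form
-/

set_option autoImplicit false

open Finset
open scoped Classical

namespace Pool.Agent.Helper82.EC2

/-- `D ≥ 12` from `u + s < 2 Q - D + 1`, `u s = Q` -/
private lemma la_D (D μ Q s u : ℝ) (hD : 2 ≤ D) (hμ : 1 ≤ μ)
    (hQ : Q * (3 * D + μ) = 2 * D * (D + 1)) (hus : u * s = Q) (hu : 0 < u) (hs : 0 < s)
    (h : u + s < 2 * Q - D + 1) : 11 < D := by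
  by_contra hcon
  push Not at hcon
  have hQpos : 0 < Q := by rw [← hus]; exact mul_pos hu hs
  -- `A ≤ A1`
  have hQ1 : Q * (3 * D + 1) ≤ 2 * D * (D + 1) := by nlinarith
  obtain ⟨A, hA⟩ : ∃ A, A = 2 * Q - D + 1 := ⟨_, rfl⟩
  have hApos : 0 < A := by rw [hA]; linarith
  have hA2 : 4 * Q < A ^ 2 := by
    have h1 : (u + s) ^ 2 < A ^ 2 := by
      rw [hA]
      exact pow_lt_pow_left₀ h (by positivity) (by norm_num)
    have h2 : 4 * Q ≤ (u + s) ^ 2 := by
      rw [← hus]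
      nlinarith [sq_nonneg (u - s)]
    linarith
  have hAA : A ^ 2 - 2 * A - 2 * (D - 1) > 0 := by
    have : 4 * Q = 2 * A + 2 * (D - 1) := by rw [hA]; ring
    linarith
  -- `A * (3 D + 1) ≤ D ^ 2 + 6 D + 1`
  have hA1 : A * (3 * D + 1) ≤ D ^ 2 + 6 * D + 1 := by
    rw [hA]
    nlinarith
  have h3 : (A - 2) * (3 * D + 1) ≤ D ^ 2 - 1 := by linarith
  have h3D : 0 < 3 * D + 1 := by linarith
  -- `A (A - 2) (3 D + 1) ^ 2 ≤ (D ^ 2 + 6 D + 1) (D ^ 2 - 1)`
  have h4 : A * (A - 2) * (3 * D + 1) ^ 2 ≤ (D ^ 2 + 6 * D + 1) * (D ^ 2 - 1) := by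
    have e1 : A * (3 * D + 1) * ((A - 2) * (3 * D + 1)) ≤ A * (3 * D + 1) * (D ^ 2 - 1) :=
      mul_le_mul_of_nonneg_left h3 (mul_pos hApos h3D).le
    have e2 : A * (3 * D + 1) * (D ^ 2 - 1) ≤ (D ^ 2 + 6 * D + 1) * (D ^ 2 - 1) :=
      mul_le_mul_of_nonneg_right hA1 (by nlinarith)
    calc A * (A - 2) * (3 * D + 1) ^ 2 = A * (3 * D + 1) * ((A - 2) * (3 * D + 1)) := by ring
      _ ≤ _ := e1.trans e2
  have h5 : (D ^ 2 + 6 * D + 1) * (D ^ 2 - 1) ≤ 2 * (D - 1) * (3 * D + 1) ^ 2 := by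
    have e1 : 2 * (D - 1) * (3 * D + 1) ^ 2 - (D ^ 2 + 6 * D + 1) * (D ^ 2 - 1) =
        (D - 1) * (D ^ 2 * (11 - D) + 5 * D + 1) := by ring
    have e2 : 0 ≤ (D - 1) * (D ^ 2 * (11 - D) + 5 * D + 1) := by
      apply mul_nonneg (by linarith)
      have : 0 ≤ D ^ 2 * (11 - D) := mul_nonneg (sq_nonneg D) (by linarith)
      linarith
    linarith
  have h6 : 2 * (D - 1) * (3 * D + 1) ^ 2 < A * (A - 2) * (3 * D + 1) ^ 2 := by
    apply mul_lt_mul_of_pos_right _ (by positivity)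
    nlinarith
  linarith

/-- the value of `EE` -/
private lemma la_EE (D : ℕ) (Q s m j t u q ν p : ℝ) (hD : (0 : ℝ) < D)
    (hq : q * D = Q) (hs : 0 < s) (hu : u * s = Q)
    (hqν : q * (3 + ν) * D = 2 * (D + 1)) (hp : (1 - ν) * u = 2 * (1 + p))
    (hm : m + j + t + 1 = s) :
    EE D Q s m j t = s * p - (u - 2) * (j + t + 1) - q * j := by
  unfold EE gg al
  have e1 : Q / s = u := by rw [← hu]; field_simp
  have e2 : ((D : ℝ) - Q) / D = 1 - q := by
    rw [← hq]; field_simp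
  rw [e1, e2]
  have e3 : m = s - 1 - j - t := by linarith
  have e4 : s * p = (1 - ν) * Q / 2 - s := by
    have : s * ((1 - ν) * u) = s * (2 * (1 + p)) := by rw [hp]
    rw [← hu]
    linarith
  have e5 : (1 - ν) * Q / 2 = 2 * Q - D - 1 := by
    rw [← hq]
    linarith
  rw [e4, e5, e3]
  have e6 : s * u = Q := by rw [← hu]; ring
  linear_combination e6

/-- the value of `T0` -/
private lemma la_T0 (D : ℕ) (μ Q s m j t w W u q ν p n : ℝ) (hD : (0 : ℝ) < D)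
    (hq : q * D = Q) (hν : ν * D = μ) (hs : 0 < s) (hu : u * s = Q)
    (hqν : q * (3 + ν) * D = 2 * (D + 1)) (hp : (1 - ν) * u = 2 * (1 + p))
    (hm : m + j + t + 1 = s) (hn : n = (D : ℝ) + 1 - s) (hn0 : 0 < n) :
    T0 D μ Q s m j t w W = 2 - (1 + ν) * u - j * (2 * p + q + 2 * (1 - q) * ν) -
      t * (u - 2 + ν) - q * (s - 1) + ν * (s - 2) - 2 * (1 - q) * ν * (s - 1) +
      (1 - μ / n) * W * (j - 1 + w) := by
  unfold T0
  rw [la_EE D Q s m j t u q ν p hD hq hs hu hqν hp hm]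
  have e1 : Q / D / s = u / D := by
    rw [← hu]; field_simp
  have e2 : dl D Q = 2 * (1 - q) / D := by
    unfold dl
    rw [← hq]; field_simp
  have e3 : al D Q = 1 - q := by
    unfold al
    rw [← hq]; field_simp
  rw [e1, e2, e3, ← hn]
  have e4 : μ * (s - 2 - t) / D = ν * (s - 2 - t) := by
    rw [← hν]; field_simp
  have e5 : μ * ((s - w) * (u / D - 2 * (1 - q) / D) +
      (j - 1 + w) * (u / D - 2 * (1 - q) / D - W / n)) =
      ν * (u - 2 * (1 - q)) * (s + j - 1) - μ / n * W * (j - 1 + w) := by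
    rw [← hν]
    field_simp
    ring
  rw [e4, e5]
  have e6 : u * s = q * D := by rw [hu, hq]
  have e7 : n * (1 - q) = (D + 1 - s) * (1 - q) := by rw [hn]
  rw [e7]
  generalize μ / n = z
  linear_combination (-j - s / 2) * hp + (1 / 2 + ν / 2) * e6 + (1 / 2) * hqν

theorem stLA : StLA := by
  intro D μ s m j t w hD hμ hμD hs hsQ hsum hm hE hw hwμ hwm
  have hDr : (2 : ℝ) ≤ (D : ℝ) := by exact_mod_cast hD
  have hD0 : (0 : ℝ) < D := by linarith
  have hμr : (1 : ℝ) ≤ (μ : ℝ) := by exact_mod_cast hμ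
  have hμDr : (μ : ℝ) ≤ (D : ℝ) := by exact_mod_cast hμD
  have hsr : (2 : ℝ) ≤ (s : ℝ) := by
    have : 2 ≤ s := by omega
    exact_mod_cast this
  have hs0 : (0 : ℝ) < s := by linarith
  have hsumr : (m : ℝ) + j + t + 1 = s := by exact_mod_cast hsum
  have hmr : (1 : ℝ) ≤ (m : ℝ) := by exact_mod_cast hm
  have hjr : (0 : ℝ) ≤ (j : ℝ) := Nat.cast_nonneg j
  have htr : (0 : ℝ) ≤ (t : ℝ) := Nat.cast_nonneg t
  have hwr : (1 : ℝ) ≤ (w : ℝ) := by exact_mod_cast hw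
  have hwμr : (w : ℝ) ≤ (μ : ℝ) := by exact_mod_cast hwμ
  have hwmr : (w : ℝ) ≤ (m : ℝ) := by exact_mod_cast hwm
  have hQdef : qA D μ * (3 * D + μ) = 2 * D * (D + 1) := by
    unfold qA
    have : (3 * (D : ℝ) + μ) ≠ 0 := by positivity
    field_simp
  have hQ0 : 0 < qA D μ := by
    unfold qA
    positivity
  have hWAdef : WA D μ = qA D μ / D * (1 - (μ : ℝ) / D) + 5 / D := rfl
  generalize hQe : qA D μ = Q at *
  obtain ⟨q, hqe⟩ : ∃ q, q = Q / D := ⟨_, rfl⟩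
  obtain ⟨ν, hνe⟩ : ∃ ν, ν = (μ : ℝ) / D := ⟨_, rfl⟩
  obtain ⟨u, hue⟩ : ∃ u, u = Q / s := ⟨_, rfl⟩
  obtain ⟨p, hpe⟩ : ∃ p, p = (1 - ν) * u / 2 - 1 := ⟨_, rfl⟩
  rw [← hνe, ← hue, ← hqe, ← hpe, hWAdef, ← hνe, ← hqe]
  have hq : q * D = Q := by rw [hqe]; field_simp
  have hν : ν * D = μ := by rw [hνe]; field_simp
  have hu : u * s = Q := by rw [hue]; field_simp
  have hp : (1 - ν) * u = 2 * (1 + p) := by rw [hpe]; ring
  have hqν : q * (3 + ν) * D = 2 * (D + 1) := by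
    have h1 : q * (3 + ν) * D * D = 2 * (D + 1) * D := by
      calc q * (3 + ν) * D * D = (q * D) * (3 * D + ν * D) := by ring
        _ = Q * (3 * D + μ) := by rw [hq, hν]
        _ = 2 * (D + 1) * D := by rw [hQdef]; ring
    exact mul_right_cancel₀ hD0.ne' h1
  have hEE := la_EE D Q s m j t u q ν p hD0 hq hs0 hu hqν hp hsumr
  have hu0 : 0 < u := by rw [hue]; positivity
  have hq0 : 0 < q := by rw [hqe]; positivity
  have hν0 : 0 < ν := by rw [hνe]; positivity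
  -- `2 < u`
  have hu2 : 2 < u := by
    by_contra hcon
    push Not at hcon
    have h1 : EE D Q s m j t ≤ m + t + j - ((D : ℝ) - Q) := by
      unfold EE gg al
      have e1 : Q / s = u := hue.symm
      have e2 : ((D : ℝ) - Q) / D = 1 - q := by
        rw [← hq]; field_simp
      rw [e1, e2]
      have e3 : (m : ℝ) * (u - 1) ≤ m := by nlinarith
      have e4 : (1 - q) * (j : ℝ) ≤ j := by nlinarith
      linarith
    linarith
  rw [hEE] at hE
  have hjt : (u - 2) * ((j : ℝ) + t + 1) ≥ u - 2 := by nlinarith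
  have hqj : 0 ≤ q * (j : ℝ) := mul_nonneg hq0.le hjr
  have hsp : u - 2 < s * p := by linarith
  have hp0 : 0 < p := by
    by_contra hcon
    push Not at hcon
    have h1 : (s : ℝ) * p ≤ 0 := mul_nonpos_of_nonneg_of_nonpos hs0.le hcon
    linarith
  have hν1 : ν < 1 := by
    by_contra hcon
    push Not at hcon
    have h1 : (1 - ν) * u ≤ 0 := mul_nonpos_of_nonpos_of_nonneg (by linarith) hu0.le
    linarith
  -- `s p = 2 Q - D - 1 - s`
  have hspe : (s : ℝ) * p = 2 * Q - D - 1 - s := by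
    have e4 : (s : ℝ) * p = (1 - ν) * Q / 2 - s := by
      have : (s : ℝ) * ((1 - ν) * u) = s * (2 * (1 + p)) := by rw [hp]
      rw [← hu]
      linarith
    have e5 : (1 - ν) * Q / 2 = 2 * Q - D - 1 := by
      rw [← hq]
      linarith
    rw [e4, e5]
  have hD11 : (11 : ℝ) < D :=
    la_D D μ Q s u hDr hμr hQdef hu hu0 hs0 (by linarith)
  have hD12 : (12 : ℝ) ≤ D := by
    have : 11 < D := by exact_mod_cast hD11
    have : 12 ≤ D := this
    exact_mod_cast this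
  have hspos : 0 < (s : ℝ) * p := mul_pos hs0 hp0
  -- `μ ≤ D + 1 - s`
  have hμn : (μ : ℝ) ≤ D + 1 - s := by
    have h1 : (s : ℝ) < 2 * Q - D - 1 := by linarith
    have h2 : (2 * Q - D - 1) * (3 * D + μ) = (D + 1) * (D - μ) := by
      linear_combination 2 * hQdef
    have h3 : 2 * Q - D - 1 ≤ D - μ := by
      have h4 : (2 * Q - D - 1) * (3 * D + μ) ≤ (D - μ) * (3 * D + μ) := by
        rw [h2]
        nlinarith
      exact le_of_mul_le_mul_right h4 (by positivity)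
    linarith
  have hn0 : 0 < (D : ℝ) + 1 - s := by linarith
  refine ⟨⟨hD12, by rw [hν]; exact hμr, hν1, hqν, by rw [hu, hq], hu2, hp, hsr, hjr, htr, hwr,
    by linarith, by rw [hν]; exact hwμr, by linarith⟩, hμn, ?_⟩
  rw [la_T0 D μ Q s m j t w (q * (1 - ν) + 5 / D) u q ν p _ hD0 hq hν hs0 hu hqν hp hsumr rfl hn0]
  unfold XA
  have hW : 0 ≤ q * (1 - ν) + 5 / (D : ℝ) := by
    have : 0 ≤ q * (1 - ν) := mul_nonneg hq0.le (by linarith)
    positivity
  have hνn : ν ≤ (μ : ℝ) / ((D : ℝ) + 1 - s) := by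
    rw [hνe]
    apply div_le_div_of_nonneg_left (by linarith) hn0
    linarith
  have hfin : (1 - (μ : ℝ) / ((D : ℝ) + 1 - s)) * (q * (1 - ν) + 5 / (D : ℝ)) * (j - 1 + w) ≤
      (1 - ν) * (q * (1 - ν) + 5 / (D : ℝ)) * (j - 1 + w) := by
    apply mul_le_mul_of_nonneg_right _ (by linarith)
    apply mul_le_mul_of_nonneg_right _ hW
    linarith
  linarith

end Pool.Agent.Helper82.EC2
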