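import Pool.Agent.Helper82.EC2.St
import Pool.Agent.Helper82.EC.M_Loss

/-!
# MP_47b98d_co, second generation: the loss on one fan edge
-/

set_option autoImplicit false

open Finset
open scoped Classical

namespace Pool.Agent.Helper82.EC2

open EC EC.MGraph

namespace Loss2x

open EC.Lossx (ends_opp opp_mem opp_opp mem_inc sum_ind)

lemma thr_pos {D : ℕ} {Q : ℝ} (h : Thr D Q) : (0 : ℝ) < D := by
  have : 0 < D := by have := h.two_le; omega
  exact_mod_cast this

lemma thr_Q_pos {D : ℕ} {Q : ℝ} (h : Thr D Q) : 0 < Q := by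
  have h1 := thr_pos h
  have h2 := h.lo
  linarith

lemma al_mul {D : ℕ} {Q : ℝ} (h : Thr D Q) : al D Q * D = (D : ℝ) - Q := by
  have h1 := thr_pos h
  unfold al
  field_simp

lemma dl_mul {D : ℕ} {Q : ℝ} (h : Thr D Q) : dl D Q * D = 2 * al D Q := by
  have h1 := thr_pos h
  unfold dl al
  field_simp

lemma a_nonneg {D : ℕ} {Q : ℝ} (h : Thr D Q) : 0 ≤ (D : ℝ) - Q := by
  have h1 : (2 : ℝ) ≤ D := by exact_mod_cast h.two_le
  have h2 := h.hi
  linarith

lemma al_nonneg {D : ℕ} {Q : ℝ} (h : Thr D Q) : 0 ≤ al D Q := by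
  unfold al
  exact div_nonneg (a_nonneg h) (thr_pos h).le

lemma al_le_one {D : ℕ} {Q : ℝ} (h : Thr D Q) : al D Q ≤ 1 := by
  unfold al
  rw [div_le_one (thr_pos h)]
  have := thr_Q_pos h
  linarith

lemma dl_nonneg {D : ℕ} {Q : ℝ} (h : Thr D Q) : 0 ≤ dl D Q := by
  unfold dl
  have := a_nonneg h
  positivity

lemma dl_le {D : ℕ} {Q : ℝ} (h : Thr D Q) : dl D Q ≤ 1 / D := by
  have h1 := thr_pos h
  rw [le_div_iff₀ h1, dl_mul h]
  have h2 : 2 * al D Q * D ≤ D := by
    rw [mul_assoc, al_mul h]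
    have := h.lo
    linarith
  have h3 : 2 * al D Q * D ≤ 1 * D := by linarith
  exact le_of_mul_le_mul_right h3 h1

/-- `Q / D / k` is antitone -/
lemma q_anti {D : ℕ} {Q : ℝ} (h : Thr D Q) {k k' : ℝ} (hk : 0 < k) (hkk : k ≤ k') :
    Q / D / k' ≤ Q / D / k := by
  have h1 := thr_pos h
  have h2 := thr_Q_pos h
  exact div_le_div_of_nonneg_left (by positivity) hk hkk

lemma ph_le {D : ℕ} {Q : ℝ} (h : Thr D Q) {k : ℝ} (hk : 1 ≤ k) (hkD : k ≤ D) :
    ph D Q k ≤ Q / D / k - dl D Q := by
  have h1 := thr_pos h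
  have h2 := thr_Q_pos h
  have h3 : 0 < (D : ℝ) - k + 1 := by linarith
  unfold ph gg
  rw [div_le_iff₀ h3]
  have h4 := dl_nonneg h
  have h5 := dl_mul h
  have h6 := al_mul h
  have h7 : dl D Q * ((D : ℝ) - k + 1) ≤ dl D Q * D :=
    mul_le_mul_of_nonneg_left (by linarith) h4
  have h8 : 0 ≤ Q / D / k := by positivity
  have h9 : Q / D / k * ((D : ℝ) - k + 1) = Q / k - Q / D + Q / D / k := by
    field_simp
  have h10 : Q / D = 1 - al D Q := by
    have : Q / D * D = (1 - al D Q) * D := by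
      rw [sub_mul, h6, one_mul]
      field_simp
      ring
    exact mul_right_cancel₀ h1.ne' this
  rw [sub_mul, h9, h10]
  rw [h10] at h8
  linarith

/-- the payment to a small vertex -/
lemma small_le {D : ℕ} {Q : ℝ} {k n : ℝ} (hkD : k ≤ D)
    (hn : (D : ℝ) - k + 1 ≤ n) {c : ℝ} (hc : 0 ≤ c) (hc2 : ph D Q k ≤ c) :
    (gg Q k - al D Q) / n ≤ c := by
  have h3 : 0 < (D : ℝ) - k + 1 := by linarith
  rcases le_or_gt 0 (gg Q k - al D Q) with h4 | h4
  · refine le_trans ?_ hc2
    unfold ph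
    exact div_le_div_of_nonneg_left h4 h3 hn
  · exact le_trans (div_nonpos_of_nonpos_of_nonneg h4.le (by linarith)) hc

lemma gg_le_one {D : ℕ} {Q : ℝ} (h : Thr D Q) : gg Q ((D : ℝ) + 1 - Q) ≤ 1 := by
  have h1 := a_nonneg h
  have h2 := h.hi
  unfold gg
  have : Q / ((D : ℝ) + 1 - Q) ≤ 2 := by
    rw [div_le_iff₀ (by linarith)]
    linarith
  linarith

/-- the payment to a medium vertex, compared with `C` -/
lemma medium_le {D : ℕ} {Q : ℝ} (h : Thr D Q) {s : ℝ} (hs : 1 ≤ s) (hs2 : s + Q < D + 1) :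
    gg Q ((D : ℝ) + 1 - Q) / D ≤ Q / D / s - dl D Q := by
  have h1 := thr_pos h
  have h2 := a_nonneg h
  have h3 := dl_le h
  have h4 : Q / D / ((D : ℝ) + 1 - Q) ≤ Q / D / s := q_anti h (by linarith) (by linarith)
  unfold gg
  have h5 : (Q / ((D : ℝ) + 1 - Q) - 1) / D = Q / D / ((D : ℝ) + 1 - Q) - 1 / D := by
    field_simp
  rw [h5]
  linarith

end Loss2x

open Loss2x EC.Lossx in
theorem stLoss2 (hPay : StPay) (hAc : StAc2) : StLoss2 := by
  intro V E _ _ G D μ dt Q ω hT w hR hS hOM hωC f hf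
  have hD0 := thr_pos hT
  have hQ0 := thr_Q_pos hT
  have ha0 := a_nonneg hT
  have hal := Loss2x.al_nonneg hT
  have hal1 := al_le_one hT
  have halD := Loss2x.al_mul hT
  have hdl := dl_nonneg hT
  obtain ⟨ac1, ac2, -⟩ := hAc V E G D μ dt Q hT w hR hS
  have hw : w ∈ G.ends f := (EC.Lossx.mem_inc G).1 ((dt.fan w).sub hf)
  set v := G.opp w f with hv
  have hRv : Q ≤ G.deg v := ac1 f hf
  have hvf : v ∈ G.ends f := EC.Lossx.opp_mem G hw
  have hopp : G.opp v f = w := EC.Lossx.opp_opp G hw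
  set x := dt.xx w with hx
  have hsx : (G.deg x : ℝ) + Q < D + 1 := hS
  have hdp : ∀ u : V, 1 ≤ G.deg u := by
    intro u
    unfold MGraph.deg
    rw [Nat.one_le_iff_ne_zero, Ne, Finset.card_eq_zero, ← Ne, ← Finset.nonempty_iff_ne_empty]
    refine ⟨dt.ee u, (EC.Lossx.mem_inc G).2 ?_⟩
    rw [dt.ends_eq u]
    exact Sym2.mem_mk_right _ _
  have hdp' : ∀ u : V, (1 : ℝ) ≤ G.deg u := fun u => by exact_mod_cast hdp u
  have hs1 : (1 : ℝ) ≤ G.deg x := hdp' x
  have hdv : (G.deg v : ℝ) ≤ D := by exact_mod_cast dt.deg_le v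
  have hom := hOM.nonneg
  -- the constants
  obtain ⟨C, hC⟩ : ∃ C : ℝ, C = Q / D / G.deg x - dl D Q := ⟨_, rfl⟩
  rw [← hC] at hωC ⊢
  have hC0 : 0 ≤ C := hom.trans hωC
  obtain ⟨B, hB⟩ : ∃ B : ℝ, B = if G.deg (dt.xx v) < G.deg x then
      Q / D / G.deg (dt.xx v) - dl D Q - ω else C - ω := ⟨_, rfl⟩
  rw [← hB]
  have hr1 : (1 : ℝ) ≤ G.deg (dt.xx v) := hdp' _
  have hBC : C ≤ ω + B := by
    rw [hB]
    split_ifs with h
    · have h1 : (G.deg (dt.xx v) : ℝ) ≤ G.deg x := by exact_mod_cast h.le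
      have h2 := q_anti hT (by linarith : (0 : ℝ) < G.deg (dt.xx v)) h1
      rw [hC]
      linarith
    · linarith
  have hB0 : 0 ≤ B := by linarith
  -- for vertices of degree at least `r`
  have hBk : ∀ k : ℝ, (G.deg (dt.xx v) : ℝ) ≤ k → Q / D / k - dl D Q ≤ ω + B := by
    intro k hk
    rw [hB]
    split_ifs with h
    · have h2 := q_anti hT (by linarith : (0 : ℝ) < G.deg (dt.xx v)) hk
      linarith
    · have h1 : (G.deg x : ℝ) ≤ G.deg (dt.xx v) := by exact_mod_cast (not_lt.1 h)
      have h2 := q_anti hT (by linarith : (0 : ℝ) < G.deg x) (h1.trans hk)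
      rw [hC]
      linarith
  have htv : 0 ≤ ((D : ℝ) - G.deg v) / D := div_nonneg (by linarith) hD0.le
  -- the case of an empty loss
  by_cases hb : Sm dt Q v ∧ f ∉ dt.FF v
  · have htau : tau dt Q w f = al D Q := by
      unfold tau
      rw [if_pos hb]
    rw [htau, sub_self]
    positivity
  have htau : tau dt Q w f = kap dt Q v := by
    unfold tau
    rw [if_neg hb]
  rw [htau]
  -- the sum of indicator functions
  have hsum : ∑ f' ∈ G.inc v, ((if G.opp v f' ∈ (P0 G Q).erase x then ω else 0) +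
      (if G.opp v f' ∈ (S0 G D (G.deg x)).erase x then B else 0) +
      (if G.opp v f' = x then C else 0)) ≤
      ω * G.degTo v ((P0 G Q).erase x) + (B * G.degTo v ((S0 G D (G.deg x)).erase x) +
        C * G.mult x v) := by
    rw [Finset.sum_add_distrib, Finset.sum_add_distrib, EC.Lossx.sum_ind, EC.Lossx.sum_ind,
      EC.Lossx.sum_ind]
    have h1 : ((G.inc v).filter fun f' => G.opp v f' = x).card ≤ G.mult x v := by
      unfold MGraph.mult
      apply Finset.card_le_card
      intro f' hf'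
      obtain ⟨h2, h3⟩ := Finset.mem_filter.1 hf'
      rw [Finset.mem_filter]
      refine ⟨Finset.mem_univ _, ?_⟩
      rw [EC.Lossx.ends_opp G ((EC.Lossx.mem_inc G).1 h2), h3, Sym2.eq_swap]
    have h2 : (((G.inc v).filter fun f' => G.opp v f' = x).card : ℝ) ≤ G.mult x v := by
      exact_mod_cast h1
    have h3 := mul_le_mul_of_nonneg_left h2 hC0
    unfold MGraph.degTo
    linarith
  -- nonnegativity of the indicators
  have i1 : ∀ p : V, (0:ℝ) ≤ if p ∈ (P0 G Q).erase x then ω else 0 := fun p => by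
    split_ifs <;> simp [hom]
  have i2 : ∀ p : V, (0:ℝ) ≤ if p ∈ (S0 G D (G.deg x)).erase x then B else 0 := fun p => by
    split_ifs <;> simp [hB0]
  have i3 : ∀ p : V, (0:ℝ) ≤ if p = x then C else 0 := fun p => by
    split_ifs <;> simp [hC0]
  -- the payment to a rich vertex
  have payrich : ∀ p : V, ¬ (G.deg p : ℝ) < Q → pay G D Q v p = 0 := by
    intro p hp
    unfold pay
    rw [if_neg fun h => hp h.2]
  -- the payment to a medium vertex
  have paymed : ∀ p : V, (D : ℝ) + 1 ≤ G.deg p + Q → (G.deg p : ℝ) < Q →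
      pay G D Q v p / D ≤ (if p ∈ (P0 G Q).erase x then ω else 0) +
        (if p ∈ (S0 G D (G.deg x)).erase x then B else 0) + (if p = x then C else 0) := by
    intro p hp1 hp2
    obtain ⟨-, h1⟩ := hPay V E G D μ dt Q hT v p
    obtain ⟨-, h2, h3⟩ := h1 hp1 hp2
    have hpx : p ≠ x := by
      rintro rfl
      linarith
    have hpP : p ∈ (P0 G Q).erase x := by
      rw [Finset.mem_erase]
      exact ⟨hpx, Finset.mem_filter.2 ⟨Finset.mem_univ _, hp2⟩⟩
    rw [if_pos hpP, if_neg hpx, add_zero]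
    by_cases hpS : p ∈ (S0 G D (G.deg x)).erase x
    · rw [if_pos hpS]
      have h4 : pay G D Q v p / D ≤ gg Q ((D : ℝ) + 1 - Q) / D :=
        div_le_div_of_nonneg_right (h2.trans h3) hD0.le
      have h5 := medium_le hT hs1 hsx
      rw [← hC] at h5
      linarith
    · rw [if_neg hpS, add_zero]
      have h4 : D + 1 ≤ G.deg x + 2 * G.deg p + 2 := by
        by_contra hcon
        apply hpS
        rw [Finset.mem_erase]
        exact ⟨hpx, Finset.mem_filter.2 ⟨Finset.mem_univ _, by omega⟩⟩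
      have h5 := hOM.medium (G.deg p) (hdp p) h4 hp1 hp2
      rw [div_le_iff₀ hD0]
      linarith
  by_cases hSv : Sm dt Q v
  · -- `f ∈ FF v`
    have hfv : f ∈ dt.FF v := by
      by_contra hcon
      exact hb ⟨hSv, hcon⟩
    obtain ⟨-, bc2, -⟩ := hAc V E G D μ dt Q hT v hRv hSv
    have hkap : kap dt Q v = max 0 (spare dt Q v) / ((D : ℝ) - G.deg (dt.xx v) + 1) := by
      unfold kap
      rw [if_pos hSv]
    rw [hkap]
    have hSv' : (G.deg (dt.xx v) : ℝ) + Q < D + 1 := hSv
    obtain ⟨n, hn⟩ : ∃ n : ℝ, n = (D : ℝ) - G.deg (dt.xx v) + 1 := ⟨_, rfl⟩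
    have hn0 : 0 < n := by rw [hn]; linarith
    rw [← hn]
    have hstep1 : al D Q - max 0 (spare dt Q v) / n ≤ al D Q - spare dt Q v / n := by
      have : spare dt Q v / n ≤ max 0 (spare dt Q v) / n :=
        div_le_div_of_nonneg_right (le_max_right _ _) hn0.le
      linarith
    refine hstep1.trans ?_
    have hspare : spare dt Q v = (G.deg v : ℝ) - Q - QQ G D Q v - al D Q * jj dt Q v := by
      unfold spare
      rw [if_pos hSv]
    have hsum2 : (G.deg (dt.xx v) : ℝ) - 1 = mm dt Q v + jj dt Q v + ((D : ℝ) - G.deg v) := by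
      have h1 : ((mm dt Q v + jj dt Q v + (D - G.deg v) + 1 : ℕ) : ℝ) = G.deg (dt.xx v) := by
        exact_mod_cast bc2
      push_cast [dt.deg_le v] at h1
      linarith
    have hnum : al D Q - spare dt Q v / n =
        (QQ G D Q v - al D Q * mm dt Q v) / n + ((D : ℝ) - G.deg v) * (1 - al D Q) / n := by
      rw [hspare, ← add_div]
      have e1 : al D Q = al D Q * n / n := by field_simp
      have e2 : al D Q * n = ((D : ℝ) - Q) -
          al D Q * (mm dt Q v + jj dt Q v + ((D : ℝ) - G.deg v)) := by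
        rw [hn, ← hsum2, ← halD]
        ring
      calc al D Q - ((G.deg v : ℝ) - Q - QQ G D Q v - al D Q * jj dt Q v) / n =
          al D Q * n / n - ((G.deg v : ℝ) - Q - QQ G D Q v - al D Q * jj dt Q v) / n := by
            rw [← e1]
        _ = (al D Q * n - ((G.deg v : ℝ) - Q - QQ G D Q v - al D Q * jj dt Q v)) / n :=
            (sub_div _ _ _).symm
        _ = _ := by
            rw [e2]
            ring
    rw [hnum]
    have hfrac : (1 - al D Q) / n ≤ 1 / D := by
      rw [div_le_div_iff₀ hn0 hD0, sub_mul, halD, hn]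
      linarith
    have hlast : ((D : ℝ) - G.deg v) * (1 - al D Q) / n ≤ ((D : ℝ) - G.deg v) / D := by
      have h1 : 0 ≤ (D : ℝ) - G.deg v := by linarith
      calc ((D : ℝ) - G.deg v) * (1 - al D Q) / n =
          ((D : ℝ) - G.deg v) * ((1 - al D Q) / n) := by ring
        _ ≤ ((D : ℝ) - G.deg v) * (1 / D) := mul_le_mul_of_nonneg_left hfrac h1
        _ = _ := by ring
    have hmain : (QQ G D Q v - al D Q * mm dt Q v) / n ≤
        ∑ f' ∈ G.inc v, ((if G.opp v f' ∈ (P0 G Q).erase x then ω else 0) +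
      (if G.opp v f' ∈ (S0 G D (G.deg x)).erase x then B else 0) +
      (if G.opp v f' = x then C else 0)) := by
      have e1 : (QQ G D Q v - al D Q * mm dt Q v) / n = ∑ f' ∈ G.inc v,
          (pay G D Q v (G.opp v f') -
            if (G.deg (G.opp v f') : ℝ) < Q then al D Q else 0) / n := by
        rw [← Finset.sum_div, Finset.sum_sub_distrib, EC.Lossx.sum_ind]
        rfl
      rw [e1]
      refine Finset.sum_le_sum fun f' hf' => ?_
      obtain ⟨p, hp⟩ : ∃ p, p = G.opp v f' := ⟨_, rfl⟩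
      rw [← hp]
      have hmin : G.deg (dt.xx v) ≤ G.deg p := hp ▸ dt.min_deg v f' hf'
      have hmin' : (G.deg (dt.xx v) : ℝ) ≤ G.deg p := by exact_mod_cast hmin
      have hpD : (G.deg p : ℝ) ≤ D := by exact_mod_cast dt.deg_le p
      by_cases hpoor : (G.deg p : ℝ) < Q
      swap
      · rw [payrich p hpoor, if_neg hpoor, sub_zero, zero_div]
        have := i1 p
        have := i2 p
        have := i3 p
        linarith
      rw [if_pos hpoor]
      by_cases hsm : (G.deg p : ℝ) + Q < D + 1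
      · -- small
        have hpay : pay G D Q v p = gg Q (G.deg p) := by
          unfold pay gg
          rw [if_pos ⟨hRv, hpoor⟩, if_pos hsm]
        rw [hpay]
        have hnk : (D : ℝ) - G.deg p + 1 ≤ n := by rw [hn]; linarith
        by_cases hpx : p = x
        · rw [if_pos hpx]
          have h1 : (gg Q (G.deg p) - al D Q) / n ≤ C := by
            refine small_le hpD hnk hC0 ?_
            rw [hC, ← hpx]
            exact ph_le hT (hdp' p) hpD
          have := i1 p
          have := i2 p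
          linarith
        · have hpP : p ∈ (P0 G Q).erase x := by
            rw [Finset.mem_erase]
            exact ⟨hpx, Finset.mem_filter.2 ⟨Finset.mem_univ _, hpoor⟩⟩
          rw [if_pos hpP, if_neg hpx, add_zero]
          by_cases hpS : p ∈ (S0 G D (G.deg x)).erase x
          · rw [if_pos hpS]
            refine small_le hpD hnk (by linarith) ?_
            exact (ph_le hT (hdp' p) hpD).trans (hBk _ hmin')
          · rw [if_neg hpS, add_zero]
            have h4 : D + 1 ≤ G.deg x + 2 * G.deg p + 2 := by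
              by_contra hcon
              apply hpS
              rw [Finset.mem_erase]
              exact ⟨hpx, Finset.mem_filter.2 ⟨Finset.mem_univ _, by omega⟩⟩
            exact small_le hpD hnk hom (hOM.small (G.deg p) (hdp p) h4 hsm)
      · -- medium
        have hsm' : (D : ℝ) + 1 ≤ G.deg p + Q := not_lt.1 hsm
        refine le_trans ?_ (paymed p hsm' hpoor)
        obtain ⟨h0, h1⟩ := hPay V E G D μ dt Q hT v p
        obtain ⟨-, h2, h3⟩ := h1 hsm' hpoor
        have h4 : pay G D Q v p ≤ 1 := (h2.trans h3).trans (gg_le_one hT)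
        rw [div_le_div_iff₀ hn0 hD0, sub_mul, halD]
        have h5 : ((G.deg (dt.xx v) : ℝ) - 1) * pay G D Q v p ≤ (D : ℝ) - Q := by
          calc ((G.deg (dt.xx v) : ℝ) - 1) * pay G D Q v p ≤
              ((G.deg (dt.xx v) : ℝ) - 1) * 1 := mul_le_mul_of_nonneg_left h4 (by linarith)
            _ ≤ (D : ℝ) - Q := by linarith
        have h6 : pay G D Q v p * n = pay G D Q v p * D -
            ((G.deg (dt.xx v) : ℝ) - 1) * pay G D Q v p := by
          rw [hn]
          ring
        rw [h6]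
        linarith
    linarith
  · -- `v` has no small neighbour
    have hkap : kap dt Q v = spare dt Q v / D := by
      unfold kap
      rw [if_neg hSv]
    have hspare : spare dt Q v = (G.deg v : ℝ) - Q - QQ G D Q v := by
      unfold spare
      rw [if_neg hSv, sub_zero]
    have hnum : al D Q - kap dt Q v = QQ G D Q v / D + ((D : ℝ) - G.deg v) / D := by
      rw [hkap, hspare]
      unfold al
      field_simp
      ring
    rw [hnum]
    have hSv' : (D : ℝ) + 1 ≤ G.deg (dt.xx v) + Q := not_lt.1 hSv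
    have hQ : QQ G D Q v / D ≤ ∑ f' ∈ G.inc v,
      ((if G.opp v f' ∈ (P0 G Q).erase x then ω else 0) +
      (if G.opp v f' ∈ (S0 G D (G.deg x)).erase x then B else 0) +
      (if G.opp v f' = x then C else 0)) := by
      unfold QQ
      rw [Finset.sum_div]
      refine Finset.sum_le_sum fun f' hf' => ?_
      obtain ⟨p, hp⟩ : ∃ p, p = G.opp v f' := ⟨_, rfl⟩
      rw [← hp]
      have hmin : G.deg (dt.xx v) ≤ G.deg p := hp ▸ dt.min_deg v f' hf'
      have hmin' : (G.deg (dt.xx v) : ℝ) ≤ G.deg p := by exact_mod_cast hmin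
      by_cases hpoor : (G.deg p : ℝ) < Q
      · exact paymed p (by linarith) hpoor
      · rw [payrich p hpoor, zero_div]
        have := i1 p
        have := i2 p
        have := i3 p
        linarith
    linarith

end Pool.Agent.Helper82.EC2
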