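import Pool.Agent.Helper82.EC2.St

/-!
# EC2 module Mp2: a rich vertex without small neighbours can pay
-/

set_option autoImplicit false

open Finset
open scoped Classical

namespace Pool.Agent.Helper82.EC2

open EC EC.MGraph

namespace Mp2Mod

variable {V E : Type} [Fintype V] [Fintype E] {G : MGraph V E} {D μ : ℕ}

omit [Fintype V] in
theorem mem_inc {v : V} {f : E} : f ∈ G.inc v ↔ v ∈ G.ends f := by
  simp [MGraph.inc]

theorem ends_opp {p : V} {f : E} (hf : f ∈ G.inc p) : G.ends f = s(G.opp p f, p) := by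
  have h : p ∈ G.ends f := mem_inc.1 hf
  rw [MGraph.opp, dif_pos h, Sym2.eq_swap]
  exact (Sym2.other_spec h).symm

theorem opp_swap {u x : V} {f : E} (hf : f ∈ G.inc u) (h : G.opp u f = x) :
    f ∈ G.inc x ∧ G.opp x f = u := by
  have h1 := ends_opp hf
  rw [h] at h1
  have h2 : f ∈ G.inc x := by
    rw [mem_inc, h1]
    exact Sym2.mem_mk_left _ _
  refine ⟨h2, ?_⟩
  have h3 := ends_opp h2
  rw [h1, Sym2.eq_iff] at h3
  rcases h3 with ⟨h4, h5⟩ | ⟨_, h5⟩
  · rw [← h4, h5]
  · exact h5.symm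

theorem ee_mem (dt : Data G D μ) (p : V) : dt.ee p ∈ G.inc p := by
  rw [mem_inc, dt.ends_eq p]
  exact Sym2.mem_mk_right _ _

/-- all payments of `u` to a medium vertex `x` are bounded by the total need of `x` -/
theorem pay_to (hPay : StPay) (hRec : StRec2) (dt : Data G D μ) {Q : ℝ} (hQ : Thr D Q) (u x : V)
    (hx : (G.deg x : ℝ) < Q) (S : Finset E) (hS : ∀ f ∈ S, f ∈ G.inc u ∧ G.opp u f = x) :
    ∑ f ∈ S, pay G D Q u (G.opp u f) ≤ Q - G.deg x := by
  rw [← hRec V E G D μ dt Q hQ x hx]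
  have hsub : S ⊆ G.inc x := fun f hf => (opp_swap (hS f hf).1 (hS f hf).2).1
  calc ∑ f ∈ S, pay G D Q u (G.opp u f) = ∑ f ∈ S, pay G D Q (G.opp x f) x := by
        refine sum_congr rfl fun f hf => ?_
        rw [(hS f hf).2, (opp_swap (hS f hf).1 (hS f hf).2).2]
    _ ≤ ∑ f ∈ G.inc x, pay G D Q (G.opp x f) x :=
        sum_le_sum_of_subset_of_nonneg hsub fun f _ _ =>
          (hPay V E G D μ dt Q hQ (G.opp x f) x).1

omit [Fintype V] in
theorem pay_rich {Q : ℝ} (u p : V) (hp : Q ≤ G.deg p) : pay G D Q u p = 0 := by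
  rw [pay, if_neg]
  rintro ⟨_, h⟩
  linarith

omit [Fintype V] [Fintype E] in
theorem split3 (P : Finset E) (g : E → V) (F : E → ℝ) (x z : V) (hzx : z ≠ x) :
    ∑ f ∈ P, F f = ∑ f ∈ P.filter (fun f => g f = x), F f +
      ∑ f ∈ P.filter (fun f => g f = z), F f +
        ∑ f ∈ P.filter (fun f => g f ≠ x ∧ g f ≠ z), F f := by
  rw [sum_filter, sum_filter, sum_filter, ← sum_add_distrib, ← sum_add_distrib]
  refine sum_congr rfl fun f _ => ?_
  by_cases c1 : g f = x
  · have c2 : ¬ x = z := fun h => hzx h.symm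
    simp [c1, c2]
  · by_cases c2 : g f = z
    · simp [c2, hzx]
    · simp [c1, c2]

theorem main (hPay : StPay) (hRec : StRec2) (dt : Data G D μ) {Q : ℝ} (hQ : Thr D Q) (u : V)
    (hu : Q ≤ G.deg u) (hS : ¬ Sm dt Q u) : QQ G D Q u ≤ (G.deg u : ℝ) - Q := by
  have hS' : (D : ℝ) + 1 ≤ G.deg (dt.xx u) + Q := not_lt.1 hS
  have hmin : ∀ f ∈ G.inc u, (G.deg (dt.xx u) : ℝ) ≤ G.deg (G.opp u f) := fun f hf => by
    exact_mod_cast dt.min_deg u f hf
  by_cases hxr : Q ≤ G.deg (dt.xx u)
  · have : QQ G D Q u = 0 := by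
      rw [QQ]
      exact sum_eq_zero fun f hf => pay_rich u _ (hxr.trans (hmin f hf))
    rw [this]
    linarith
  rw [not_le] at hxr
  set x := dt.xx u with hxdef
  have hfan := dt.fan u
  rw [← hxdef] at hfan
  have hdu : (G.deg u : ℝ) ≤ D := by exact_mod_cast dt.deg_le u
  have hcard : ((dt.FF u).card : ℝ) + G.deg x = D + 1 := by exact_mod_cast hfan.card_eq
  have hlo := hQ.lo
  have hhi := hQ.hi
  -- bound for a single payment
  have hone : ∀ f ∈ G.inc u, (G.deg (G.opp u f) : ℝ) < Q → pay G D Q u (G.opp u f) ≤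
      ((G.deg u : ℝ) - Q) / ((G.deg u : ℝ) + G.deg (G.opp u f) - D - 1) := by
    intro f hf hp
    have h1 := ((hPay V E G D μ dt Q hQ u (G.opp u f)).2 (by linarith [hmin f hf]) hp).1
    rwa [hh, if_pos hu] at h1
  -- sum over the poor edges
  have hQQ : QQ G D Q u = ∑ f ∈ (G.inc u).filter (fun f => (G.deg (G.opp u f) : ℝ) < Q),
      pay G D Q u (G.opp u f) := by
    rw [QQ, sum_filter]
    refine sum_congr rfl fun f _ => ?_
    split_ifs with h
    · rfl
    · exact pay_rich u _ (not_lt.1 h)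
  set P : Finset E := (G.inc u).filter (fun f => (G.deg (G.opp u f) : ℝ) < Q) with hP
  have hsumR : ∑ v ∈ (dt.FF u).image (G.opp u), ((D : ℝ) - G.deg v) + D + 2 ≤
      G.deg x + G.deg u := by
    have h1 := hfan.sum_le
    have h2 : ((∑ v ∈ (dt.FF u).image (G.opp u), (D - G.deg v) + D + 2 : ℕ) : ℝ) ≤
        ((G.deg x + G.deg u : ℕ) : ℝ) := by exact_mod_cast h1
    push_cast at h2
    have h3 : ∑ v ∈ (dt.FF u).image (G.opp u), ((D - G.deg v : ℕ) : ℝ) =
        ∑ v ∈ (dt.FF u).image (G.opp u), ((D : ℝ) - G.deg v) := by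
      refine Finset.sum_congr rfl fun v _ => ?_
      rw [Nat.cast_sub (dt.deg_le v)]
    rwa [h3] at h2
  have hnn : ∀ v : V, 0 ≤ (D : ℝ) - G.deg v := fun v => by
    have : (G.deg v : ℝ) ≤ D := by exact_mod_cast dt.deg_le v
    linarith
  by_cases hN : ∀ f ∈ dt.FF u, Q ≤ G.deg (G.opp u f)
  · -- no poor vertex in the fan
    have h1 : P ⊆ G.inc u \ dt.FF u := by
      intro f hf
      rw [hP, mem_filter] at hf
      rw [mem_sdiff]
      refine ⟨hf.1, fun h => ?_⟩
      have := hN f h
      linarith [hf.2]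
    have h2 : (P.card : ℝ) ≤ (G.deg x : ℝ) - 1 - (D - G.deg u) := by
      have h3 := Finset.card_le_card h1
      have h4 := Finset.card_sdiff_add_card_eq_card hfan.sub
      have h5 : ((G.inc u \ dt.FF u).card : ℝ) + (dt.FF u).card = G.deg u := by
        exact_mod_cast h4
      have h6 : (P.card : ℝ) ≤ (G.inc u \ dt.FF u).card := by exact_mod_cast h3
      linarith
    rw [hQQ]
    rcases eq_or_lt_of_le (show 0 ≤ (G.deg u : ℝ) - Q by linarith) with h0 | h0
    · rw [← h0]
      refine sum_nonpos fun f hf => ?_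
      rw [hP, mem_filter] at hf
      have := hone f hf.1 hf.2
      rwa [← h0, zero_div] at this
    · have hbt : 0 < (G.deg u : ℝ) + G.deg x - D - 1 := by linarith
      calc ∑ f ∈ P, pay G D Q u (G.opp u f)
          ≤ ∑ f ∈ P, ((G.deg u : ℝ) - Q) / ((G.deg u : ℝ) + G.deg x - D - 1) := by
            refine sum_le_sum fun f hf => ?_
            rw [hP, mem_filter] at hf
            refine (hone f hf.1 hf.2).trans ?_
            exact div_le_div_of_nonneg_left h0.le hbt (by linarith [hmin f hf.1])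
        _ = P.card * (((G.deg u : ℝ) - Q) / ((G.deg u : ℝ) + G.deg x - D - 1)) := by
            rw [sum_const, nsmul_eq_mul]
        _ ≤ ((G.deg u : ℝ) + G.deg x - D - 1) *
            (((G.deg u : ℝ) - Q) / ((G.deg u : ℝ) + G.deg x - D - 1)) := by
            refine mul_le_mul_of_nonneg_right (by linarith) (div_nonneg h0.le hbt.le)
        _ = (G.deg u : ℝ) - Q := by field_simp
  · -- a poor vertex in the fan
    simp only [not_forall, not_le] at hN
    obtain ⟨g, hg, hgr⟩ := hN
    set z := G.opp u g with hz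
    have hzN : z ∈ (dt.FF u).image (G.opp u) := mem_image_of_mem _ hg
    obtain ⟨F2, hF2s, hF2c, hF2d, heF2, hF2⟩ := hfan.two z hzN
    have hzx : z ≠ x := hfan.opp_ne g hg
    have hF2c' : (F2.card : ℝ) + G.deg z = D := by exact_mod_cast hF2c
    have honly : ∀ f ∈ dt.FF u, (G.deg (G.opp u f) : ℝ) < Q → G.opp u f = z := by
      intro f hf hfr
      by_contra hne
      have hfN : G.opp u f ∈ (dt.FF u).image (G.opp u) := mem_image_of_mem _ hf
      have h1 : ((D : ℝ) - G.deg (G.opp u f)) + ((D : ℝ) - G.deg z) ≤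
          ∑ v ∈ (dt.FF u).image (G.opp u), ((D : ℝ) - G.deg v) := by
        rw [← Finset.sum_pair (f := fun v => (D : ℝ) - G.deg v) hne]
        refine Finset.sum_le_sum_of_subset_of_nonneg ?_ fun v _ _ => hnn v
        intro v hv
        rcases mem_insert.1 hv with h | h
        · rw [h]; exact hfN
        · rw [mem_singleton.1 h]; exact hzN
      linarith
    -- decomposition of the poor edges
    set P1 := P.filter (fun f => G.opp u f = x) with hP1
    set P2 := P.filter (fun f => G.opp u f = z) with hP2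
    set P3 := P.filter (fun f => G.opp u f ≠ x ∧ G.opp u f ≠ z) with hP3
    have hsplit : ∑ f ∈ P, pay G D Q u (G.opp u f) =
        ∑ f ∈ P1, pay G D Q u (G.opp u f) + ∑ f ∈ P2, pay G D Q u (G.opp u f) +
          ∑ f ∈ P3, pay G D Q u (G.opp u f) := split3 P (G.opp u) _ x z hzx
    have h1 : ∑ f ∈ P1, pay G D Q u (G.opp u f) ≤ Q - G.deg x := by
      refine pay_to hPay hRec dt hQ u x hxr P1 fun f hf => ?_
      rw [hP1, mem_filter, hP, mem_filter] at hf
      exact ⟨hf.1.1, hf.2⟩
    have h2 : ∑ f ∈ P2, pay G D Q u (G.opp u f) ≤ Q - G.deg z := by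
      refine pay_to hPay hRec dt hQ u z hgr P2 fun f hf => ?_
      rw [hP2, mem_filter, hP, mem_filter] at hf
      exact ⟨hf.1.1, hf.2⟩
    have h3 : ∑ f ∈ P3, pay G D Q u (G.opp u f) ≤ P3.card := by
      have : ∑ f ∈ P3, pay G D Q u (G.opp u f) ≤ ∑ f ∈ P3, (1 : ℝ) := by
        refine sum_le_sum fun f hf => ?_
        rw [hP3, mem_filter, hP, mem_filter] at hf
        refine (hone f hf.1.1 hf.1.2).trans ?_
        have hm := hmin f hf.1.1
        exact div_le_one_of_le₀ (by linarith) (by linarith)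
      rwa [sum_const, nsmul_eq_mul, mul_one] at this
    have h4 : (P3.card : ℝ) + 1 + F2.card + (dt.FF u).card ≤ G.deg u := by
      have hsub : P3 ⊆ ((G.inc u \ dt.FF u) \ F2).erase (dt.ee u) := by
        intro f hf
        rw [hP3, mem_filter, hP, mem_filter] at hf
        obtain ⟨⟨hf1, hf2⟩, hf3, hf4⟩ := hf
        rw [mem_erase, mem_sdiff, mem_sdiff]
        refine ⟨?_, ⟨hf1, ?_⟩, ?_⟩
        · rintro rfl
          apply hf3
          have h5 := ends_opp hf1
          rw [dt.ends_eq u, Sym2.eq_iff] at h5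
          rcases h5 with ⟨h6, _⟩ | ⟨h6, h7⟩
          · exact h6.symm
          · rw [← h7, ← h6]
        · intro h
          exact hf4 (honly f h hf2)
        · intro h
          have h5 := hF2 f h hf3 hf4
          have h6 : ((D - G.deg (G.opp u f) + (D - G.deg z) + D + 2 : ℕ) : ℝ) ≤
              ((G.deg x + G.deg u : ℕ) : ℝ) := by exact_mod_cast h5
          push_cast at h6
          rw [Nat.cast_sub (dt.deg_le _), Nat.cast_sub (dt.deg_le _)] at h6
          linarith
      have h5 := Finset.card_le_card hsub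
      have heF : dt.ee u ∈ (G.inc u \ dt.FF u) \ F2 := by
        rw [mem_sdiff, mem_sdiff]
        exact ⟨⟨ee_mem dt u, hfan.not_mem⟩, heF2⟩
      have h6 := Finset.card_erase_add_one heF
      have hs2 : F2 ⊆ G.inc u \ dt.FF u := by
        intro f hf
        rw [mem_sdiff]
        exact ⟨hF2s hf, fun h => (Finset.disjoint_left.1 hF2d) h hf⟩
      have h7 := Finset.card_sdiff_add_card_eq_card hs2
      have h8 := Finset.card_sdiff_add_card_eq_card hfan.sub
      have h9 : (G.inc u).card = G.deg u := rfl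
      have h10 : P3.card + 1 + F2.card + (dt.FF u).card ≤ G.deg u := by omega
      exact_mod_cast h10
    rw [hQQ, hsplit]
    linarith

end Mp2Mod

theorem stMp2 (_hShare : StShare) (hPay : StPay) (hRec : StRec2) : StMp2 := by
  intro V E _ _ G D μ dt Q hQ u hu hS
  exact Mp2Mod.main hPay hRec dt hQ u hu hS

end Pool.Agent.Helper82.EC2
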