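import Pool.Agent.Helper82.EC2.StN

/-!
# MP_47b98d_co, second generation: the numerical condition for all multiplicities
-/

set_option autoImplicit false

open Finset
open scoped Classical

namespace Pool.Agent.Helper82.EC2

theorem qA_pos {D μ : ℕ} (hD : 2 ≤ D) : 0 < qA D μ := by
  have : (2 : ℝ) ≤ D := by exact_mod_cast hD
  unfold qA
  positivity

theorem qA_le {D μ : ℕ} (hD : 2 ≤ D) (hμ : 1 ≤ μ) : qA D μ ≤ D := by
  have h2 : (2 : ℝ) ≤ D := by exact_mod_cast hD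
  have h1 : (1 : ℝ) ≤ μ := by exact_mod_cast hμ
  unfold qA
  rw [div_le_iff₀ (by positivity)]
  nlinarith

theorem stNA (hFRA : StFRA) (hLA : StLA) (hOA : StOA) (h1 : StR1A) (h2 : StR2A) (h3 : StR3A) :
    StNA := by
  intro D μ s hD hμ hμD hs hsQ m j t hm hm1 hE
  obtain ⟨hOM, hC⟩ := hOA D μ s m j t hD hμ hμD hs hsQ hm hm1 hE
  refine ⟨WA D μ / ((D : ℝ) + 1 - s), hOM, hC, ?_⟩
  intro w hw hwμ hwm y hy0 hyn hyr hys
  obtain ⟨hA, hμn, hT⟩ := hLA D μ s m j t w hD hμ hμD hs hsQ hm hm1 hE hw hwμ hwm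
  have hDR : (2 : ℝ) ≤ D := by exact_mod_cast hD
  have hD0 : (0 : ℝ) < D := by linarith
  have hμR : (1 : ℝ) ≤ μ := by exact_mod_cast hμ
  have hsR : (1 : ℝ) ≤ s := by exact_mod_cast hs
  have hs0 : (0 : ℝ) < s := by linarith
  have hmR : (m : ℝ) + j + t + 1 = s := by exact_mod_cast hm
  have hQ := qA_pos (D := D) (μ := μ) hD
  have hQD := qA_le (D := D) (μ := μ) hD hμ
  have hj0 : (0 : ℝ) ≤ j := Nat.cast_nonneg j
  have ht0 : (0 : ℝ) ≤ t := Nat.cast_nonneg t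
  have hsD : (s : ℝ) ≤ D := by linarith
  have hν1 : (μ : ℝ) / D ≤ 1 := by
    rw [div_le_one hD0]; exact_mod_cast hμD
  have hW : 0 ≤ WA D μ := by
    unfold WA
    have : 0 ≤ qA D μ / D := by positivity
    have h5 : 0 ≤ 5 / (D : ℝ) := by positivity
    nlinarith
  set T := T0 D μ (qA D μ) s m j t w (WA D μ) with hTdef
  have eY : ∀ z : ℝ, z * (qA D μ / D) * (j + t - 1) / s =
      z / D * (qA D μ / s) * ((j : ℝ) + t - 1) := by
    intro z
    field_simp
  have key := hFRA D μ (qA D μ) s m j t w (WA D μ) hD hQ hQD hμR hsR hsD hμn hmR hj0 ht0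
    (by exact_mod_cast hw) (by exact_mod_cast hwm) hW hC
    (hT.trans (h1 _ _ _ _ _ _ _ _ _ hA)) ?_ ?_ y hy0 hyn hyr (fun h => by
      have := hys h
      exact_mod_cast this)
  · exact key
  · intro z hz0 hzn hzr hzs
    have hjt : (2 : ℝ) ≤ j + t := by linarith
    have hz1 : z / D ≤ 1 - (μ : ℝ) / D - ((s : ℝ) - 1) / D := by
      rw [div_le_iff₀ hD0]
      have : (1 - (μ : ℝ) / D - ((s : ℝ) - 1) / D) * D = (D : ℝ) + 1 - s - μ := by
        field_simp
        ring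
      rw [this]; exact hzn
    have hz2 : z / D * ((s : ℝ) + 1 - j - t) ≤ (μ : ℝ) / D * (j - 1 + w) := by
      have e1 : (s : ℝ) + 1 - j - t = m + 2 := by linarith
      rw [e1, div_mul_eq_mul_div, div_mul_eq_mul_div]
      exact div_le_div_of_nonneg_right hzr hD0.le
    have := h2 _ _ _ _ _ _ _ _ _ (z / D) hA hjt (by positivity) hz1 hz2
    rw [eY z]
    linarith
  · intro z hz0 hzn hzr hzs
    have hjt : (2 : ℝ) ≤ j + t := by linarith
    have e0 : (1 - (μ : ℝ) / D - ((s : ℝ) - 1) / D) = ((D : ℝ) + 1 - s - μ) / D := by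
      field_simp
      ring
    have hz1 : 1 - (μ : ℝ) / D - ((s : ℝ) - 1) / D ≤ z / D := by
      rw [e0]
      exact div_le_div_of_nonneg_right hz0.le hD0.le
    have hz3 : z / D ≤ 1 - ((s : ℝ) - 1) / D := by
      rw [div_le_iff₀ hD0]
      have : (1 - ((s : ℝ) - 1) / D) * D = (D : ℝ) + 1 - s := by
        field_simp
        ring
      rw [this]; exact hzn
    have hz2 : z / D * ((s : ℝ) + 1 - j - t) ≤ (μ : ℝ) / D * (j - 1 + w) := by
      have e1 : (s : ℝ) + 1 - j - t = m + 2 := by linarith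
      rw [e1, div_mul_eq_mul_div, div_mul_eq_mul_div]
      exact div_le_div_of_nonneg_right hzr hD0.le
    have := h3 _ _ _ _ _ _ _ _ _ (z / D) hA hjt hz1 hz3 hz2
    rw [eY ((D : ℝ) + 1 - s - μ)]
    rw [e0] at this
    have e2 : (z - ((D : ℝ) + 1 - s - μ)) * dl D (qA D μ) * ((s : ℝ) - w) =
        2 * (1 - qA D μ / D) * (z / D - ((D : ℝ) + 1 - s - μ) / D) * (s - w) := by
      unfold dl
      field_simp
    rw [e2]
    linarith

/-- the common part of the two exact cases -/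
theorem good_exact (hFRA : StFRA) (hLE : StLE) (hOE : StOE) (hV : StVE) {D μ s : ℕ} (hD : 2 ≤ D)
    (hμ : 1 ≤ μ) (hs : 1 ≤ s) (hsD : 3 * s ≤ D) (hc : 9 * μ ≤ 4 * s ∨ s * (μ + 2) ≤ D)
    (h1 : ∀ q ν u j t w : ℝ, HE D q ν u s j t w → ν * D = μ → XE D q ν u s j t w ≤ 0)
    (h2 : ∀ q ν u j t w y : ℝ, HE D q ν u s j t w → ν * D = μ → 2 ≤ j + t → 0 ≤ y →
      y * (s + 1 - j - t) ≤ ν * (j - 1 + w) → XE D q ν u s j t w + y * u * (j + t - 1) ≤ 0) :
    Good D μ (qE D) s := by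
  intro m j t hm hm1 hE
  obtain ⟨hOM, hC⟩ := hOE D s m j t hD hs hsD hm hm1 hE
  refine ⟨WE D / ((D : ℝ) + 1 - s), hOM, hC, ?_⟩
  intro w hw hwμ hwm y hy0 hyn hyr hys
  obtain ⟨hA, hμn, hT⟩ := hLE D μ s m j t w hD hμ hs hsD hc hm hm1 hE hw hwμ hwm
  have hDR : (2 : ℝ) ≤ D := by exact_mod_cast hD
  have hD0 : (0 : ℝ) < D := by linarith
  have hμR : (1 : ℝ) ≤ μ := by exact_mod_cast hμ
  have hsR : (1 : ℝ) ≤ s := by exact_mod_cast hs
  have hs0 : (0 : ℝ) < s := by linarith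
  have hmR : (m : ℝ) + j + t + 1 = s := by exact_mod_cast hm
  have hQ : 0 < qE D := by unfold qE; positivity
  have hQD : qE D ≤ D := by unfold qE; linarith
  have hj0 : (0 : ℝ) ≤ j := Nat.cast_nonneg j
  have ht0 : (0 : ℝ) ≤ t := Nat.cast_nonneg t
  have hsD' : 3 * (s : ℝ) ≤ D := by exact_mod_cast hsD
  have hνD : (μ : ℝ) / D * D = μ := by field_simp
  have hW : 0 ≤ WE D := by unfold WE; positivity
  have eY : ∀ z : ℝ, z * (qE D / D) * (j + t - 1) / s =
      z / D * (qE D / s) * ((j : ℝ) + t - 1) := by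
    intro z
    field_simp
  have hVE := hV D (qE D / D) ((μ : ℝ) / D) (qE D / s) s j t w hA (by
    rw [hνD]
    rcases hc with h | h
    · left; exact_mod_cast h
    · right; exact_mod_cast h)
  have e0 : (1 - (μ : ℝ) / D - ((s : ℝ) - 1) / D) = ((D : ℝ) + 1 - s - μ) / D := by
    field_simp
    ring
  have e1 : (s : ℝ) + 1 - j - t = m + 2 := by linarith
  have key := hFRA D μ (qE D) s m j t w (WE D) hD hQ hQD hμR hsR (by linarith) hμn hmR hj0 ht0
    (by exact_mod_cast hw) (by exact_mod_cast hwm) hW hC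
    (hT.trans (h1 _ _ _ _ _ _ hA hνD)) ?_ ?_ y hy0 hyn hyr (fun h => by
      have := hys h
      exact_mod_cast this)
  · exact key
  · intro z hz0 hzn hzr hzs
    have hjt : (2 : ℝ) ≤ j + t := by linarith
    have hz2 : z / D * ((s : ℝ) + 1 - j - t) ≤ (μ : ℝ) / D * (j - 1 + w) := by
      rw [e1, div_mul_eq_mul_div, div_mul_eq_mul_div]
      exact div_le_div_of_nonneg_right hzr hD0.le
    have := h2 _ _ _ _ _ _ (z / D) hA hνD hjt (by positivity) hz2
    rw [eY z]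
    linarith
  · intro z hz0 hzn hzr hzs
    exfalso
    rw [e0, e1] at hVE
    have hm2 : (0 : ℝ) < m + 2 := by positivity
    have h5 : (μ : ℝ) * (j - 1 + w) ≤ ((D : ℝ) + 1 - s - μ) * (m + 2) := by
      have h6 := mul_le_mul_of_nonneg_right hVE hD0.le
      have e3 : (μ : ℝ) / D * (j - 1 + w) * D = μ * (j - 1 + w) := by field_simp
      have e4 : ((D : ℝ) + 1 - s - μ) / D * (m + 2) * D = ((D : ℝ) + 1 - s - μ) * (m + 2) := by
        field_simp
      rw [e3, e4] at h6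
      exact h6
    have h7 := mul_lt_mul_of_pos_right hz0 hm2
    linarith

theorem stNH (hFRA : StFRA) (hLE : StLE) (hOE : StOE) (h1 : StR1H) (h2 : StR2H) (hV : StVE) :
    StNH := by
  intro D μ s hD hμ hc hs hsD
  have hcR : 9 * (μ : ℝ) ≤ 4 * s := by exact_mod_cast hc
  exact good_exact hFRA hLE hOE hV hD hμ hs hsD (Or.inl hc)
    (fun q ν u j t w hA hν => h1 _ _ _ _ _ _ _ _ hA (by rw [hν]; exact hcR))
    (fun q ν u j t w y hA hν h h' h'' =>
      h2 _ _ _ _ _ _ _ _ _ hA (by rw [hν]; exact hcR) h h' h'')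

theorem stNL2 (hFRA : StFRA) (hLE : StLE) (hOE : StOE) (h1 : StR1L) (h2 : StR2L) (hV : StVE) :
    StNL2 := by
  intro D μ s hD hμ hc hs hsD
  have hcR : (s : ℝ) * (μ + 2) ≤ D := by exact_mod_cast hc
  exact good_exact hFRA hLE hOE hV hD hμ hs hsD (Or.inr hc)
    (fun q ν u j t w hA hν => h1 _ _ _ _ _ _ _ _ hA (by rw [hν]; exact hcR))
    (fun q ν u j t w y hA hν h h' h'' =>
      h2 _ _ _ _ _ _ _ _ _ hA (by rw [hν]; exact hcR) h h' h'')

end Pool.Agent.Helper82.EC2
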