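import Pool.Agent.Helper82.EC2.St

/-!
# MP_47b98d_co, second generation: module Pay
-/

set_option autoImplicit false

open Finset
open scoped Classical

namespace Pool.Agent.Helper82.EC2

open EC EC.MGraph

namespace PayAux

variable {V E : Type} [Fintype V] [Fintype E] {G : MGraph V E} {D μ : ℕ}

theorem deg_pos (dt : Data G D μ) (p : V) : 1 ≤ G.deg p := by
  have : dt.ee p ∈ G.inc p := by
    refine Finset.mem_filter.2 ⟨Finset.mem_univ _, ?_⟩
    rw [dt.ends_eq p]
    exact Sym2.mem_mk_right _ _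
  exact Finset.card_pos.2 ⟨_, this⟩

lemma hh_nonneg {Q : ℝ} {du dp : ℕ} (hm : (D : ℝ) + 1 ≤ dp + Q) : 0 ≤ hh D Q du dp := by
  unfold hh
  split_ifs with h
  · exact div_nonneg (by linarith) (by linarith)
  · exact le_rfl

lemma hh_le {Q : ℝ} {du dp : ℕ} (hm : (D : ℝ) + 1 ≤ dp + Q) (hdu : du ≤ D) (hQD : Q ≤ D) :
    hh D Q du dp ≤ ((D : ℝ) - Q) / ((dp : ℝ) - 1) := by
  have hdu' : (du : ℝ) ≤ D := by exact_mod_cast hdu
  unfold hh
  have h0 : 0 ≤ ((D : ℝ) - Q) / ((dp : ℝ) - 1) := div_nonneg (by linarith) (by linarith)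
  split_ifs with h
  · have h1 : (0 : ℝ) ≤ (du : ℝ) + dp - D - 1 := by linarith
    rcases h1.eq_or_lt with h2 | h2
    · rw [← h2, div_zero]; exact h0
    · rw [div_le_div_iff₀ h2 (by linarith)]
      nlinarith
  · exact h0

end PayAux

open PayAux

theorem stPay (hShare : StShare) : StPay := by
  intro V E _ _ G D μ dt Q hT u p
  have hD2 : (2 : ℝ) ≤ D := by exact_mod_cast hT.two_le
  have hlo := hT.lo
  have hhi := hT.hi
  have hQpos : 0 < Q := by linarith
  have hQD : Q ≤ D := by linarith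
  have hp1 : (1 : ℝ) ≤ G.deg p := by exact_mod_cast deg_pos dt p
  have hdu : G.deg u ≤ D := dt.deg_le u
  refine ⟨?_, ?_⟩
  · unfold pay
    split_ifs with h1 h2
    · have : 1 ≤ Q / (G.deg p : ℝ) := by
        rw [le_div_iff₀ (by linarith)]
        linarith [h1.2]
      linarith
    · have hm : (D : ℝ) + 1 ≤ G.deg p + Q := not_lt.1 h2
      have hS := hShare V E G D μ dt Q hT p hm h1.2
      exact mul_nonneg (div_nonneg (by linarith [h1.2]) (by linarith [h1.2])) (hh_nonneg hm)
    · exact le_rfl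
  · intro hm hk
    have hS := hShare V E G D μ dt Q hT p hm hk
    have hh0 : 0 ≤ hh D Q (G.deg u) (G.deg p) := hh_nonneg hm
    have hden : 0 < 2 * (D : ℝ) + 2 - 2 * Q - G.deg p := by linarith
    have hSpos : 0 < SH G D Q p := by linarith
    have hff0 : 0 ≤ ff D Q (G.deg p) := by
      unfold ff
      exact mul_nonneg (div_nonneg (by linarith) hden.le)
        (div_nonneg (by linarith) (by linarith))
    have hpay : pay G D Q u p ≤ (Q - G.deg p) / SH G D Q p * hh D Q (G.deg u) (G.deg p) := by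
      unfold pay
      split_ifs with h1 h2
      · exact absurd h2 (not_lt.2 hm)
      · exact le_rfl
      · exact mul_nonneg (div_nonneg (by linarith) hSpos.le) hh0
    refine ⟨?_, ?_, ?_⟩
    · refine hpay.trans ?_
      have : (Q - G.deg p) / SH G D Q p ≤ 1 := by
        rw [div_le_one hSpos]; linarith
      nlinarith
    · refine hpay.trans ?_
      unfold ff
      have h1 : (Q - G.deg p) / SH G D Q p ≤
          (Q - G.deg p) / (2 * (D : ℝ) + 2 - 2 * Q - G.deg p) :=
        div_le_div_of_nonneg_left (by linarith) hden hS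
      exact mul_le_mul h1 (hh_le hm hdu hQD) hh0 (div_nonneg (by linarith) hden.le)
    · unfold ff gg
      have ha : 0 ≤ (D : ℝ) - Q := by linarith
      have ha1 : 0 < (D : ℝ) + 1 - Q := by linarith
      have h1 : (Q - G.deg p) / (2 * (D : ℝ) + 2 - 2 * Q - G.deg p) ≤
          Q / ((D : ℝ) + 1 - Q) - 1 := by
        have e : Q / ((D : ℝ) + 1 - Q) - 1 = (2 * Q - D - 1) / ((D : ℝ) + 1 - Q) := by
          field_simp
          ring
        rw [e, div_le_div_iff₀ hden ha1]
        nlinarith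
      have h2 : ((D : ℝ) - Q) / ((G.deg p : ℝ) - 1) ≤ 1 :=
        div_le_one_of_le₀ (by linarith) (by linarith)
      have h3 : 0 ≤ (Q - G.deg p) / (2 * (D : ℝ) + 2 - 2 * Q - G.deg p) :=
        div_nonneg (by linarith) hden.le
      nlinarith

end Pool.Agent.Helper82.EC2
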