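import Pool.Agent.Helper82.EC2.StN

/-!
# MP_47b98d_co, second generation: module R1A (threshold `2 D (D + 1) / (3 D + μ)`, case `y = 0`)
-/

set_option autoImplicit false

namespace Pool.Agent.Helper82.EC2

/-- simple consequences of `HA` -/
theorem R1A_aux {D q ν u s p j t w : ℝ} (h : HA D q ν u s p j t w) :
    0 < D ∧ 0 < ν ∧ 1 / 2 ≤ q ∧ q ≤ 1 ∧ 0 ≤ p ∧ 2 - (1 + ν) * u + 4 * ν * (1 + ν) ≤ 0 := by
  obtain ⟨hD, hν, hν1, hq, hu, hu2, hp, hs, hj, ht, hw, hwm, hwμ, hE⟩ := h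
  have hD0 : 0 < D := by linarith
  have hν0 : 0 < ν := by
    by_contra hcon
    push Not at hcon
    nlinarith
  have h1 : q * (3 + ν) * D = 2 * D + 2 := by linarith
  have hq1 : 1 / 2 ≤ q := by
    by_contra hcon
    push Not at hcon
    have h2 : q * (3 + ν) < 2 := by nlinarith
    nlinarith
  have hq2 : q ≤ 1 := by
    by_contra hcon
    push Not at hcon
    have h2 : 3 ≤ q * (3 + ν) := by nlinarith
    nlinarith
  have hp0 : 0 ≤ p := by
    by_contra hcon
    push Not at hcon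
    have h2 : 0 ≤ (u - 2) * (j + t + 1) := mul_nonneg (by linarith) (by linarith)
    have h3 : 0 ≤ q * j := mul_nonneg (by linarith) hj
    nlinarith
  refine ⟨hD0, hν0, hq1, hq2, hp0, ?_⟩
  have h2 : 0 < 1 - ν := by linarith
  have h3 : (1 - ν) * (2 + 4 * ν + 4 * ν ^ 2) ≤ (1 - ν) * ((1 + ν) * u) := by
    have h4 : (1 - ν) * ((1 + ν) * u) = (1 + ν) * (2 * (1 + p)) := by rw [← hp]; ring
    rw [h4]
    have h5 : 0 ≤ ν ^ 3 := by positivity
    have h6 : 0 ≤ p * (1 + ν) := by positivity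
    nlinarith
  have h4 := le_of_mul_le_mul_left h3 h2
  nlinarith

/-- module R1A -/
theorem stR1A : StR1A := by
  intro D q ν u s p j t w h
  obtain ⟨hD0, hν0, hq1, hq2, hp0, hA⟩ := R1A_aux h
  obtain ⟨hD, hν, hν1, hq, hu, hu2, hp, hs, hj, ht, hw, hwm, hwμ, hE⟩ := h
  obtain ⟨e, he⟩ : ∃ e, e = 5 / D := ⟨_, rfl⟩
  have heD : e * D = 5 := by rw [he]; field_simp
  have he0 : 0 ≤ e := by rw [he]; positivity
  have he1 : e ≤ 5 / 12 := by
    rw [he, div_le_iff₀ hD0]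
    linarith
  have h1ν : 0 ≤ 1 - ν := by linarith
  have h1q : 0 ≤ 1 - q := by linarith
  have hq0 : 0 ≤ q := by linarith
  have f2 : 0 ≤ t * (u - 2 + ν) := mul_nonneg ht (by linarith)
  have f3 : 0 ≤ (1 - q) * ν := mul_nonneg h1q hν0.le
  have f4 : 0 ≤ ν * (1 - q * ν) := by
    refine mul_nonneg hν0.le ?_
    nlinarith
  have f5 : 0 ≤ p * j := mul_nonneg hp0 hj
  have f6 : 0 ≤ q * (1 - ν) ^ 2 := mul_nonneg hq0 (sq_nonneg _)
  have hxs : 0 ≤ s - 1 - (j + w) := by linarith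
  unfold XA
  rw [← he]
  rcases le_total (j + w) (ν * D) with hx | hx
  · have g1 : 0 ≤ q * (1 - ν) ^ 2 * (s - 1 - (j + w)) := mul_nonneg f6 hxs
    have g2 : e * (1 - ν) * (j + w - 1) ≤ 5 * ν * (1 - ν) := by
      have g3 : e * (j + w - 1) ≤ 5 * ν := by
        have g4 : e * (j + w) ≤ e * (ν * D) := mul_le_mul_of_nonneg_left hx he0
        have g5 : e * (ν * D) = 5 * ν := by
          calc e * (ν * D) = ν * (e * D) := by ring
            _ = 5 * ν := by rw [heD]; ring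
        nlinarith
      nlinarith
    have g6 : 0 ≤ ν * (1 - q * ν) * (s - 2) := mul_nonneg f4 (by linarith)
    have g7 : 0 ≤ j * (2 * p + q + 2 * (1 - q) * ν) := by
      refine mul_nonneg hj ?_
      linarith
    have g8 : ν - 9 * ν ^ 2 ≤ 1 / 36 := by nlinarith [sq_nonneg (18 * ν - 1)]
    nlinarith
  · have g1 : 0 ≤ (ν * D - w) * (q + 2 * (1 - q) * ν) := mul_nonneg (by linarith) (by linarith)
    have g2 : 0 ≤ (j + w - ν * D) * (q + 2 * (1 - q) * ν - e * (1 - ν)) := by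
      refine mul_nonneg (by linarith) ?_
      nlinarith
    have g3 : 0 ≤ (q + ν - 2 * q * ν) * (s - 1 - (j + w)) := by
      refine mul_nonneg ?_ hxs
      nlinarith
    have g4 : 0 ≤ ν * (1 - q * ν) * (j + w) := mul_nonneg f4 (by linarith)
    have g5 : 0 ≤ e * (1 - ν) := mul_nonneg he0 h1ν
    have g6 : e * (1 - ν) * (j + w - 1) =
        5 * ν * (1 - ν) + e * (1 - ν) * (j + w - ν * D) - e * (1 - ν) := by
      linear_combination (1 - ν) * ν * heD
    have g7 := sq_nonneg ν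
    nlinarith

end Pool.Agent.Helper82.EC2
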