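import Pool.Agent.Helper82.EC2.StN

/-!
# MP_47b98d_co, second generation: the inequality R2A
-/

set_option autoImplicit false

namespace Pool.Agent.Helper82.EC2

namespace R2Ax

/-- the polynomial inequality at the right end point -/
lemma diff_nonneg {ν p q : ℝ} (hν0 : 0 < ν) (hν : ν ≤ 3 / 10) (hp : 0 < p) (hq : q ≤ 13 / 18) :
    2 * ν * (1 + p) * p * (p + ν) ≤
      (p * (1 + ν) + 2 * ν) * (p ^ 2 * (1 - ν) + p * ν * (1 - q * ν) + ν ^ 2 * (1 - q * ν)) := by
  have hth : 1 - 13 / 18 * ν ≤ 1 - q * ν := by nlinarith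
  obtain ⟨θ, hθ⟩ : ∃ θ : ℝ, θ = 1 - q * ν := ⟨_, rfl⟩
  rw [← hθ] at hth ⊢
  have hθ0 : 0 ≤ θ := by linarith
  have a1 : 31 / 100 ≤ 1 - 2 * ν - ν ^ 2 := by nlinarith
  have a2 : -(1 / 5) ≤ θ * (1 + ν) - 4 * ν := by
    have : (1 - 13 / 18 * ν) * (1 + ν) ≤ θ * (1 + ν) :=
      mul_le_mul_of_nonneg_right hth (by linarith)
    nlinarith
  have a3 : 58 / 100 ≤ θ * (3 + ν) - 2 := by
    have : (1 - 13 / 18 * ν) * (3 + ν) ≤ θ * (3 + ν) :=
      mul_le_mul_of_nonneg_right hth (by linarith)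
    nlinarith
  have e : (p * (1 + ν) + 2 * ν) * (p ^ 2 * (1 - ν) + p * ν * θ + ν ^ 2 * θ) -
      2 * ν * (1 + p) * p * (p + ν) = p ^ 3 * (1 - 2 * ν - ν ^ 2) +
        p ^ 2 * ν * (θ * (1 + ν) - 4 * ν) + p * ν ^ 2 * (θ * (3 + ν) - 2) + 2 * ν ^ 3 * θ := by
    ring
  have b1 : p ^ 3 * (31 / 100) ≤ p ^ 3 * (1 - 2 * ν - ν ^ 2) :=
    mul_le_mul_of_nonneg_left a1 (by positivity)
  have b2 : p ^ 2 * ν * (-(1 / 5)) ≤ p ^ 2 * ν * (θ * (1 + ν) - 4 * ν) :=
    mul_le_mul_of_nonneg_left a2 (by positivity)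
  have b3 : p * ν ^ 2 * (58 / 100) ≤ p * ν ^ 2 * (θ * (3 + ν) - 2) :=
    mul_le_mul_of_nonneg_left a3 (by positivity)
  have b4 : 0 ≤ 2 * ν ^ 3 * θ := by positivity
  have b5 : 0 ≤ p * (31 / 100 * p ^ 2 - 1 / 5 * ν * p + 58 / 100 * ν ^ 2) := by
    apply mul_nonneg hp.le
    nlinarith [sq_nonneg (p - ν), sq_nonneg p, sq_nonneg ν]
  linarith

/-- the concave inequality -/
lemma concave {ν p q s k : ℝ} (hν0 : 0 < ν) (hν : ν ≤ 3 / 10) (hp : 0 < p) (hq : q ≤ 13 / 18)
    (hq0 : 0 ≤ q) (hs : 0 < s) (hk0 : 0 ≤ k) (hk : 2 * (p + ν) * k ≤ (1 - ν) * s * p) :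
    2 * ν * (1 + p) * s * k ≤ (1 - ν) * (s - k) * (ν * (1 - q * ν) * s + 2 * p * k) := by
  obtain ⟨K, hK⟩ : ∃ K : ℝ, K = (1 - ν) * s * p / (2 * (p + ν)) := ⟨_, rfl⟩
  have hpν : 0 < 2 * (p + ν) := by linarith
  have h1ν : 0 < 1 - ν := by linarith
  have hK0 : 0 < K := by rw [hK]; positivity
  have hkK : k ≤ K := by
    rw [hK, le_div_iff₀ hpν]
    linarith
  have hθ : 0 ≤ 1 - q * ν := by nlinarith
  have hF : ∀ x : ℝ, K * ((1 - ν) * (s - x) * (ν * (1 - q * ν) * s + 2 * p * x) -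
      2 * ν * (1 + p) * s * x) = (K - x) * ((1 - ν) * (ν * (1 - q * ν)) * s ^ 2) +
      x * ((1 - ν) * (s - K) * (ν * (1 - q * ν) * s + 2 * p * K) - 2 * ν * (1 + p) * s * K) +
      2 * p * (1 - ν) * x * (K - x) * K := by
    intro x
    ring
  have hFK : 0 ≤ (1 - ν) * (s - K) * (ν * (1 - q * ν) * s + 2 * p * K) -
      2 * ν * (1 + p) * s * K := by
    have e : (1 - ν) * (s - K) * (ν * (1 - q * ν) * s + 2 * p * K) -
      2 * ν * (1 + p) * s * K = s ^ 2 * (1 - ν) / (2 * (p + ν) ^ 2) *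
        ((p * (1 + ν) + 2 * ν) * (p ^ 2 * (1 - ν) + p * ν * (1 - q * ν) + ν ^ 2 * (1 - q * ν)) -
        2 * ν * (1 + p) * p * (p + ν)) := by
      have : p + ν ≠ 0 := by linarith
      rw [hK]
      field_simp
      ring
    rw [e]
    apply mul_nonneg (by positivity)
    have := diff_nonneg hν0 hν hp hq
    linarith
  have h1 := hF k
  have h2 : 0 ≤ (K - k) * ((1 - ν) * (ν * (1 - q * ν)) * s ^ 2) := by
    apply mul_nonneg (by linarith)
    positivity
  have h3 : 0 ≤ k * ((1 - ν) * (s - K) * (ν * (1 - q * ν) * s + 2 * p * K) -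
      2 * ν * (1 + p) * s * K) := mul_nonneg hk0 hFK
  have h4 : 0 ≤ 2 * p * (1 - ν) * k * (K - k) * K := by
    have : 0 ≤ K - k := by linarith
    positivity
  have h5 : 0 ≤ K * ((1 - ν) * (s - k) * (ν * (1 - q * ν) * s + 2 * p * k) -
      2 * ν * (1 + p) * s * k) := by
    rw [h1]
    linarith
  have h6 := nonneg_of_mul_nonneg_right h5 hK0
  linarith

/-- elementary consequences of the hypotheses -/
structure Cons (D q ν u s p j t w : ℝ) : Prop where
  D0 : 0 < D
  ν0 : 0 < ν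
  qν1 : 2 ≤ q * (3 + ν)
  qν2 : q * (3 + ν) ≤ 13 / 6
  q1 : 1 / 2 ≤ q
  q2 : q ≤ 13 / 18
  p0 : 0 < p
  νu : ν * u = u - 2 - 2 * p
  u1 : 2 * (1 + ν) ≤ u
  k1 : 2 * (p + ν) * (j + t) ≤ (1 - ν) * s * p
  k2 : j + t ≤ (1 - ν) * s / 2

lemma cons {D q ν u s p j t w : ℝ} (h : HA D q ν u s p j t w) : Cons D q ν u s p j t w := by
  obtain ⟨hD, hν, hν1, hq, hu, hu2, hp, hs, hj, ht, hw, hwm, hwμ, hE⟩ := h
  have hD0 : 0 < D := by linarith
  have hν0 : 0 < ν := by
    by_contra hc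
    nlinarith
  have hq1 : 2 ≤ q * (3 + ν) := by
    have : 2 * D ≤ q * (3 + ν) * D := by rw [hq]; linarith
    exact le_of_mul_le_mul_right this hD0
  have hq2 : q * (3 + ν) ≤ 13 / 6 := by
    have : q * (3 + ν) * D ≤ 13 / 6 * D := by rw [hq]; linarith
    exact le_of_mul_le_mul_right this hD0
  have hqlo : 1 / 2 ≤ q := by
    by_contra hc
    nlinarith
  have hqhi : q ≤ 13 / 18 := by nlinarith
  have hk0 : 0 ≤ j + t := by linarith
  have hp0 : 0 < p := by
    have h1 : 0 < (u - 2) * (j + t + 1) := mul_pos (by linarith) (by linarith)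
    have h2 : 0 ≤ q * j := mul_nonneg (by linarith) hj
    have h3 : 0 < s * p := by linarith
    exact (pos_iff_pos_of_mul_pos h3).1 (by linarith)
  have hνu : ν * u = u - 2 - 2 * p := by linarith
  have h1ν : 0 < 1 - ν := by linarith
  have hu1 : 2 * (1 + ν) ≤ u := by
    have h1 : 2 * (1 + ν) * (1 - ν) ≤ u * (1 - ν) := by nlinarith
    exact le_of_mul_le_mul_right h1 h1ν
  have hk1 : 2 * (p + ν) * (j + t) ≤ (1 - ν) * s * p := by
    have h1 : (u - 2) * (j + t) ≤ s * p := by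
      have h2 : 0 ≤ q * j := mul_nonneg (by linarith) hj
      nlinarith
    have h2 : (1 - ν) * ((u - 2) * (j + t)) ≤ (1 - ν) * (s * p) :=
      mul_le_mul_of_nonneg_left h1 h1ν.le
    have h3 : (1 - ν) * ((u - 2) * (j + t)) = 2 * (p + ν) * (j + t) := by
      have : (1 - ν) * (u - 2) = 2 * (p + ν) := by linarith
      rw [← this]
      ring
    rw [h3] at h2
    linarith
  have hk2 : j + t ≤ (1 - ν) * s / 2 := by
    have h1 : 2 * (p + ν) * (j + t) ≤ 2 * (p + ν) * ((1 - ν) * s / 2) := by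
      have : 0 ≤ (1 - ν) * s * ν := by positivity
      nlinarith
    exact le_of_mul_le_mul_left h1 (by linarith)
  exact ⟨hD0, hν0, hq1, hq2, hqlo, hqhi, hp0, hνu, hu1, hk1, hk2⟩

/-- the bound for `XA` -/
lemma xa_le {D q ν u s p j t w : ℝ} (h : HA D q ν u s p j t w) :
    XA D q ν u s p j t w ≤ -q + 2 * q * ν * (1 - ν) - 2 * p - 2 * (ν * u) + 5 * ν * (1 - ν) -
      s * (ν * (1 - q * ν)) - j * (2 * p + q - (1 - ν) * (5 / D) + 2 * (1 - q) * ν) -
      t * (u - 2 + ν + q * (1 - ν) ^ 2) := by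
  have c := cons h
  have hD0 := c.D0
  have hν0 := c.ν0
  have hνu := c.νu
  obtain ⟨e, he⟩ : ∃ e : ℝ, e = 5 / D := ⟨_, rfl⟩
  have heD : e * D = 5 := by rw [he]; field_simp
  have he0 : 0 < e := by rw [he]; positivity
  unfold XA
  rw [← he]
  have h1ν : 0 < 1 - ν := by linarith [h.hν1]
  have h1 : q * (1 - ν) ^ 2 * (j - 1 + w) ≤ q * (1 - ν) ^ 2 * (s - 2 - t) := by
    apply mul_le_mul_of_nonneg_left
    · linarith [h.hwm]
    · have := c.q1
      positivity
  have h2 : (1 - ν) * e * (j - 1 + w) ≤ (1 - ν) * e * (j + ν * D) := by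
    apply mul_le_mul_of_nonneg_left
    · linarith [h.hwμ]
    · positivity
  have h3 : (1 - ν) * e * (j + ν * D) = (1 - ν) * e * j + 5 * ν * (1 - ν) := by
    rw [mul_add, show (1 - ν) * e * (ν * D) = (1 - ν) * ν * (e * D) by ring, heD]
    ring
  have h4 : (1 - ν) * (q * (1 - ν) + e) * (j - 1 + w) =
      q * (1 - ν) ^ 2 * (j - 1 + w) + (1 - ν) * e * (j - 1 + w) := by ring
  have h5 : (1 + ν) * u = 2 * p + 2 * (ν * u) + 2 := by linarith
  rw [h4, h5]
  linarith

end R2Ax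

open R2Ax in
theorem stR2A : StR2A := by
  intro D q ν u s p j t w y h hk hy0 hy1 hy2
  have c := cons h
  have hX := xa_le h
  have hD0 := c.D0
  have hν0 := c.ν0
  have hνu := c.νu
  have hp0 := c.p0
  have hq1 := c.q1
  have hq2 := c.q2
  have hu1 := c.u1
  have hk1 := c.k1
  have hk2 := c.k2
  have hν1 := h.hν1
  have hj := h.hj
  have ht := h.ht
  have hs := h.hs
  have hD := h.hD
  have h1ν : 0 < 1 - ν := by linarith
  have hs0 : 0 < s := by linarith
  have hu0 : 0 < u := by linarith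
  obtain ⟨e, he⟩ : ∃ e : ℝ, e = 5 / D := ⟨_, rfl⟩
  have heD : e * D = 5 := by rw [he]; field_simp
  have he0 : 0 < e := by rw [he]; positivity
  have he1 : e ≤ 5 / 12 := by
    rw [he, div_le_iff₀ hD0]
    linarith
  rw [← he] at hX
  have hνν : ν * (1 - ν) ≤ 1 / 4 := by nlinarith [sq_nonneg (ν - 1 / 2)]
  have hνν0 : 0 ≤ ν * (1 - ν) := by positivity
  -- the constant
  have hqc : 2 * q * ν * (1 - ν) ≤ q / 2 := by
    have : q * (ν * (1 - ν)) ≤ q * (1 / 4) := mul_le_mul_of_nonneg_left hνν (by linarith)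
    linarith
  have hνu2 : 2 * ν * (1 + ν) ≤ ν * u := by
    have := mul_le_mul_of_nonneg_left hu1 hν0.le
    linarith
  rcases le_or_gt ν (3 / 10) with hc | hc
  · -- small `ν`
    have hkey := concave hν0 hc hp0 hq2 (by linarith) hs0 (by linarith : 0 ≤ j + t) hk1
    obtain ⟨G, hG⟩ : ∃ G : ℝ, G = ν * (1 - q * ν) * s + 2 * p * (j + t) := ⟨_, rfl⟩
    have hθ : 0 ≤ 1 - q * ν := by
      have : q * ν ≤ 1 * 1 := mul_le_mul (by linarith) (by linarith) hν0.le (by norm_num)
      linarith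
    have hG0 : 0 ≤ G := by
      rw [hG]
      have : 0 ≤ j + t := by linarith
      positivity
    rw [← hG] at hkey
    have hden : 0 < s + 1 - (j + t) := by
      have : 0 ≤ ν * s := by positivity
      linarith
    have hyG : y * u * (j + t - 1) ≤ G := by
      have h1 : y * (s + 1 - (j + t)) ≤ ν * s := by
        have h2 : y * (s + 1 - j - t) ≤ ν * s := by
          refine hy2.trans ?_
          apply mul_le_mul_of_nonneg_left _ hν0.le
          linarith [h.hwm]
        linarith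
      have h2 : y * (s + 1 - (j + t)) * (u * (j + t - 1)) ≤ ν * s * (u * (j + t - 1)) := by
        apply mul_le_mul_of_nonneg_right h1
        exact mul_nonneg hu0.le (by linarith)
      have h3 : (1 - ν) * (ν * s * (u * (j + t - 1))) ≤ (1 - ν) * (s + 1 - (j + t)) * G := by
        have e1 : (1 - ν) * (ν * s * (u * (j + t - 1))) =
            2 * ν * (1 + p) * s * (j + t) - 2 * ν * (1 + p) * s := by
          have : (1 - ν) * (ν * s * (u * (j + t - 1))) =
              ((1 - ν) * u) * (ν * s * (j + t - 1)) := by ring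
          rw [this, h.hp]
          ring
        rw [e1]
        have e2 : 0 ≤ 2 * ν * (1 + p) * s := by positivity
        have e3 : (1 - ν) * (s + 1 - (j + t)) * G =
            (1 - ν) * (s - (j + t)) * G + (1 - ν) * G := by ring
        have e4 : 0 ≤ (1 - ν) * G := by positivity
        rw [e3]
        linarith
      have h4 : (1 - ν) * (s + 1 - (j + t)) * (y * u * (j + t - 1)) ≤
          (1 - ν) * (s + 1 - (j + t)) * G := by
        refine le_trans (le_of_eq ?_) ((mul_le_mul_of_nonneg_left h2 h1ν.le).trans h3)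
        ring
      exact le_of_mul_le_mul_left h4 (by positivity)
    have f1 : j * (2 * p) ≤ j * (2 * p + q - (1 - ν) * e + 2 * (1 - q) * ν) := by
      apply mul_le_mul_of_nonneg_left _ hj
      have h1 : 0 ≤ ν * e := by positivity
      have h2 : 0 ≤ 2 * (1 - q) * ν := by
        have : 0 ≤ 1 - q := by linarith
        positivity
      linarith
    have f2 : t * (2 * p) ≤ t * (u - 2 + ν + q * (1 - ν) ^ 2) := by
      apply mul_le_mul_of_nonneg_left _ ht
      have h1 : 0 ≤ q * (1 - ν) ^ 2 := by positivity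
      have h2 : 0 ≤ ν * u := by positivity
      linarith
    have f3 : 5 * ν * (1 - ν) - 2 * (ν * u) ≤ 1 / 36 := by
      nlinarith [sq_nonneg (ν - 1 / 18)]
    have f4 : G = s * (ν * (1 - q * ν)) + j * (2 * p) + t * (2 * p) := by
      rw [hG]
      ring
    linarith
  · -- large `ν`
    obtain ⟨z, hz⟩ : ∃ z : ℝ, z = u / D := ⟨_, rfl⟩
    have hzs : z * s = q := by
      rw [hz, div_mul_eq_mul_div, h.hu]
      field_simp
    have hz0 : 0 < z := by rw [hz]; positivity
    have hyu : y * u ≤ 2 + 2 * p - q + z := by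
      have h1 : y * u ≤ (1 - ν - (s - 1) / D) * u := mul_le_mul_of_nonneg_right hy1 hu0.le
      have h2 : (1 - ν - (s - 1) / D) * u = 2 + 2 * p - q + z := by
        have h3 : (s - 1) / D * u = z * s - z := by
          rw [hz]
          field_simp
        have h4 : (1 - ν) * u = 2 + 2 * p := by linarith [h.hp]
        rw [sub_mul, h3, h4, hzs]
        ring
      linarith
    have hyk : y * u * (j + t - 1) ≤ (2 + 2 * p - q) * (j + t - 1) + q / 2 := by
      have h1 : y * u * (j + t - 1) ≤ (2 + 2 * p - q + z) * (j + t - 1) :=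
        mul_le_mul_of_nonneg_right hyu (by linarith)
      have h2 : z * (j + t - 1) ≤ z * (s / 2) := by
        apply mul_le_mul_of_nonneg_left _ hz0.le
        have : 0 ≤ ν * s := by positivity
        linarith
      have h3 : z * (s / 2) = q / 2 := by rw [← hzs]; ring
      linarith
    -- coefficient of `t`
    have hνu3 : 2 * ν ≤ ν * u * (1 - ν) := by
      have : ν * u * (1 - ν) = ν * ((1 - ν) * u) := by ring
      rw [this, h.hp]
      have h5 : 0 ≤ ν * p := by positivity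
      linarith
    have htc : 2 - q - ν - q * (1 - ν) ^ 2 - ν * u ≤ 0 := by
      have hpos : 0 < (1 - ν) * (3 + ν) := by positivity
      have h1 : (2 - q - ν - q * (1 - ν) ^ 2 - ν * u) * ((1 - ν) * (3 + ν)) ≤ 0 := by
        have e1 : (2 - q - ν - q * (1 - ν) ^ 2 - ν * u) * ((1 - ν) * (3 + ν)) =
            (2 - ν) * (1 - ν) * (3 + ν) - (q * (3 + ν)) * ((1 - ν) * (1 + (1 - ν) ^ 2)) -
              (ν * u * (1 - ν)) * (3 + ν) := by ring
        rw [e1]
        have e2 : 2 * ((1 - ν) * (1 + (1 - ν) ^ 2)) ≤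
            (q * (3 + ν)) * ((1 - ν) * (1 + (1 - ν) ^ 2)) :=
          mul_le_mul_of_nonneg_right c.qν1 (by positivity)
        have e3 : 2 * ν * (3 + ν) ≤ (ν * u * (1 - ν)) * (3 + ν) :=
          mul_le_mul_of_nonneg_right hνu3 (by linarith)
        have e4 : (2 - ν) * (1 - ν) * (3 + ν) - 2 * ((1 - ν) * (1 + (1 - ν) ^ 2)) -
            2 * ν * (3 + ν) = 2 - 5 * ν - 8 * ν ^ 2 + 3 * ν ^ 3 := by ring
        have e5 : 2 - 5 * ν - 8 * ν ^ 2 + 3 * ν ^ 3 ≤ 0 := by
          have h5 : 0 ≤ (ν - 3 / 10) ^ 2 * (1 - ν) := by positivity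
          have h6 : 0 ≤ (ν - 3 / 10) ^ 2 := sq_nonneg _
          linarith
        linarith
      by_contra hcon
      rw [not_le] at hcon
      have := mul_pos hcon hpos
      linarith
    have htt : t * (2 - q - ν - q * (1 - ν) ^ 2 - ν * u) ≤ 0 :=
      mul_nonpos_of_nonneg_of_nonpos ht htc
    -- coefficient of `j`
    have hjj : j * ((1 - ν) * (2 * (1 - q) + e)) ≤
        (1 - ν) * s / 2 * ((1 - ν) * (2 * (1 - q) + e)) := by
      apply mul_le_mul_of_nonneg_right
      · linarith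
      · have : 0 ≤ 1 - q := by linarith
        positivity
    have hj1 : s * ((1 - ν) ^ 2 * (1 - q)) ≤ s * (ν * (1 - q * ν)) := by
      apply mul_le_mul_of_nonneg_left _ hs0.le
      have e1 : (1 - ν) ^ 2 * (1 - q) - ν * (1 - q * ν) = 1 - 3 * ν + ν ^ 2 - q * (1 - 2 * ν) := by
        ring
      have e2 : 1 - 3 * ν + ν ^ 2 - q * (1 - 2 * ν) ≤ 0 := by
        rcases le_or_gt ν (1 / 2) with hc2 | hc2
        · have h6 : 1 / 2 * (1 - 2 * ν) ≤ q * (1 - 2 * ν) :=
            mul_le_mul_of_nonneg_right hq1 (by linarith)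
          have h7 : ν ^ 2 ≤ 8 / 10 * ν - 15 / 100 := by
            have : 0 ≤ (ν - 3 / 10) * (1 / 2 - ν) := mul_nonneg (by linarith) (by linarith)
            linarith
          linarith
        · have h6 : q * (2 * ν - 1) ≤ 13 / 18 * (2 * ν - 1) :=
            mul_le_mul_of_nonneg_right hq2 (by linarith)
          have h7 : ν ^ 2 ≤ ν := by
            have : 0 ≤ ν * (1 - ν) := hνν0
            linarith
          linarith
      linarith
    have hse : s * e ≤ 5 * q * (1 - ν) / 2 := by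
      have h1 : s * e * u = 5 * q := by
        have : s * e * u = e * (u * s) := by ring
        rw [this, h.hu]
        calc e * (q * D) = (e * D) * q := by ring
          _ = 5 * q := by rw [heD]
      have h2 : s * e * 2 ≤ s * e * (u * (1 - ν)) := by
        apply mul_le_mul_of_nonneg_left _ (by positivity)
        have := h.hp
        linarith
      have h3 : s * e * (u * (1 - ν)) = 5 * q * (1 - ν) := by rw [← h1]; ring
      linarith
    have hj2 : (1 - ν) ^ 2 * (s * e) / 2 ≤ 1 / 3 := by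
      have h1 : (1 - ν) ^ 2 * (s * e) ≤ (1 - ν) ^ 2 * (5 * q * (1 - ν) / 2) :=
        mul_le_mul_of_nonneg_left hse (by positivity)
      have h2 : (1 - ν) ^ 3 ≤ (7 / 10) ^ 3 := pow_le_pow_left₀ h1ν.le (by linarith) 3
      have h3 : (1 - ν) ^ 2 * (5 * q * (1 - ν) / 2) = 5 / 2 * (q * (1 - ν) ^ 3) := by ring
      have h4 : q * (1 - ν) ^ 3 ≤ 13 / 18 * (7 / 10) ^ 3 :=
        mul_le_mul hq2 h2 (by positivity) (by norm_num)
      have h5 : (5 / 2 : ℝ) * (13 / 18 * (7 / 10) ^ 3) ≤ 2 / 3 := by norm_num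
      linarith
    have e1 : (1 - ν) * s / 2 * ((1 - ν) * (2 * (1 - q) + e)) =
        s * ((1 - ν) ^ 2 * (1 - q)) + (1 - ν) ^ 2 * (s * e) / 2 := by ring
    have e2 : -j * (2 * p + q - (1 - ν) * e + 2 * (1 - q) * ν) -
        t * (u - 2 + ν + q * (1 - ν) ^ 2) + (2 + 2 * p - q) * (j + t - 1) =
        j * ((1 - ν) * (2 * (1 - q) + e)) + t * (2 - q - ν - q * (1 - ν) ^ 2 - ν * u) -
          (2 + 2 * p - q) := by
      rw [hνu]
      ring
    have e3a : (3 : ℝ) / 10 * (3 / 10) ≤ ν * ν := mul_le_mul hc.le hc.le (by norm_num) hν0.le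
    have e3 : 6 / 10 ≤ ν * u := by linarith
    linarith

end Pool.Agent.Helper82.EC2
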