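import Pool.Agent.Helper82.EC2.StN
import Pool.Agent.Helper82.EC2.M_R2A

/-!
# MP_47b98d_co, second generation: the inequality R3A
-/

set_option autoImplicit false

namespace Pool.Agent.Helper82.EC2

namespace R3Ax

lemma poly_nonneg {ν : ℝ} (h1 : 29 / 100 ≤ ν) (h2 : ν ≤ 1) :
    0 ≤ 2 * (1 + ν) * ν ^ 2 * (1 - ν) * (3 + ν) + (1 + ν) * (2 * (1 + ν) * ν ^ 3 -
      2 * ν * (1 + ν) * (1 - ν) ^ 2 - (-(23 / 36) + 3 * ν - 13 / 36 * ν ^ 2) ^ 2 / 2) := by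
  obtain ⟨x, rfl⟩ : ∃ x, ν = 29 / 100 + x := ⟨ν - 29 / 100, by ring⟩
  have hx0 : 0 ≤ x := by linarith
  have hx1 : x ≤ 71 / 100 := by linarith
  have hx2 : x ^ 2 ≤ (71 / 100) ^ 2 := pow_le_pow_left₀ hx0 hx1 2
  have hx4 : x ^ 4 ≤ (71 / 100) ^ 2 * x ^ 2 := by
    calc x ^ 4 = x ^ 2 * x ^ 2 := by ring
      _ ≤ (71 / 100) ^ 2 * x ^ 2 := mul_le_mul_of_nonneg_right hx2 (by positivity)
  have hx5 : x ^ 5 ≤ (71 / 100) ^ 2 * x ^ 3 := by
    calc x ^ 5 = x ^ 2 * x ^ 3 := by ring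
      _ ≤ (71 / 100) ^ 2 * x ^ 3 := mul_le_mul_of_nonneg_right hx2 (by positivity)
  have h3 : 0 ≤ x ^ 2 := by positivity
  have h4 : 0 ≤ x ^ 3 := by positivity
  linarith

lemma bk_nonneg {ν α : ℝ} (h1 : 29 / 100 ≤ ν) (h2 : ν < 1) (ha1 : 5 / 18 ≤ α) (ha2 : α ≤ 1 / 2)
    (ha3 : α * (3 + ν) ≤ 1 + ν) :
    0 ≤ 2 * (1 + ν) * ν ^ 2 * (1 - ν + α * ν) - 2 * ν * (1 + ν) * α * (1 - ν) ^ 2 -
      α / 2 * (ν * (3 - ν) - (1 - ν ^ 2) * (1 + α) / 2) ^ 2 := by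
  obtain ⟨W, hW⟩ : ∃ W : ℝ, W = ν * (3 - ν) - (1 - ν ^ 2) * (1 + α) / 2 := ⟨_, rfl⟩
  obtain ⟨W0, hW0⟩ : ∃ W0 : ℝ, W0 = -(23 / 36) + 3 * ν - 13 / 36 * ν ^ 2 := ⟨_, rfl⟩
  have hν2 : ν ^ 2 ≤ 1 := by
    have := pow_le_pow_left₀ (by linarith : 0 ≤ ν) h2.le 2
    linarith
  have hWW : W ≤ W0 := by
    have : 0 ≤ (1 - ν ^ 2) * (α - 5 / 18) := mul_nonneg (by linarith) (by linarith)
    rw [hW, hW0]
    linarith
  have hWn : 0 ≤ W := by
    have : 0 ≤ (1 - ν ^ 2) * (1 / 2 - α) := mul_nonneg (by linarith) (by linarith)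
    have h3 : ν ^ 2 ≤ ν := by
      have := mul_le_mul_of_nonneg_left h2.le (by linarith : 0 ≤ ν)
      linarith
    rw [hW]
    linarith
  have hsq : W ^ 2 ≤ W0 ^ 2 := pow_le_pow_left₀ hWn hWW 2
  have hP := poly_nonneg h1 h2.le
  rw [← hW0] at hP
  rw [← hW]
  have h3 : α / 2 * W ^ 2 ≤ α / 2 * W0 ^ 2 := mul_le_mul_of_nonneg_left hsq (by linarith)
  obtain ⟨T, hT⟩ : ∃ T : ℝ, T = 2 * (1 + ν) * ν ^ 3 - 2 * ν * (1 + ν) * (1 - ν) ^ 2 - W0 ^ 2 / 2 :=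
    ⟨_, rfl⟩
  rw [← hT] at hP
  have h4 : 0 ≤ 2 * (1 + ν) * ν ^ 2 * (1 - ν) + α * T := by
    rcases le_or_gt 0 T with h5 | h5
    · have : 0 ≤ α * T := mul_nonneg (by linarith) h5
      have h6 : 0 ≤ 1 - ν := by linarith
      have h7 : 0 ≤ 2 * (1 + ν) * ν ^ 2 * (1 - ν) := by positivity
      linarith
    · have h6 : (1 + ν) * T ≤ α * (3 + ν) * T := mul_le_mul_of_nonpos_right ha3 h5.le
      have h7 : 0 ≤ (2 * (1 + ν) * ν ^ 2 * (1 - ν) + α * T) * (3 + ν) := by linarith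
      exact nonneg_of_mul_nonneg_left h7 (by linarith)
  rw [hT] at h4
  linarith

lemma key {ν α s k : ℝ} (h1 : 29 / 100 ≤ ν) (h2 : ν < 1) (ha1 : 5 / 18 ≤ α) (ha2 : α ≤ 1 / 2)
    (ha3 : α * (3 + ν) ≤ 1 + ν) (hs : 0 < s) (hk0 : 0 ≤ k) (hk : k ≤ (1 - ν) * s / 2) :
    α * (ν * (s + k) - (1 - ν) * (1 + α) / 2 * (s - k)) ^ 2 ≤
      2 * ν * (s - k) * (s * (ν * (1 - ν + α * ν)) - 2 * α * (1 - ν) * k) := by
  obtain ⟨c, hc⟩ : ∃ c : ℝ, c = (1 - ν) * (1 + α) / 2 := ⟨_, rfl⟩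
  rw [← hc]
  have hν0 : 0 < ν := by linarith
  have h1ν : 0 < 1 - ν := by linarith
  have hH := bk_nonneg h1 h2 ha1 ha2 ha3
  have hc0 : 0 ≤ c := by rw [hc]; positivity
  have hc2 : c ≤ 2 * ν := by
    have : (1 - ν) * (1 + α) ≤ 71 / 100 * (3 / 2) :=
      mul_le_mul (by linarith) (by linarith) (by linarith) (by norm_num)
    rw [hc]
    linarith
  -- the value at `0`
  have hB0 : α * (ν - c) ^ 2 ≤ 2 * ν ^ 2 * (1 - ν + α * ν) := by
    have h3 : (ν - c) ^ 2 ≤ ν ^ 2 := by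
      have : 0 ≤ c * (2 * ν - c) := mul_nonneg hc0 (by linarith)
      linarith
    have h4 : α * (ν - c) ^ 2 ≤ α * ν ^ 2 := mul_le_mul_of_nonneg_left h3 (by linarith)
    have h5 : α ≤ 2 * (1 - ν + α * ν) := by
      have h6 : 0 ≤ (1 / 2 - α) * (1 - ν) := mul_nonneg (by linarith) (by linarith)
      have h7 : 0 ≤ α * ν := by positivity
      linarith
    have h6 : α * ν ^ 2 ≤ 2 * (1 - ν + α * ν) * ν ^ 2 :=
      mul_le_mul_of_nonneg_right h5 (by positivity)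
    linarith
  obtain ⟨L, hL⟩ : ∃ L : ℝ, L = ν ^ 2 * ((1 + ν) * s + k * (7 - ν)) -
      2 * ν * c * (1 + ν) * (s + k) + c ^ 2 * (1 + ν) * (s - k) := ⟨_, rfl⟩
  have hN : 0 ≤ s - k := by
    have : 0 ≤ ν * s := by positivity
    linarith
  have hlin : α * L ≤ 2 * ν * (1 + ν) * (s * (ν * (1 - ν + α * ν)) - 2 * α * (1 - ν) * k) := by
    have e : (1 - ν) * s / 2 * (2 * ν * (1 + ν) * (s * (ν * (1 - ν + α * ν)) -
        2 * α * (1 - ν) * k) - α * L) = ((1 - ν) * s / 2 - k) * (s * (1 + ν) *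
          (2 * ν ^ 2 * (1 - ν + α * ν) - α * (ν - c) ^ 2)) + k * (s *
          (2 * (1 + ν) * ν ^ 2 * (1 - ν + α * ν) - 2 * ν * (1 + ν) * α * (1 - ν) ^ 2 -
      α / 2 * (ν * (3 - ν) - (1 - ν ^ 2) * (1 + α) / 2) ^ 2)) := by
      rw [hL, hc]
      ring
    have h3 : 0 ≤ ((1 - ν) * s / 2 - k) * (s * (1 + ν) *
          (2 * ν ^ 2 * (1 - ν + α * ν) - α * (ν - c) ^ 2)) :=
      mul_nonneg (by linarith) (mul_nonneg (by positivity) (by linarith))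
    have h4 : 0 ≤ k * (s *
          (2 * (1 + ν) * ν ^ 2 * (1 - ν + α * ν) - 2 * ν * (1 + ν) * α * (1 - ν) ^ 2 -
      α / 2 * (ν * (3 - ν) - (1 - ν ^ 2) * (1 + α) / 2) ^ 2)) :=
      mul_nonneg hk0 (mul_nonneg hs.le hH)
    have h5 : 0 ≤ (1 - ν) * s / 2 * (2 * ν * (1 + ν) * (s * (ν * (1 - ν + α * ν)) -
        2 * α * (1 - ν) * k) - α * L) := by
      rw [e]
      linarith
    have h6 := nonneg_of_mul_nonneg_right h5 (by positivity)
    linarith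
  have hchord : (1 + ν) * (ν * (s + k) - c * (s - k)) ^ 2 ≤ (s - k) * L := by
    have e : (s - k) * L - (1 + ν) * (ν * (s + k) - c * (s - k)) ^ 2 =
        4 * ν ^ 2 * k * ((1 - ν) * s - 2 * k) := by
      rw [hL]
      ring
    have h3 : 0 ≤ 4 * ν ^ 2 * k * ((1 - ν) * s - 2 * k) :=
      mul_nonneg (by positivity) (by linarith)
    linarith
  have h3 : α * ((1 + ν) * (ν * (s + k) - c * (s - k)) ^ 2) ≤ α * ((s - k) * L) :=
    mul_le_mul_of_nonneg_left hchord (by linarith)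
  have h4 : (s - k) * (α * L) ≤
      (s - k) * (2 * ν * (1 + ν) * (s * (ν * (1 - ν + α * ν)) - 2 * α * (1 - ν) * k)) :=
    mul_le_mul_of_nonneg_left hlin hN
  have h5 : (1 + ν) * (α * (ν * (s + k) - c * (s - k)) ^ 2) ≤
      (1 + ν) * (2 * ν * (s - k) * (s * (ν * (1 - ν + α * ν)) - 2 * α * (1 - ν) * k)) := by
    linarith
  exact le_of_mul_le_mul_left h5 (by linarith)

lemma tau_nonneg {q ν u : ℝ} (h1 : 29 / 100 ≤ ν) (h2 : ν < 1) (hq : 2 ≤ q * (3 + ν))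
    (hu : 2 * ν ≤ ν * u * (1 - ν)) : 2 - q - ν - q * (1 - ν) ^ 2 - ν * u ≤ 0 := by
  have hpos : 0 < (1 - ν) * (3 + ν) := mul_pos (by linarith) (by linarith)
  have h1ν : 0 < 1 - ν := by linarith
  have h3 : (2 - q - ν - q * (1 - ν) ^ 2 - ν * u) * ((1 - ν) * (3 + ν)) ≤ 0 := by
    have e1 : (2 - q - ν - q * (1 - ν) ^ 2 - ν * u) * ((1 - ν) * (3 + ν)) =
        (2 - ν) * (1 - ν) * (3 + ν) - (q * (3 + ν)) * ((1 - ν) * (1 + (1 - ν) ^ 2)) -
          (ν * u * (1 - ν)) * (3 + ν) := by ring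
    rw [e1]
    have e2 : 2 * ((1 - ν) * (1 + (1 - ν) ^ 2)) ≤
        (q * (3 + ν)) * ((1 - ν) * (1 + (1 - ν) ^ 2)) :=
      mul_le_mul_of_nonneg_right hq (by positivity)
    have e3 : 2 * ν * (3 + ν) ≤ (ν * u * (1 - ν)) * (3 + ν) :=
      mul_le_mul_of_nonneg_right hu (by linarith)
    have e4 : (2 - ν) * (1 - ν) * (3 + ν) - 2 * ((1 - ν) * (1 + (1 - ν) ^ 2)) -
        2 * ν * (3 + ν) = 2 - 5 * ν - 8 * ν ^ 2 + 3 * ν ^ 3 := by ring
    have e5 : 2 - 5 * ν - 8 * ν ^ 2 + 3 * ν ^ 3 ≤ 0 := by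
      have h5 : 0 ≤ (ν - 29 / 100) ^ 2 * (1 - ν) := by positivity
      have h6 : 0 ≤ (ν - 29 / 100) ^ 2 := sq_nonneg _
      linarith
    linarith
  by_contra hcon
  rw [not_le] at hcon
  have := mul_pos hcon hpos
  linarith

end R3Ax

open R2Ax R3Ax in
theorem stR3A : StR3A := by
  intro D q ν u s p j t w y h hk hy0 hy1 hy2
  have c := cons h
  have hD0 := c.D0
  have hν0 := c.ν0
  have hνu := c.νu
  have hp0 := c.p0
  have hq1 := c.q1
  have hq2 := c.q2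
  have hu1 := c.u1
  have hk2 := c.k2
  have hν1 := h.hν1
  have hj := h.hj
  have ht := h.ht
  have hs := h.hs
  have hw := h.hw
  have hwm := h.hwm
  have h1ν : 0 < 1 - ν := by linarith
  have hs0 : 0 < s := by linarith
  have hu0 : 0 < u := by linarith
  obtain ⟨e, he⟩ : ∃ e : ℝ, e = 5 / D := ⟨_, rfl⟩
  have heD : e * D = 5 := by rw [he]; field_simp
  have he0 : 0 < e := by rw [he]; positivity
  obtain ⟨z, hz⟩ : ∃ z : ℝ, z = u / D := ⟨_, rfl⟩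
  have hzs : z * s = q := by
    rw [hz, div_mul_eq_mul_div, h.hu]
    field_simp
  have hz0 : 0 < z := by rw [hz]; positivity
  -- `y0`
  obtain ⟨y0, hy0'⟩ : ∃ y0 : ℝ, y0 = 1 - ν - (s - 1) / D := ⟨_, rfl⟩
  rw [← hy0'] at hy0 ⊢
  have hy0u : y0 * u = 2 + 2 * p - q + z := by
    have h3 : (s - 1) / D * u = z * s - z := by
      rw [hz]
      field_simp
    have h4 : (1 - ν) * u = 2 + 2 * p := by linarith [h.hp]
    rw [hy0', sub_mul, h3, h4, hzs]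
    ring
  have hyν : y - y0 ≤ ν := by rw [hy0']; linarith
  obtain ⟨cc, hcc⟩ : ∃ cc : ℝ, cc = (1 - ν) * (1 - q / 2) := ⟨_, rfl⟩
  have hcc0 : 0 ≤ cc := by
    rw [hcc]
    exact mul_nonneg h1ν.le (by linarith)
  have hy0c : cc ≤ y0 := by
    -- multiply by `u`
    have h1 : cc * u ≤ y0 * u := by
      rw [hy0u, hcc]
      have h4 : (1 - ν) * (1 - q / 2) * u = ((1 - ν) * u) * (1 - q / 2) := by ring
      rw [h4, h.hp]
      have h5 : 0 ≤ p * q := by positivity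
      linarith
    exact le_of_mul_le_mul_right h1 hu0
  -- `κ`
  obtain ⟨k, hkk⟩ : ∃ k : ℝ, k = j + t := ⟨_, rfl⟩
  have hk0 : 0 ≤ k := by linarith
  rw [← hkk] at hk2
  have hνs : 0 ≤ ν * s := by positivity
  have hN : 0 < s - k := by linarith
  have hM : 0 < s + 1 - k := by linarith
  -- `v`
  obtain ⟨v, hv⟩ : ∃ v : ℝ, v = s - 1 - k - w := ⟨_, rfl⟩
  have hv0 : 0 ≤ v := by linarith
  have hcon : y * (s + 1 - k) ≤ ν * (s - 2 - t - v) := by
    have e1 : s + 1 - j - t = s + 1 - k := by rw [hkk]; ring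
    have e2 : j - 1 + w = s - 2 - t - v := by rw [hv, hkk]; ring
    rw [e1, e2] at hy2
    exact hy2
  -- `ν` is not small
  have hν29 : 29 / 100 ≤ ν := by
    by_contra hc
    rw [not_le] at hc
    have h1 : cc * (s + 1 - k) ≤ y * (s + 1 - k) :=
      mul_le_mul_of_nonneg_right (hy0c.trans hy0) hM.le
    have h2 : ν * (s - 2 - t - v) ≤ ν * s := mul_le_mul_of_nonneg_left (by linarith) hν0.le
    have h3 : cc * ((1 + ν) * s / 2) ≤ cc * (s + 1 - k) :=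
      mul_le_mul_of_nonneg_left (by linarith) hcc0
    have h4 : cc * ((1 + ν) / 2) * s ≤ ν * s := by linarith
    have h5 : cc * ((1 + ν) / 2) ≤ ν := le_of_mul_le_mul_right h4 hs0
    have h6 : (1 - ν) * (23 / 36) ≤ cc := by
      rw [hcc]
      exact mul_le_mul_of_nonneg_left (by linarith) h1ν.le
    have h7 : (1 - ν) * (23 / 36) * ((1 + ν) / 2) ≤ cc * ((1 + ν) / 2) :=
      mul_le_mul_of_nonneg_right h6 (by linarith)
    have h8 : ν ^ 2 ≤ (29 / 100) ^ 2 := pow_le_pow_left₀ hν0.le hc.le 2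
    linarith
  -- the loss in `e`
  have hse : s * e ≤ 5 * q * (1 - ν) / 2 := by
    have h1 : s * e * u = 5 * q := by
      have : s * e * u = e * (u * s) := by ring
      rw [this, h.hu]
      calc e * (q * D) = (e * D) * q := by ring
        _ = 5 * q := by rw [heD]
    have h2 : s * e * 2 ≤ s * e * (u * (1 - ν)) := by
      apply mul_le_mul_of_nonneg_left _ (by positivity)
      have := h.hp
      linarith
    have h3 : s * e * (u * (1 - ν)) = 5 * q * (1 - ν) := by rw [← h1]; ring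
    linarith
  have hXA : XA D q ν u s p j t w ≤ -q + 2 * q * ν * (1 - ν) - 2 * p - 2 * (ν * u) -
      s * (ν * (1 - q * ν)) - j * (2 * p + q + 2 * (1 - q) * ν) -
      t * (u - 2 + ν + q * (1 - ν) ^ 2) - q * (1 - ν) ^ 2 * v + 5 * q * (1 - ν) ^ 2 / 2 := by
    unfold XA
    rw [← he]
    have h2 : (1 - ν) * e * (j - 1 + w) ≤ (1 - ν) * (5 * q * (1 - ν) / 2) := by
      have h3 : e * (j - 1 + w) ≤ e * s := mul_le_mul_of_nonneg_left (by linarith) he0.le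
      have h4 : e * (j - 1 + w) ≤ 5 * q * (1 - ν) / 2 := by linarith
      have := mul_le_mul_of_nonneg_left h4 h1ν.le
      linarith
    have h4 : (1 - ν) * (q * (1 - ν) + e) * (j - 1 + w) =
        q * (1 - ν) ^ 2 * (s - 2 - t - v) + (1 - ν) * e * (j - 1 + w) := by
      rw [hv, hkk]
      ring
    have h5 : (1 + ν) * u = 2 * p + 2 * (ν * u) + 2 := by linarith
    rw [h4, h5]
    linarith
  -- the second term
  have hz2 : z * (k - 1) ≤ q * (1 - ν) / 2 := by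
    have h1 : z * (k - 1) ≤ z * ((1 - ν) * s / 2) :=
      mul_le_mul_of_nonneg_left (by linarith) hz0.le
    have h2 : z * ((1 - ν) * s / 2) = (z * s) * (1 - ν) / 2 := by ring
    rw [h2, hzs] at h1
    exact h1
  -- the last term
  obtain ⟨Y, hY⟩ : ∃ Y : ℝ, Y = y - y0 := ⟨_, rfl⟩
  have hY0 : 0 ≤ Y := by linarith
  obtain ⟨P, hP⟩ : ∃ P : ℝ, P = k + 1 + v := ⟨_, rfl⟩
  have hP0 : 0 < P := by linarith
  obtain ⟨R, hR⟩ : ∃ R : ℝ, R = ν * (s + k) - cc * (s - k) := ⟨_, rfl⟩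
  have hYP : 2 * (1 - q) * (Y * P) ≤ s * (ν * (1 - q * ν)) - 2 * (1 - q) * (1 - ν) * k := by
    have a1 : Y * (s + 1 - k) ≤ R - ν * P := by
      have h1 : Y * (s + 1 - k) = y * (s + 1 - k) - y0 * (s + 1 - k) := by rw [hY]; ring
      have h2 : cc * (s - k) ≤ y0 * (s + 1 - k) := mul_le_mul hy0c (by linarith) hN.le
        (hcc0.trans hy0c)
      have h3 : ν * (s - 2 - t - v) ≤ ν * (s - 1 - v) :=
        mul_le_mul_of_nonneg_left (by linarith) hν0.le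
      rw [h1, hR, hP]
      linarith
    have a2 : Y * (s - k) ≤ R - ν * P := by
      have : 0 ≤ Y * 1 := by linarith
      linarith
    have a3 : 4 * ν * (s - k) * (Y * P) ≤ R ^ 2 := by
      have h1 : (Y * (s - k)) * (4 * ν * P) ≤ (R - ν * P) * (4 * ν * P) :=
        mul_le_mul_of_nonneg_right a2 (by positivity)
      have h2 : (R - ν * P) * (4 * ν * P) = R ^ 2 - (R - 2 * ν * P) ^ 2 := by ring
      have h3 : 0 ≤ (R - 2 * ν * P) ^ 2 := sq_nonneg _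
      linarith
    have a4 := key (ν := ν) (α := 1 - q) (s := s) (k := k) hν29 hν1 (by linarith) (by linarith)
      (by linarith [c.qν1]) hs0 hk0 hk2
    have e1 : (1 - ν) * (1 + (1 - q)) / 2 = cc := by rw [hcc]; ring
    have e2 : 1 - ν + (1 - q) * ν = 1 - q * ν := by ring
    rw [e1, e2, ← hR] at a4
    have a5 : (1 - q) * (4 * ν * (s - k) * (Y * P)) ≤ (1 - q) * R ^ 2 :=
      mul_le_mul_of_nonneg_left a3 (by linarith)
    have a6 : (2 * ν * (s - k)) * (2 * (1 - q) * (Y * P)) ≤ (2 * ν * (s - k)) *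
        (s * (ν * (1 - q * ν)) - 2 * (1 - q) * (1 - ν) * k) := by
      linarith
    exact le_of_mul_le_mul_left a6 (by positivity)
  have hνu3 : 2 * ν ≤ ν * u * (1 - ν) := by
    have : ν * u * (1 - ν) = ν * ((1 - ν) * u) := by ring
    rw [this, h.hp]
    have h5 : 0 ≤ ν * p := by positivity
    linarith
  have htau := tau_nonneg hν29 hν1 c.qν1 hνu3
  have htt : t * (2 - q - ν - q * (1 - ν) ^ 2 - ν * u) ≤ 0 :=
    mul_nonpos_of_nonneg_of_nonpos ht htau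
  have hjk : 2 * (1 - q) * (1 - ν) * j ≤ 2 * (1 - q) * (1 - ν) * k := by
    apply mul_le_mul_of_nonneg_left (by linarith)
    have : 0 ≤ 1 - q := by linarith
    positivity
  have hqv : 0 ≤ q * (1 - ν) ^ 2 * v := by positivity
  have t2 : y0 * u * (j + t - 1) = (2 + 2 * p - q) * (k - 1) + z * (k - 1) := by
    rw [hy0u, hkk]
    ring
  have t3 : 2 * (1 - q) * (y - y0) * (s - w) = 2 * (1 - q) * (Y * P) := by
    rw [hY, hP, hv]
    ring
  rw [t2, t3]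
  -- the constant
  have hνν : ν * (1 - ν) ≤ 1 / 4 := by
    have := sq_nonneg (ν - 1 / 2)
    linarith
  have hqc : 2 * q * ν * (1 - ν) ≤ q / 2 := by
    have : q * (ν * (1 - ν)) ≤ q * (1 / 4) := mul_le_mul_of_nonneg_left hνν (by linarith)
    linarith
  have hq5 : 5 * q * (1 - ν) ^ 2 / 2 ≤ 5 * q * (71 / 100) ^ 2 / 2 := by
    have h3 : (1 - ν) ^ 2 ≤ (71 / 100) ^ 2 := pow_le_pow_left₀ h1ν.le (by linarith) 2
    have h4 : q * (1 - ν) ^ 2 ≤ q * (71 / 100) ^ 2 := mul_le_mul_of_nonneg_left h3 (by linarith)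
    linarith
  have hq6 : q * (1 - ν) / 2 ≤ q / 2 := by
    have : 0 ≤ q * ν := by positivity
    linarith
  have hνu4 : 0 ≤ ν * u := by positivity
  have ej : j * (2 * p + q + 2 * (1 - q) * ν) = j * (2 + 2 * p - q) -
      2 * (1 - q) * (1 - ν) * j := by ring
  have et : t * (u - 2 + ν + q * (1 - ν) ^ 2) = t * (2 + 2 * p - q) -
      t * (2 - q - ν - q * (1 - ν) ^ 2 - ν * u) := by
    rw [hνu]
    ring
  rw [ej, et] at hXA
  have ek : (2 + 2 * p - q) * (k - 1) = j * (2 + 2 * p - q) + t * (2 + 2 * p - q) -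
      (2 + 2 * p - q) := by
    rw [hkk]
    ring
  rw [ek]
  linarith

end Pool.Agent.Helper82.EC2
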