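import Pool.Agent.Helper82.EC2.St

/-!
# MP_47b98d_co, second generation: module Rec2
-/

set_option autoImplicit false

open Finset
open scoped Classical

namespace Pool.Agent.Helper82.EC2

open EC EC.MGraph

namespace Rec2Aux

variable {V E : Type} [Fintype V] [Fintype E] {G : MGraph V E} {D μ : ℕ}

theorem ends_opp {p : V} {f : E} (hf : f ∈ G.inc p) : G.ends f = s(G.opp p f, p) := by
  have h : p ∈ G.ends f := (Finset.mem_filter.1 hf).2
  rw [MGraph.opp, dif_pos h, Sym2.eq_swap]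
  exact (Sym2.other_spec h).symm

theorem deg_add (dt : Data G D μ) {p : V} {f : E} (hf : f ∈ G.inc p) :
    D + 2 ≤ G.deg (G.opp p f) + G.deg p := by
  obtain ⟨F, hF⟩ := dt.anyfan f _ _ (ends_opp hf)
  have := hF.sum_le
  omega

theorem deg_pos (dt : Data G D μ) (p : V) : 1 ≤ G.deg p := by
  have : dt.ee p ∈ G.inc p := by
    refine Finset.mem_filter.2 ⟨Finset.mem_univ _, ?_⟩
    rw [dt.ends_eq p]
    exact Sym2.mem_mk_right _ _
  exact Finset.card_pos.2 ⟨_, this⟩

end Rec2Aux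

open Rec2Aux

theorem stRec2 (hShare : StShare) : StRec2 := by
  intro V E _ _ G D μ dt Q hT p hp
  have hlo := hT.lo
  have hhi := hT.hi
  have hp1 : (1 : ℝ) ≤ G.deg p := by exact_mod_cast deg_pos dt p
  by_cases hsm : (G.deg p : ℝ) + Q < D + 1
  · have h1 : ∀ f ∈ G.inc p, pay G D Q (G.opp p f) p = Q / G.deg p - 1 := by
      intro f hf
      have h2 : ((D + 2 : ℕ) : ℝ) ≤ ((G.deg (G.opp p f) + G.deg p : ℕ) : ℝ) := by
        exact_mod_cast deg_add dt hf
      push_cast at h2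
      rw [pay, if_pos ⟨by linarith, hp⟩, if_pos hsm]
    rw [Finset.sum_congr rfl h1, Finset.sum_const, nsmul_eq_mul]
    have h3 : ((G.inc p).card : ℝ) = G.deg p := rfl
    rw [h3]
    field_simp
  · have hm : (D : ℝ) + 1 ≤ G.deg p + Q := not_lt.1 hsm
    have hS := hShare V E G D μ dt Q hT p hm hp
    have hSpos : 0 < SH G D Q p := by linarith
    have h1 : ∀ f ∈ G.inc p, pay G D Q (G.opp p f) p =
        (Q - G.deg p) / SH G D Q p * hh D Q (G.deg (G.opp p f)) (G.deg p) := by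
      intro f hf
      by_cases hr : Q ≤ G.deg (G.opp p f)
      · rw [pay, if_pos ⟨hr, hp⟩, if_neg hsm]
      · rw [pay, if_neg (by tauto), hh, if_neg hr, mul_zero]
    rw [Finset.sum_congr rfl h1, ← Finset.mul_sum]
    have h4 : ∑ f ∈ G.inc p, hh D Q (G.deg (G.opp p f)) (G.deg p) = SH G D Q p := rfl
    rw [h4]
    exact div_mul_cancel₀ _ hSpos.ne'

end Pool.Agent.Helper82.EC2
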