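import Pool.Agent.Helper82.EC2.St

/-!
# EC2 module Share: a medium vertex has many shares
-/

set_option autoImplicit false

open Finset
open scoped Classical

namespace Pool.Agent.Helper82.EC2

open EC EC.MGraph

namespace ShareMod

variable {V E : Type} [Fintype V] [Fintype E] {G : MGraph V E} {D μ : ℕ}

theorem key_frac {m t b : ℝ} (_ : 0 ≤ m) (ht : 0 ≤ t) (hmb : m ≤ b - t) (hb : 0 < b - t) :
    m / (b - t) ≤ (m + t) / b := by
  have hb0 : 0 < b := by linarith
  rw [div_le_div_iff₀ hb hb0]
  nlinarith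

theorem medium (dt : Data G D μ) {Q : ℝ} (hQ : Thr D Q) {p : V} (hp : (D : ℝ) + 1 ≤ G.deg p + Q) :
    2 * (D : ℝ) + 2 - 2 * Q - G.deg p ≤
      ∑ f ∈ G.inc p, hh D Q (G.deg (G.opp p f)) (G.deg p) := by
  set y0 := dt.xx p with hy0
  set F := dt.FF p with hF
  have hfan := dt.fan p
  rw [← hF, ← hy0] at hfan
  set a : ℝ := (D : ℝ) - Q with ha
  set b : ℝ := (G.deg p : ℝ) - 1 with hb
  set T : V → ℝ := fun v => (D : ℝ) - G.deg v with hT
  have hT0 : ∀ v, 0 ≤ T v := fun v => by
    have : (G.deg v : ℝ) ≤ D := by exact_mod_cast dt.deg_le v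
    simp only [hT]; linarith
  have ha0 : 0 ≤ a := by
    have : (2 : ℝ) ≤ D := by exact_mod_cast hQ.two_le
    have h2 := hQ.hi
    rw [ha]; linarith
  have hab : a ≤ b := by
    rw [ha, hb]; linarith
  -- the payments
  have hpay : ∀ u : V, hh D Q (G.deg u) (G.deg p) = if T u ≤ a then (a - T u) / (b - T u) else 0 := by
    intro u
    rw [hh]
    have e1 : (G.deg u : ℝ) - Q = a - T u := by
      simp only [hT]; rw [ha]; ring
    have e2 : (G.deg u : ℝ) + G.deg p - D - 1 = b - T u := by
      simp only [hT]; rw [hb]; ring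
    rw [e1, e2]
    by_cases h1 : Q ≤ G.deg u
    · rw [if_pos h1, if_pos (by linarith)]
    · rw [if_neg h1, if_neg]
      intro h2
      apply h1
      linarith
  simp only [hpay]
  -- the fan
  have hcard : (F.card : ℝ) = T y0 + 1 := by
    have h1 := hfan.card_eq
    have h2 : ((F.card + G.deg y0 : ℕ) : ℝ) = ((D + 1 : ℕ) : ℝ) := by rw [h1]
    push_cast at h2
    simp only [hT]; linarith
  have hsum : ∑ v ∈ F.image (G.opp p), T v + T y0 + 1 ≤ b := by
    have h1 := hfan.sum_le
    have h2 : ((∑ v ∈ F.image (G.opp p), (D - G.deg v) + D + 2 : ℕ) : ℝ) ≤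
        ((G.deg y0 + G.deg p : ℕ) : ℝ) := by exact_mod_cast h1
    push_cast at h2
    have h3 : ∑ v ∈ F.image (G.opp p), ((D - G.deg v : ℕ) : ℝ) = ∑ v ∈ F.image (G.opp p), T v := by
      refine Finset.sum_congr rfl fun v _ => ?_
      rw [Nat.cast_sub (dt.deg_le v)]
    rw [h3] at h2
    simp only [hT] at h2 ⊢
    rw [hb]; linarith
  have hNz : ∀ z ∈ F.image (G.opp p), T z + T y0 + 1 ≤ b := by
    intro z hz
    have := Finset.single_le_sum (f := T) (fun v _ => hT0 v) hz
    linarith
  -- (*)
  have hstar : ∑ f ∈ F, 1 / (b - T (G.opp p f)) ≤ 1 := by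
    have h1 : ∑ f ∈ F, 1 / (b - T (G.opp p f)) =
        ∑ z ∈ F.image (G.opp p), ∑ f ∈ F with G.opp p f = z, 1 / (b - T (G.opp p f)) :=
      (Finset.sum_fiberwise_of_maps_to (fun f hf => Finset.mem_image_of_mem _ hf) _).symm
    have h2 : ∀ z ∈ F.image (G.opp p), ∑ f ∈ F with G.opp p f = z, 1 / (b - T (G.opp p f)) ≤
        (((F.filter fun f => G.opp p f = z).card : ℝ) + T z) / b := by
      intro z hz
      have h3 : ∑ f ∈ F with G.opp p f = z, 1 / (b - T (G.opp p f)) =
          ((F.filter fun f => G.opp p f = z).card : ℝ) / (b - T z) := by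
        rw [Finset.sum_congr rfl (g := fun _ => 1 / (b - T z))]
        · rw [Finset.sum_const, nsmul_eq_mul, mul_one_div]
        · intro f hf
          rw [(Finset.mem_filter.1 hf).2]
      rw [h3]
      have h4 : ((F.filter fun f => G.opp p f = z).card : ℝ) ≤ F.card := by
        exact_mod_cast Finset.card_filter_le _ _
      have h5 := hNz z hz
      apply key_frac (by positivity) (hT0 z)
      · linarith
      · have := hT0 y0
        linarith
    have hy00 := hT0 y0
    have hb0 : 0 < b := by
      have : 0 ≤ ∑ v ∈ F.image (G.opp p), T v := Finset.sum_nonneg fun v _ => hT0 v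
      linarith
    have h6 : ∑ z ∈ F.image (G.opp p), ((F.filter fun f => G.opp p f = z).card : ℝ) = F.card := by
      have := Finset.card_eq_sum_card_fiberwise (f := G.opp p) (s := F) (t := F.image (G.opp p))
        (fun f hf => Finset.mem_image_of_mem _ hf)
      rw [this]
      push_cast
      rfl
    calc ∑ f ∈ F, 1 / (b - T (G.opp p f))
        ≤ ∑ z ∈ F.image (G.opp p), (((F.filter fun f => G.opp p f = z).card : ℝ) + T z) / b := by
          rw [h1]; exact Finset.sum_le_sum h2
      _ = (F.card + ∑ z ∈ F.image (G.opp p), T z) / b := by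
          rw [← Finset.sum_div, Finset.sum_add_distrib, h6]
      _ ≤ 1 := by
          rw [div_le_one hb0, hcard]
          linarith
  -- the edges of the fan
  have hH : ∀ z, 0 < b - T z →
      1 - (b - a) * (1 / (b - T z)) ≤ if T z ≤ a then (a - T z) / (b - T z) else 0 := by
    intro z hz
    have e : 1 - (b - a) * (1 / (b - T z)) = (a - T z) / (b - T z) := by
      field_simp
      ring
    rw [e]
    split_ifs with h
    · exact le_rfl
    · exact div_nonpos_of_nonpos_of_nonneg (by linarith) hz.le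
  have hH0 : ∀ z, T z ≤ b → 0 ≤ if T z ≤ a then (a - T z) / (b - T z) else 0 := by
    intro z hz
    split_ifs with h
    · exact div_nonneg (by linarith) (by linarith)
    · exact le_rfl
  have hy00 := hT0 y0
  have hs0 : 0 ≤ ∑ v ∈ F.image (G.opp p), T v := Finset.sum_nonneg fun v _ => hT0 v
  have hby : 1 ≤ b - T y0 := by linarith
  have hfan1 : T y0 + 1 - (b - a) ≤
      ∑ f ∈ F, if T (G.opp p f) ≤ a then (a - T (G.opp p f)) / (b - T (G.opp p f)) else 0 := by
    calc T y0 + 1 - (b - a) ≤ F.card - (b - a) * ∑ f ∈ F, 1 / (b - T (G.opp p f)) := by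
          rw [hcard]
          have := mul_le_mul_of_nonneg_left hstar (by linarith : 0 ≤ b - a)
          linarith
      _ = ∑ f ∈ F, (1 - (b - a) * (1 / (b - T (G.opp p f)))) := by
          rw [Finset.sum_sub_distrib, Finset.mul_sum]
          simp
      _ ≤ _ := by
          refine Finset.sum_le_sum fun f hf => hH _ ?_
          have := hNz _ (Finset.mem_image_of_mem _ hf)
          linarith
  -- the other edges
  have hmin : ∀ f ∈ G.inc p, T (G.opp p f) ≤ T y0 := by
    intro f hf
    have h1 : (G.deg y0 : ℝ) ≤ G.deg (G.opp p f) := by exact_mod_cast dt.min_deg p f hf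
    simp only [hT]; linarith
  have hcard2 : ((G.inc p \ F).card : ℝ) = b - T y0 := by
    have h1 := Finset.card_sdiff_add_card_eq_card hfan.sub
    have h2 : (((G.inc p \ F).card + F.card : ℕ) : ℝ) = ((G.inc p).card : ℝ) := by rw [h1]
    push_cast at h2
    have h3 : ((G.inc p).card : ℝ) = G.deg p := rfl
    rw [h3, hcard] at h2
    rw [hb]; linarith
  rw [← Finset.sum_sdiff hfan.sub]
  have hgoal : 2 * (D : ℝ) + 2 - 2 * Q - G.deg p = 2 * a + 1 - b := by
    rw [ha, hb]; ring
  rw [hgoal]
  rcases le_or_gt (T y0) a with hc | hc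
  · have h1 : a - T y0 ≤ ∑ f ∈ G.inc p \ F,
        if T (G.opp p f) ≤ a then (a - T (G.opp p f)) / (b - T (G.opp p f)) else 0 := by
      have h2 : ∀ f ∈ G.inc p \ F, (a - T y0) / (b - T y0) ≤
          if T (G.opp p f) ≤ a then (a - T (G.opp p f)) / (b - T (G.opp p f)) else 0 := by
        intro f hf
        have h3 := hmin f (Finset.mem_sdiff.1 hf).1
        rw [if_pos (h3.trans hc)]
        rw [div_le_div_iff₀ (by linarith) (by linarith)]
        nlinarith
      calc a - T y0 = ∑ f ∈ G.inc p \ F, (a - T y0) / (b - T y0) := by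
            rw [Finset.sum_const, nsmul_eq_mul, hcard2]
            field_simp
        _ ≤ _ := Finset.sum_le_sum h2
    linarith
  · have h1 : 0 ≤ ∑ f ∈ G.inc p \ F,
        if T (G.opp p f) ≤ a then (a - T (G.opp p f)) / (b - T (G.opp p f)) else 0 := by
      refine Finset.sum_nonneg fun f hf => hH0 _ ?_
      have h3 := hmin f (Finset.mem_sdiff.1 hf).1
      linarith
    linarith

end ShareMod

theorem stShare : StShare := by
  intro V E _ _ G D μ dt Q hQ p hp _
  exact ShareMod.medium dt hQ hp

end Pool.Agent.Helper82.EC2
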