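import Pool.Agent.Helper82.EC2.St
import Pool.Agent.Helper82.EC.M_Dart

/-!
# MP_47b98d_co, second generation: the discharging summation
-/

set_option autoImplicit false

open Finset
open scoped Classical

namespace Pool.Agent.Helper82.EC2

open EC EC.MGraph

namespace Sum2Aux

variable {V E : Type} [Fintype V] [Fintype E] (G : MGraph V E)

lemma mem_inc {v : V} {f : E} : f ∈ G.inc v ↔ v ∈ G.ends f := by
  simp [MGraph.inc]

lemma opp_eq {v : V} {f : E} (h : v ∈ G.ends f) : G.opp v f = Sym2.Mem.other h := by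
  rw [MGraph.opp, dif_pos h]

lemma opp_mem {v : V} {f : E} (h : v ∈ G.ends f) : G.opp v f ∈ G.ends f := by
  rw [opp_eq G h]
  exact Sym2.other_mem h

lemma opp_opp {v : V} {f : E} (h : v ∈ G.ends f) : G.opp (G.opp v f) f = v := by
  rw [opp_eq G (opp_mem G h)]
  have h1 := opp_eq G h
  have h2 : Sym2.Mem.other h ∈ G.ends f := Sym2.other_mem h
  have h3 := Sym2.other_invol h h2
  convert h3

end Sum2Aux

open Sum2Aux

theorem stSum2 (hPay : StPay) (hRec : StRec2) (hMp : StMp2) (hAc : StAc2) (hDebt : StDebt2) :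
    StSum2 := by
  intro V E _ _ G D μ dt Q hT hGood
  have hDart : StDart := stDart
  have hD2 : (2 : ℝ) ≤ D := by exact_mod_cast hT.two_le
  have hDpos : (0 : ℝ) < D := by linarith
  have hQD : Q ≤ D := by linarith [hT.hi]
  have hal : 0 ≤ al D Q := by
    unfold al
    exact div_nonneg (by linarith) hDpos.le
  -- step 1
  have hpay0 : ∀ u p : V, ¬ (Q ≤ G.deg u) → pay G D Q u p = 0 := by
    intro u p h
    rw [pay, if_neg (by tauto)]
  have hpay1 : ∀ u p : V, Q ≤ G.deg p → pay G D Q u p = 0 := by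
    intro u p h
    rw [pay, if_neg]
    rintro ⟨-, h2⟩
    linarith
  have hQ0 : ∀ v, ¬ (Q ≤ G.deg v) → QQ G D Q v = 0 := by
    intro v hv
    rw [QQ]
    exact Finset.sum_eq_zero fun f _ => hpay0 _ _ hv
  have hstep1 : ∑ v : V, QQ G D Q v = ∑ v : V, ∑ f ∈ G.inc v, pay G D Q (G.opp v f) v := by
    have h := hDart V E G (fun v f => pay G D Q v (G.opp v f))
    have h2 : ∑ v : V, QQ G D Q v = ∑ v : V, ∑ f ∈ G.inc v, pay G D Q v (G.opp v f) := rfl
    rw [h2, h]
    apply Finset.sum_congr rfl
    intro v _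
    apply Finset.sum_congr rfl
    intro f hf
    rw [opp_opp G ((mem_inc G).1 hf)]
  have hv : ∀ v : V, (if Q ≤ G.deg v then (G.deg v : ℝ) - Q else 0) -
      ∑ f ∈ G.inc v, pay G D Q (G.opp v f) v ≤ (G.deg v : ℝ) - Q := by
    intro v
    by_cases h : Q ≤ G.deg v
    · rw [if_pos h, Finset.sum_eq_zero fun f _ => hpay1 _ _ h]
      linarith
    · rw [if_neg h]
      have := hRec V E G D μ dt Q hT v (not_le.1 h)
      linarith
  have hstep2 : ∑ v : V, ((if Q ≤ G.deg v then (G.deg v : ℝ) - Q else 0) - QQ G D Q v) ≤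
      ∑ v : V, ((G.deg v : ℝ) - Q) := by
    calc _ = ∑ v : V, ((if Q ≤ G.deg v then (G.deg v : ℝ) - Q else 0) -
          ∑ f ∈ G.inc v, pay G D Q (G.opp v f) v) := by
          rw [Finset.sum_sub_distrib, Finset.sum_sub_distrib, hstep1]
      _ ≤ _ := Finset.sum_le_sum fun v _ => hv v
  -- the debtors
  let Deb : V → Prop := fun w => Q ≤ G.deg w ∧ Sm dt Q w ∧ spare dt Q w < 0
  let q : V → E → ℝ := fun u f =>
    if Deb (G.opp u f) ∧ f ∈ dt.FF (G.opp u f) then tau dt Q (G.opp u f) f else 0
  have hFFinc : ∀ u, dt.FF u ⊆ G.inc u := fun u => (dt.fan u).sub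
  have hFFcard : ∀ u, ((dt.FF u).card : ℝ) = (D : ℝ) - G.deg (dt.xx u) + 1 := by
    intro u
    have h := (dt.fan u).card_eq
    have : ((dt.FF u).card : ℝ) + G.deg (dt.xx u) = D + 1 := by exact_mod_cast h
    linarith
  have hFFpos : ∀ u, (0 : ℝ) < (D : ℝ) - G.deg (dt.xx u) + 1 := by
    intro u
    have : (G.deg (dt.xx u) : ℝ) ≤ D := by exact_mod_cast dt.deg_le (dt.xx u)
    linarith
  have htau : ∀ u f, f ∈ G.inc u → tau dt Q (G.opp u f) f =
      if Sm dt Q u ∧ f ∉ dt.FF u then al D Q else kap dt Q u := by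
    intro u f hf
    rw [tau, opp_opp G ((mem_inc G).1 hf)]
  -- main claim for a rich vertex
  have hmain : ∀ u, Q ≤ G.deg u →
      ∑ f ∈ G.inc u, q u f + (if Deb u then spare dt Q u else 0) ≤
      (G.deg u : ℝ) - Q - QQ G D Q u := by
    intro u hu
    by_cases hS : Sm dt Q u
    · have hsp : spare dt Q u = (G.deg u : ℝ) - Q - QQ G D Q u - al D Q * jj dt Q u := by
        rw [spare, if_pos hS]
      have hkap : kap dt Q u = max 0 (spare dt Q u) / ((D : ℝ) - G.deg (dt.xx u) + 1) := by
        rw [kap, if_pos hS]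
      have hkap0 : 0 ≤ kap dt Q u := by
        rw [hkap]; exact div_nonneg (le_max_left _ _) (hFFpos u).le
      have hq : ∀ f ∈ G.inc u, q u f ≤
          (if f ∉ dt.FF u ∧ Q ≤ G.deg (G.opp u f) then al D Q else 0) +
            (if f ∈ dt.FF u then kap dt Q u else 0) := by
        intro f hf
        have h0 : 0 ≤ (if f ∉ dt.FF u ∧ Q ≤ G.deg (G.opp u f) then al D Q else 0) := by
          split_ifs <;> simp [hal]
        have h1 : 0 ≤ (if f ∈ dt.FF u then kap dt Q u else 0) := by
          split_ifs <;> simp [hkap0]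
        show (if Deb (G.opp u f) ∧ f ∈ dt.FF (G.opp u f) then tau dt Q (G.opp u f) f else 0) ≤ _
        by_cases hc : Deb (G.opp u f) ∧ f ∈ dt.FF (G.opp u f)
        · rw [if_pos hc, htau u f hf]
          by_cases hf2 : f ∈ dt.FF u
          · rw [if_neg (by tauto), if_neg (by tauto), if_pos hf2, zero_add]
          · rw [if_pos ⟨hS, hf2⟩, if_pos ⟨hf2, hc.1.1⟩, if_neg hf2, add_zero]
        · rw [if_neg hc]; linarith
      have hsum : ∑ f ∈ G.inc u, q u f ≤ al D Q * jj dt Q u + max 0 (spare dt Q u) := by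
        calc ∑ f ∈ G.inc u, q u f ≤ ∑ f ∈ G.inc u,
              ((if f ∉ dt.FF u ∧ Q ≤ G.deg (G.opp u f) then al D Q else 0) +
                (if f ∈ dt.FF u then kap dt Q u else 0)) := Finset.sum_le_sum hq
          _ = al D Q * jj dt Q u + max 0 (spare dt Q u) := by
            rw [Finset.sum_add_distrib, ← Finset.sum_filter, ← Finset.sum_filter,
              Finset.sum_const, Finset.sum_const, Finset.filter_mem_eq_inter,
              Finset.inter_eq_right.2 (hFFinc u), nsmul_eq_mul, nsmul_eq_mul, hFFcard, hkap,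
              mul_div_cancel₀ _ (hFFpos u).ne']
            rw [jj, mul_comm]
      have hmm : max 0 (spare dt Q u) + (if Deb u then spare dt Q u else 0) ≤ spare dt Q u := by
        by_cases h : spare dt Q u < 0
        · rw [if_pos ⟨hu, hS, h⟩, max_eq_left h.le, zero_add]
        · rw [if_neg (by intro h2; exact h h2.2.2), max_eq_right (not_lt.1 h), add_zero]
      linarith
    · have hsp : spare dt Q u = (G.deg u : ℝ) - Q - QQ G D Q u := by
        rw [spare, if_neg hS, sub_zero]
      have hkap : kap dt Q u = spare dt Q u / D := by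
        rw [kap, if_neg hS]
      have hsp0 : 0 ≤ spare dt Q u := by
        have := hMp V E G D μ dt Q hT u hu hS
        rw [hsp]; linarith
      have hkap0 : 0 ≤ kap dt Q u := by
        rw [hkap]; exact div_nonneg hsp0 (by linarith)
      have hq : ∀ f ∈ G.inc u, q u f ≤ kap dt Q u := by
        intro f hf
        show (if Deb (G.opp u f) ∧ f ∈ dt.FF (G.opp u f) then tau dt Q (G.opp u f) f else 0) ≤ _
        by_cases hc : Deb (G.opp u f) ∧ f ∈ dt.FF (G.opp u f)
        · rw [if_pos hc, htau u f hf, if_neg (by tauto)]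
        · rw [if_neg hc]; exact hkap0
      have hsum : ∑ f ∈ G.inc u, q u f ≤ spare dt Q u := by
        calc ∑ f ∈ G.inc u, q u f ≤ ∑ _f ∈ G.inc u, kap dt Q u := Finset.sum_le_sum hq
          _ = (G.deg u : ℝ) * (spare dt Q u / D) := by
            rw [Finset.sum_const, nsmul_eq_mul, hkap]; rfl
          _ ≤ (D : ℝ) * (spare dt Q u / D) := by
            apply mul_le_mul_of_nonneg_right
            · exact_mod_cast dt.deg_le u
            · exact div_nonneg hsp0 (by linarith)
          _ = spare dt Q u := by field_simp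
      rw [if_neg (by intro h2; exact hS h2.2.1), add_zero]
      linarith
  -- poor vertices are given nothing
  have hpoor : ∀ u, ¬ (Q ≤ G.deg u) → ∑ f ∈ G.inc u, q u f = 0 := by
    intro u hu
    apply Finset.sum_eq_zero
    intro f hf
    show (if Deb (G.opp u f) ∧ f ∈ dt.FF (G.opp u f) then tau dt Q (G.opp u f) f else 0) = 0
    rw [if_neg]
    rintro ⟨hc, hf2⟩
    have := (hAc V E G D μ dt Q hT (G.opp u f) hc.1 hc.2.1).1 f hf2
    rw [opp_opp G ((mem_inc G).1 hf)] at this
    exact hu this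
  have hstep3 : ∑ u : V, (∑ f ∈ G.inc u, q u f + (if Deb u then spare dt Q u else 0)) ≤
      ∑ v : V, ((if Q ≤ G.deg v then (G.deg v : ℝ) - Q else 0) - QQ G D Q v) := by
    apply Finset.sum_le_sum
    intro u _
    by_cases hu : Q ≤ G.deg u
    · rw [if_pos hu]
      exact hmain u hu
    · rw [if_neg hu, hpoor u hu, if_neg (by intro h; exact hu h.1), hQ0 u hu]
      simp
  have hstep4 : ∑ u : V, ∑ f ∈ G.inc u, q u f =
      ∑ u : V, if Deb u then ∑ f ∈ dt.FF u, tau dt Q u f else 0 := by
    rw [hDart V E G q]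
    apply Finset.sum_congr rfl
    intro u _
    by_cases hu : Deb u
    · rw [if_pos hu, ← Finset.sum_subset (hFFinc u)]
      · apply Finset.sum_congr rfl
        intro f hf
        have hf2 := (mem_inc G).1 (hFFinc u hf)
        show (if Deb (G.opp (G.opp u f) f) ∧ f ∈ dt.FF (G.opp (G.opp u f) f) then
          tau dt Q (G.opp (G.opp u f) f) f else 0) = _
        rw [opp_opp G hf2, if_pos ⟨hu, hf⟩]
      · intro f hf hf3
        have hf2 := (mem_inc G).1 hf
        show (if Deb (G.opp (G.opp u f) f) ∧ f ∈ dt.FF (G.opp (G.opp u f) f) then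
          tau dt Q (G.opp (G.opp u f) f) f else 0) = _
        rw [opp_opp G hf2, if_neg (by tauto)]
    · rw [if_neg hu]
      apply Finset.sum_eq_zero
      intro f hf
      have hf2 := (mem_inc G).1 hf
      show (if Deb (G.opp (G.opp u f) f) ∧ f ∈ dt.FF (G.opp (G.opp u f) f) then
        tau dt Q (G.opp (G.opp u f) f) f else 0) = _
      rw [opp_opp G hf2, if_neg (by tauto)]
  have hstep5 : 0 ≤
      ∑ u : V, (∑ f ∈ G.inc u, q u f + (if Deb u then spare dt Q u else 0)) := by
    rw [Finset.sum_add_distrib, hstep4, ← Finset.sum_add_distrib]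
    apply Finset.sum_nonneg
    intro u _
    by_cases hu : Deb u
    · rw [if_pos hu, if_pos hu]
      have hS := hu.2.1
      have := hDebt V E G D μ dt Q hT u hu.1 hu.2.1 (hGood _ hS) hu.2.2
      linarith
    · rw [if_neg hu, if_neg hu]
      linarith
  linarith

end Pool.Agent.Helper82.EC2
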