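import Pool.Agent.Helper82.EC2.Crit3
import Pool.Agent.Helper82.EC.All
import Pool.Agent.Helper82.EC2.M_Share
import Pool.Agent.Helper82.EC2.M_Pay
import Pool.Agent.Helper82.EC2.M_Rec2
import Pool.Agent.Helper82.EC2.M_Mp2
import Pool.Agent.Helper82.EC2.M_Ac2
import Pool.Agent.Helper82.EC2.M_Loss2
import Pool.Agent.Helper82.EC2.M_FL
import Pool.Agent.Helper82.EC2.M_Debt2
import Pool.Agent.Helper82.EC2.M_Sum2
import Pool.Agent.Helper82.EC2.M_FRA
import Pool.Agent.Helper82.EC2.M_LA
import Pool.Agent.Helper82.EC2.M_OA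
import Pool.Agent.Helper82.EC2.M_R1A
import Pool.Agent.Helper82.EC2.M_R2A
import Pool.Agent.Helper82.EC2.M_R3A
import Pool.Agent.Helper82.EC2.M_NA

/-!
# MP_47b98d_co, second generation: everything together (all multiplicities)
-/

set_option autoImplicit false

open scoped Classical

namespace Pool.Agent.Helper82.EC2

open EC EC.MGraph

theorem all_Share : StShare := stShare
theorem all_Pay : StPay := stPay all_Share
theorem all_Rec2 : StRec2 := stRec2 all_Share
theorem all_Mp2 : StMp2 := stMp2 all_Share all_Pay all_Rec2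
theorem all_Ac2 : StAc2 := stAc2
theorem all_Loss2 : StLoss2 := stLoss2 all_Pay all_Ac2
theorem all_FL : StFL := stFL
theorem all_Debt2 : StDebt2 := stDebt2 all_Pay all_Ac2 all_Loss2 all_FL
theorem all_Sum2 : StSum2 := stSum2 all_Pay all_Rec2 all_Mp2 all_Ac2 all_Debt2
theorem all_NA : StNA := stNA stFRA stLA stOA stR1A stR2A stR3A

end Pool.Agent.Helper82.EC2
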