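import Pool.Agent.Helper82.EC2.StN

/-!
# EC2 module LE: from natural numbers to the normalised form, threshold `(2 D + 2) / 3`
-/

set_option autoImplicit false

open Finset
open scoped Classical

namespace Pool.Agent.Helper82.EC2

theorem stLE : StLE := by
  intro D μ s m j t w hD2 hμ1 hs1 hsD hμs hm hm1 hEE hw1 hwμ hwm
  have hDR : (2 : ℝ) ≤ D := by exact_mod_cast hD2
  have hD0 : (0 : ℝ) < D := by linarith
  have hμR : (1 : ℝ) ≤ μ := by exact_mod_cast hμ1
  have hsR : (1 : ℝ) ≤ s := by exact_mod_cast hs1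
  have hs0 : (0 : ℝ) < s := by linarith
  have hsDR : 3 * (s : ℝ) ≤ D := by exact_mod_cast hsD
  have hmR : (m : ℝ) + j + t + 1 = s := by exact_mod_cast hm
  have hm1R : (1 : ℝ) ≤ m := by exact_mod_cast hm1
  have hw1R : (1 : ℝ) ≤ w := by exact_mod_cast hw1
  have hwμR : (w : ℝ) ≤ μ := by exact_mod_cast hwμ
  have hwmR : (w : ℝ) ≤ m := by exact_mod_cast hwm
  have hj0 : (0 : ℝ) ≤ j := Nat.cast_nonneg j
  have ht0 : (0 : ℝ) ≤ t := Nat.cast_nonneg t
  set Q : ℝ := qE D with hQdef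
  have hQ : 3 * Q = 2 * ((D : ℝ) + 1) := by rw [hQdef, qE]; ring
  obtain ⟨q, hq⟩ : ∃ q : ℝ, q = Q / D := ⟨_, rfl⟩
  obtain ⟨ν, hν⟩ : ∃ ν : ℝ, ν = (μ : ℝ) / D := ⟨_, rfl⟩
  obtain ⟨u, hu⟩ : ∃ u : ℝ, u = Q / s := ⟨_, rfl⟩
  have hqD : q * D = Q := by rw [hq]; field_simp
  have hνD : ν * D = μ := by rw [hν]; field_simp
  have hus : u * s = Q := by rw [hu]; field_simp
  have hal : al D Q = 1 - q := by rw [al, hq]; field_simp
  have hdl : dl D Q = 2 * (1 - q) / D := by rw [dl, hq]; field_simp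
  have hgg : gg Q s = u - 1 := by rw [gg, hu]
  have hmE : (m : ℝ) = s - 1 - j - t := by linarith
  have hEEe : EE D Q s m j t = ((D : ℝ) + 1) / 3 - s - (u - 2) * (j + t + 1) - q * j := by
    rw [EE, hgg, hal, hmE]
    linear_combination (1 : ℝ) * hus + (2 / 3 : ℝ) * hQ
  have hEE' : 0 < ((D : ℝ) + 1) / 3 - s - (u - 2) * (j + t + 1) - q * j := by
    rw [← hEEe]; exact hEE
  have hs3 : 3 ≤ s := by
    rcases Nat.lt_or_ge 2 s with h | h
    · omega
    · exfalso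
      have h2 : s = 2 := by omega
      have h3 : j = 0 := by omega
      have h4 : t = 0 := by omega
      rw [h2, h3, h4] at hEE'
      rw [h2] at hus
      push_cast at hEE' hus
      linarith
  have hs3R : (3 : ℝ) ≤ s := by exact_mod_cast hs3
  have hμn : (μ : ℝ) ≤ (D : ℝ) + 1 - s := by
    rcases hμs with h | h
    · have : 9 * (μ : ℝ) ≤ 4 * s := by exact_mod_cast h
      linarith
    · have h1 : 3 * (μ + 2) ≤ D := (Nat.mul_le_mul_right _ hs3).trans h
      have h2 : 3 * ((μ : ℝ) + 2) ≤ D := by exact_mod_cast h1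
      linarith
  have hn : 0 < (D : ℝ) + 1 - s := by linarith
  refine ⟨⟨by linarith, ?_, ?_, ?_, hs3R, hsDR, hj0, ht0, hw1R, by linarith, ?_, ?_⟩, hμn, ?_⟩
  · rw [← hν, hνD]; exact hμR
  · rw [← hq, hqD]; exact hQ
  · rw [← hu, ← hq, hus, hqD]
  · rw [← hν, hνD]; exact hwμR
  · rw [← hu, ← hq]; linarith
  · rw [← hu, ← hq, ← hν]
    have hC : Q / D / s - dl D Q = (u - 2 * (1 - q)) / D := by
      rw [hdl, hu]
      field_simp
    have hW0 : 0 ≤ WE D := by rw [WE]; positivity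
    have hT : T0 D μ Q s m j t w (WE D) = XE D q ν u s j t w -
        ((μ : ℝ) / ((D : ℝ) + 1 - s) - ν) * WE D * (j - 1 + w) := by
      rw [T0, XE, hEEe, hal, hC, ← WE]
      have e1 : (μ : ℝ) * (((s : ℝ) - w) * ((u - 2 * (1 - q)) / D) +
          (j - 1 + w) * ((u - 2 * (1 - q)) / D - WE D / ((D : ℝ) + 1 - s))) =
          ν * (u - 2 * (1 - q)) * (s + j - 1) -
            (μ : ℝ) / ((D : ℝ) + 1 - s) * WE D * (j - 1 + w) := by
        rw [hν]
        field_simp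
        ring
      have e2 : (μ : ℝ) * ((s : ℝ) - 2 - t) / D = ν * (s - 2 - t) := by
        rw [hν]; ring
      rw [e1, e2]
      linear_combination (1 : ℝ) * hqD + (1 / 3 : ℝ) * hQ
    rw [hT]
    have h1 : 0 ≤ (μ : ℝ) / ((D : ℝ) + 1 - s) - ν := by
      rw [sub_nonneg, hν]
      exact div_le_div_of_nonneg_left (by linarith) hn (by linarith)
    have h2 : 0 ≤ ((μ : ℝ) / ((D : ℝ) + 1 - s) - ν) * WE D * (j - 1 + w) :=
      mul_nonneg (mul_nonneg h1 hW0) (by linarith)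
    linarith

end Pool.Agent.Helper82.EC2
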