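import Pool.Agent.Helper82.EC2.StN

/-!
# EC2 module OE: the conditions on `ω` for the threshold `(2 D + 2) / 3`
-/

set_option autoImplicit false

open Finset
open scoped Classical

namespace Pool.Agent.Helper82.EC2

namespace OEMod

theorem last_ineq {D s : ℝ} (hD : 9 ≤ D) (hs : 3 * s ≤ D) :
    (2 / 3 * D + 11 / 2) * s * D ≤
      (D + 1 - s) * ((2 * (D + 1) / 3) * D - 2 * ((D - 2) / 3) * s) := by
  have h1 : 0 ≤ D / 54 * (4 * D ^ 2 - 35 * D + 60) := by
    refine mul_nonneg (by linarith) ?_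
    nlinarith
  have h2 : 0 ≤ (D / 3 - s) * ((2 * (D + 1) / 3) * D + 2 * ((D - 2) / 3) * (D + 1) +
      (2 / 3 * D + 11 / 2) * D - 2 * ((D - 2) / 3) * (s + D / 3)) := by
    refine mul_nonneg (by linarith) ?_
    have e1 : 2 * ((D - 2) / 3) * (s + D / 3) ≤ 2 * ((D - 2) / 3) * (D + 1) :=
      mul_le_mul_of_nonneg_left (by linarith) (by linarith)
    have e2 : 0 ≤ (2 / 3 * D + 11 / 2) * D := by positivity
    have e3 : 0 ≤ (2 * (D + 1) / 3) * D := by positivity
    linarith
  have e : (D + 1 - s) * ((2 * (D + 1) / 3) * D - 2 * ((D - 2) / 3) * s) -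
      (2 / 3 * D + 11 / 2) * s * D = D / 54 * (4 * D ^ 2 - 35 * D + 60) +
      (D / 3 - s) * ((2 * (D + 1) / 3) * D + 2 * ((D - 2) / 3) * (D + 1) +
      (2 / 3 * D + 11 / 2) * D - 2 * ((D - 2) / 3) * (s + D / 3)) := by ring
  linarith

end OEMod

open OEMod

theorem stOE : StOE := by
  intro D s m j t hD2 hs1 hsD hm hm1 hEE
  have hDR : (2 : ℝ) ≤ D := by exact_mod_cast hD2
  have hD0 : (0 : ℝ) < D := by linarith
  have hsR : (1 : ℝ) ≤ s := by exact_mod_cast hs1
  have hs0 : (0 : ℝ) < s := by linarith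
  have hsDR : 3 * (s : ℝ) ≤ D := by exact_mod_cast hsD
  have hmR : (m : ℝ) + j + t + 1 = s := by exact_mod_cast hm
  have hQ : qE D = 2 * ((D : ℝ) + 1) / 3 := by rw [qE]; ring
  -- `3 ≤ s`
  have hs3 : 3 ≤ s := by
    rcases Nat.lt_or_ge 2 s with h | h
    · omega
    · exfalso
      have h2 : s = 2 := by omega
      have h3 : j = 0 := by omega
      have h4 : t = 0 := by omega
      have h5 : m = 1 := by omega
      rw [h2, h3, h4, h5, EE, gg, hQ] at hEE
      push_cast at hEE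
      linarith
  have hs3R : (3 : ℝ) ≤ s := by exact_mod_cast hs3
  have hD9 : (9 : ℝ) ≤ D := by linarith
  have hn : 0 < (D : ℝ) + 1 - s := by linarith
  have hWD : WE D * D = 2 / 3 * D + 11 / 2 := by rw [WE]; field_simp
  have hW0 : 0 ≤ WE D := by rw [WE]; positivity
  refine ⟨⟨div_nonneg hW0 hn.le, ?_, ?_⟩, ?_⟩
  · -- small
    intro k hk1 hk2 hk3
    have hk3' : 3 * k ≤ D := by
      rw [hQ] at hk3
      have : 3 * (k : ℝ) < D + 1 := by linarith
      have h2 : 3 * k < D + 1 := by exact_mod_cast this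
      omega
    have hkR : (1 : ℝ) ≤ k := by exact_mod_cast hk1
    have hk0 : (0 : ℝ) < k := by linarith
    have hcase : (D = 3 * k ∧ k ≤ s + 1) ∨ (D = 3 * k + 1 ∧ s = k) := by omega
    rcases hcase with ⟨h1, h2⟩ | ⟨h1, h2⟩
    · have hDk : (D : ℝ) = 3 * k := by exact_mod_cast h1
      have h2R : (k : ℝ) ≤ s + 1 := by exact_mod_cast h2
      have hDk0 : 0 < (D : ℝ) - k + 1 := by linarith
      have hph : ph D (qE D) k = (2 * D + 8) / (D * (2 * D + 3)) := by
        rw [ph, gg, al, hQ, hDk]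
        have : (3 * (k : ℝ) - k + 1) ≠ 0 := by linarith
        field_simp
        ring
      rw [hph, div_le_div_iff₀ (by positivity) hn]
      have e1 : (2 * (D : ℝ) + 8) * ((D : ℝ) + 1 - s) ≤ (2 * (D : ℝ) + 8) * ((2 * D + 6) / 3) :=
        mul_le_mul_of_nonneg_left (by linarith) (by linarith)
      have e2 : WE D * (D * (2 * D + 3)) = (2 / 3 * D + 11 / 2) * (2 * D + 3) := by
        rw [← hWD]; ring
      rw [e2]
      nlinarith
    · have hDk : (D : ℝ) = 3 * k + 1 := by exact_mod_cast h1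
      have hsk : (s : ℝ) = k := by exact_mod_cast h2
      have hDk0 : 0 < (D : ℝ) - k + 1 := by linarith
      rw [ph, hsk]
      have hn' : (D : ℝ) + 1 - k = D - k + 1 := by ring
      rw [hn']
      refine div_le_div_of_nonneg_right ?_ hDk0.le
      rw [gg, al, WE, hQ]
      have e1 : 2 * ((D : ℝ) + 1) / 3 / k - 1 - ((D : ℝ) - 2 * (D + 1) / 3) / D =
          2 / 3 + 4 / (3 * k) + 2 / (3 * D) := by
        rw [hDk]
        field_simp
        ring
      rw [e1]
      have e2 : 4 / (3 * (k : ℝ)) ≤ 29 / (6 * D) := by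
        rw [div_le_div_iff₀ (by positivity) (by positivity)]
        nlinarith
      have e3 : 29 / (6 * (D : ℝ)) + 2 / (3 * D) = 11 / (2 * D) := by
        field_simp
        norm_num
      linarith
  · -- medium
    intro k hk1 hk2 hk3 hk4
    have hk2R : (D : ℝ) + 1 ≤ s + 2 * k + 2 := by exact_mod_cast hk2
    have hff : ff D (qE D) k = ((D : ℝ) - 2) / 3 / (k - 1) := by
      rw [ff]
      have e1 : 2 * (D : ℝ) + 2 - 2 * qE D - k = qE D - k := by rw [hQ]; ring
      have e2 : qE D - k ≠ 0 := by linarith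
      have e3 : (D : ℝ) - qE D = (D - 2) / 3 := by rw [hQ]; ring
      rw [e1, div_self e2, one_mul, e3]
    have hk5 : ((D : ℝ) - 2) / 3 ≤ k - 1 := by
      rw [hQ] at hk3
      linarith
    have hk6 : 0 < (k : ℝ) - 1 := by linarith
    rw [div_mul_eq_mul_div, le_div_iff₀ hn, hWD, hff, div_mul_eq_mul_div, div_le_iff₀ hk6]
    have e1 : ((D : ℝ) - 2) / 3 * ((D : ℝ) + 1 - s) ≤ ((D : ℝ) - 2) / 3 * (2 * k + 2) :=
      mul_le_mul_of_nonneg_left (by linarith) (by linarith)
    refine e1.trans ?_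
    nlinarith
  · -- last
    have e1 := last_ineq hD9 hsDR
    rw [div_le_iff₀ hn]
    have e2 : WE D * (s * D ^ 2) ≤
        ((qE D / D / s - dl D (qE D)) * ((D : ℝ) + 1 - s)) * (s * D ^ 2) := by
      have e3 : WE D * (s * D ^ 2) = (2 / 3 * D + 11 / 2) * s * D := by
        rw [← hWD]; ring
      have e4 : ((qE D / D / s - dl D (qE D)) * ((D : ℝ) + 1 - s)) * (s * D ^ 2) =
          (D + 1 - s) * ((2 * (D + 1) / 3) * D - 2 * ((D - 2) / 3) * s) := by
        rw [dl, hQ]
        field_simp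
        ring
      rw [e3, e4]
      exact e1
    exact le_of_mul_le_mul_right e2 (by positivity)

end Pool.Agent.Helper82.EC2
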