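import Pool.Agent.Helper82.EC2.StN

/-!
# MP_47b98d_co, module R1H
-/

set_option autoImplicit false

namespace Pool.Agent.Helper82.EC2

namespace R1H

/-- `D` times `XE` in terms of `m = ν D`, `x = u - 2`. -/
theorem mulXE (D q ν u s j t w : ℝ) (hD : 0 < D) (hq : 3 * (q * D) = 2 * (D + 1)) :
    D * XE D q ν u s j t w =
      -(2 / 3) * (D + 1) * (s - 1 + j) - D * (u - 2) * (j + t + 1) +
      (2 / 3) * (D - ν * D) * (j - 1 + w) + (11 / 2) * (1 - ν) * (j - 1 + w) +
      (ν * D) * (s - 2 - t) + (ν * D) * (u - 2) * (s + j - 1) +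
      (4 / 3) * (ν * D + ν) * (s + j - 1) := by
  have hDne : D ≠ 0 := hD.ne'
  have hq' : q = 2 * (D + 1) / (3 * D) := by
    field_simp
    linarith
  unfold XE
  rw [hq']
  field_simp
  ring

/-- the final polynomial inequality -/
theorem poly (s h m j : ℝ) (hs : 3 ≤ s) (hh : 1 / 3 ≤ h) (hm : 1 ≤ m) (hm2 : 9 * m ≤ 4 * s)
    (hj : 0 ≤ j) (hj2 : 2 * j ≤ 3 * h) :
    -2 * (s + h) * (s - 1 + j) + (2 / 3) * (3 * s + 3 * h - 1 - m) * (j - 1 + m) +
      (11 / 2) * (j - 1 + m) + m * (s - 2) + (4 / 3) * m * (s + j - 1) + (2 / 3) * m +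
      2 * h * m - (46 / 9) * h * j - 6 * h ≤ 0 := by
  -- increasing in `m`
  have h1 : 0 ≤ (4 * s / 9 - m) * (13 / 3 * s + 4 * h + 17 / 6 + (2 / 3) * j -
      (2 / 3) * (m + 4 * s / 9)) := by
    refine mul_nonneg (by linarith) ?_
    linarith
  have h2 : -2 * (s + h) * (s - 1 + j) +
      (2 / 3) * (3 * s + 3 * h - 1 - 4 * s / 9) * (j - 1 + 4 * s / 9) +
      (11 / 2) * (j - 1 + 4 * s / 9) + (4 * s / 9) * (s - 2) +
      (4 / 3) * (4 * s / 9) * (s + j - 1) + (2 / 3) * (4 * s / 9) +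
      2 * h * (4 * s / 9) - (46 / 9) * h * j - 6 * h ≤ 0 := by
    have e : -2 * (s + h) * (s - 1 + j) +
      (2 / 3) * (3 * s + 3 * h - 1 - 4 * s / 9) * (j - 1 + 4 * s / 9) +
      (11 / 2) * (j - 1 + 4 * s / 9) + (4 * s / 9) * (s - 2) +
      (4 / 3) * (4 * s / 9) * (s + j - 1) + (2 / 3) * (4 * s / 9) +
      2 * h * (4 * s / 9) - (46 / 9) * h * j - 6 * h =
      -(50 / 243) * s ^ 2 - (2 / 9) * h * s + (34 / 27) * s - 6 * h - 29 / 6 +
        j * (29 / 6 + (8 / 27) * s - (46 / 9) * h) := by ring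
    rw [e]
    have hb : -(50 / 243) * s ^ 2 + (34 / 27) * s - 29 / 6 + 6 * (1 / 3) ≤ 0 := by
      nlinarith [sq_nonneg (s - 3.06)]
    rcases le_total (29 / 6 + (8 / 27) * s - (46 / 9) * h) 0 with hc | hc
    · have h3 : j * (29 / 6 + (8 / 27) * s - (46 / 9) * h) ≤ 0 :=
        mul_nonpos_of_nonneg_of_nonpos hj hc
      have h4 : 0 ≤ h * s := by positivity
      nlinarith
    · have h3 : j * (29 / 6 + (8 / 27) * s - (46 / 9) * h) ≤
        (3 / 2 * h) * (29 / 6 + (8 / 27) * s - (46 / 9) * h) := by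
        apply mul_le_mul_of_nonneg_right _ hc
        linarith
      nlinarith [sq_nonneg (h - (s * (2 / 9) + 5 / 4) / (46 / 3)), sq_nonneg (s - 3.1)]
  nlinarith

end R1H

theorem stR1H : StR1H := by
  intro D q ν u s j t w H hμ
  have hD : 0 < D := by have := H.hD; linarith
  have hm := R1H.mulXE D q ν u s j t w hD H.hq
  set m : ℝ := ν * D with hmdef
  set x : ℝ := u - 2 with hx
  set h : ℝ := (D + 1) / 3 - s with hh
  have hDs : D = 3 * s + 3 * h - 1 := by rw [hh]; ring
  have hh1 : 1 / 3 ≤ h := by have := H.hsD; rw [hh]; linarith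
  have hs := H.hs
  have hxs : x * s = 2 * h := by
    have := H.hu
    have h2 := H.hq
    rw [hx, hh]
    linarith
  have hx0 : 0 ≤ x := by
    by_contra hneg
    push Not at hneg
    have : x * s < 0 := mul_neg_of_neg_of_pos hneg (by linarith)
    linarith
  have hq23 : 2 / 3 ≤ q := by
    have h2 := H.hq
    by_contra hneg
    push Not at hneg
    have : q * D < 2 / 3 * D := mul_lt_mul_of_pos_right hneg hD
    linarith
  have hj := H.hj
  have ht := H.ht
  have hw := H.hw
  have hm1 : 1 ≤ m := H.hν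
  have hwm : w ≤ m := H.hwμ
  have hj2 : 2 * j ≤ 3 * h := by
    have h1 := H.hE
    have h2 : 0 ≤ x * (j + t + 1) := by positivity
    have h3 : 2 / 3 * j ≤ q * j := mul_le_mul_of_nonneg_right hq23 hj
    have h4 : x * (j + t + 1) + q * j ≤ h := h1
    linarith
  have hmD : m ≤ D := by linarith
  have hν0 : 0 ≤ ν := by
    by_contra hneg
    push Not at hneg
    have : ν * D < 0 := mul_neg_of_neg_of_pos hneg hD
    linarith
  have hν1 : ν ≤ 1 := by
    by_contra hneg
    push Not at hneg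
    have : 1 * D < ν * D := mul_lt_mul_of_pos_right hneg hD
    linarith
  have key := R1H.poly s h m j hs hh1 hm1 hμ hj hj2
  have e1 : (2 / 3) * (D - m) * (j - 1 + w) ≤ (2 / 3) * (D - m) * (j - 1 + m) :=
    mul_le_mul_of_nonneg_left (by linarith) (by linarith)
  have e2 : (11 / 2) * (1 - ν) * (j - 1 + w) ≤ (11 / 2) * (j - 1 + m) := by
    have h1 : (11 / 2) * (1 - ν) * (j - 1 + w) ≤ (11 / 2) * (1 - ν) * (j - 1 + m) :=
      mul_le_mul_of_nonneg_left (by linarith) (by linarith)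
    have h2 : 0 ≤ ν * (j - 1 + m) := mul_nonneg hν0 (by linarith)
    nlinarith
  have e3 : m * (s - 2 - t) ≤ m * (s - 2) :=
    mul_le_mul_of_nonneg_left (by linarith) (by linarith)
  have e4 : (4 / 3) * ν * (s + j - 1) ≤ (2 / 3) * m := by
    have h1 : ν * (2 * (s + j - 1)) ≤ ν * D := mul_le_mul_of_nonneg_left (by linarith) hν0
    rw [← hmdef] at h1
    linarith
  have e5 : m * x * (s + j - 1) - D * x * (j + t + 1) ≤
      2 * h * m - (46 / 9) * h * j - 6 * h := by
    have h1 : m * x * s = 2 * h * m := by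
      calc m * x * s = m * (x * s) := by ring
        _ = 2 * h * m := by rw [hxs]; ring
    have h2 : x * j * (9 * m) ≤ x * j * (4 * s) :=
      mul_le_mul_of_nonneg_left hμ (by positivity)
    have h3 : x * j * (4 * s) = 8 * h * j := by
      calc x * j * (4 * s) = 4 * j * (x * s) := by ring
        _ = 8 * h * j := by rw [hxs]; ring
    have h4 : x * (j + 1) * (3 * s) ≤ x * (j + 1) * D :=
      mul_le_mul_of_nonneg_left H.hsD (by positivity)
    have h5 : x * (j + 1) * (3 * s) = 6 * h * (j + 1) := by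
      calc x * (j + 1) * (3 * s) = 3 * (j + 1) * (x * s) := by ring
        _ = 6 * h * (j + 1) := by rw [hxs]; ring
    have h6 : 0 ≤ D * x * t := by positivity
    have h7 : 0 ≤ m * x := by positivity
    nlinarith
  have e6 : -(2 / 3) * (D + 1) * (s - 1 + j) = -2 * (s + h) * (s - 1 + j) := by
    rw [hDs]; ring
  have e7 : (2 / 3) * (D - m) * (j - 1 + m) =
      (2 / 3) * (3 * s + 3 * h - 1 - m) * (j - 1 + m) := by
    rw [hDs]
  have hle : D * XE D q ν u s j t w ≤ 0 := by
    rw [hm]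
    linarith
  by_contra hneg
  push Not at hneg
  have : 0 < D * XE D q ν u s j t w := mul_pos hD hneg
  linarith

end Pool.Agent.Helper82.EC2
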