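import Pool.Agent.Helper82.EC2.StN

/-!
# MP_47b98d_co, module R1L
-/

set_option autoImplicit false

namespace Pool.Agent.Helper82.EC2

namespace R1L

/-- `D` times `XE` in terms of `m = ν D`, `x = u - 2`. -/
theorem mulXE (D q ν u s j t w : ℝ) (hD : 0 < D) (hq : 3 * (q * D) = 2 * (D + 1)) :
    D * XE D q ν u s j t w =
      -(2 / 3) * (D + 1) * (s - 1 + j) - D * (u - 2) * (j + t + 1) +
      (2 / 3) * (D - ν * D) * (j - 1 + w) + (11 / 2) * (1 - ν) * (j - 1 + w) +
      (ν * D) * (s - 2 - t) + (ν * D) * (u - 2) * (s + j - 1) +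
      (4 / 3) * (ν * D + ν) * (s + j - 1) := by
  have hDne : D ≠ 0 := hD.ne'
  have hq' : q = 2 * (D + 1) / (3 * D) := by
    field_simp
    linarith
  unfold XE
  rw [hq']
  field_simp
  ring

/-- the final polynomial inequality, `s = 2 + j + f + w'`, `w = 1 + w'`, `m = 1 + w' + g` -/
theorem poly (s m j w : ℝ) (hs : 3 ≤ s) (hj : 0 ≤ j) (hw : 1 ≤ w) (hwm : w ≤ m)
    (hwj : w ≤ s - 1 - j) :
    -(2 / 3) * (s * (m + 2) + 1) * (s - 1 + j) + (2 / 3) * (s * (m + 2) - m) * (j - 1 + w) +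
      (11 / 2) * (j - 1 + w) + (4 / 9) * (s - w) + m * (s - 2) + (4 / 3) * m * (s + j - 1) -
      (2 / 3) * (m - 1) * (2 * s + m) - 4 / 3 - j * ((4 / 9) * m + 4 / 3) ≤ 0 := by
  obtain ⟨e, he⟩ : ∃ e, s = w + e := ⟨s - w, by ring⟩
  have he1 : 1 + j ≤ e := by linarith
  -- slope in `e`
  have h1 : 0 ≤ (e - 1) * ((2 / 3) * s * (m + 2) - 2 * m - 4) := by
    apply mul_nonneg (by linarith)
    nlinarith
  have h2 : 0 ≤ (e - 1 - j) * (m + 26 / 9) := mul_nonneg (by linarith) (by linarith)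
  have h3 : 0 ≤ j * (m - 1) := mul_nonneg hj (by linarith)
  -- value at `e = 1`
  have h4 : -(1 / 3) * m * w - (5 / 3) * m + (29 / 6) * w - (2 / 3) * m ^ 2 - 115 / 18 ≤ 0 := by
    nlinarith [sq_nonneg (m - 19 / 12), sq_nonneg (m - w), mul_nonneg (sub_nonneg.mpr hwm)
      (by linarith : (0:ℝ) ≤ w)]
  subst he
  nlinarith

end R1L

theorem stR1L : StR1L := by
  intro D q ν u s j t w H hμ
  have hD : 0 < D := by have := H.hD; linarith
  have hm := R1L.mulXE D q ν u s j t w hD H.hq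
  set m : ℝ := ν * D with hmdef
  set x : ℝ := u - 2 with hx
  have hs := H.hs
  have hs0 : 0 < s := by linarith
  have hj := H.hj
  have ht := H.ht
  have hw := H.hw
  have hm1 : 1 ≤ m := H.hν
  have hwm : w ≤ m := H.hwμ
  have hwj : w ≤ s - 1 - j := by have := H.hwm; linarith
  have hxs : x * s = 2 * (D + 1) / 3 - 2 * s := by
    have := H.hu
    have h2 := H.hq
    rw [hx]
    linarith
  obtain ⟨M, hM⟩ : ∃ M, D = s * (M + 2) := ⟨D / s - 2, by field_simp; ring⟩
  obtain ⟨r, hr⟩ : ∃ r, r * s = 1 := ⟨1 / s, by field_simp⟩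
  have hr0 : 0 < r := by
    by_contra hneg
    push Not at hneg
    have : r * s ≤ 0 := mul_nonpos_of_nonpos_of_nonneg hneg hs0.le
    linarith
  have hr3 : r ≤ 1 / 3 := by
    by_contra hneg
    push Not at hneg
    have h1 : 1 / 3 * s < r * s := mul_lt_mul_of_pos_right hneg hs0
    linarith
  have hmM : m ≤ M := by
    by_contra hneg
    push Not at hneg
    have : s * (M + 2) < s * (m + 2) := mul_lt_mul_of_pos_left (by linarith) hs0
    linarith
  have hM1 : 1 ≤ M := by linarith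
  have hxM : x = (2 / 3) * (M - 1) + (2 / 3) * r := by
    have h1 : x * s = ((2 / 3) * (M - 1) + (2 / 3) * r) * s := by
      rw [hxs, hM]
      linear_combination (-2 / 3) * hr
    exact mul_right_cancel₀ hs0.ne' h1
  have hx0 : 0 ≤ x := by
    rw [hxM]
    have : 0 ≤ M - 1 := by linarith
    positivity
  have hν0 : 0 ≤ ν := by
    by_contra hneg
    push Not at hneg
    have : ν * D < 0 := mul_neg_of_neg_of_pos hneg hD
    linarith
  have hν3 : ν ≤ 1 / 3 := by
    by_contra hneg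
    push Not at hneg
    have h1 : 1 / 3 * D < ν * D := mul_lt_mul_of_pos_right hneg hD
    have h2 : 3 * (m + 2) ≤ s * (m + 2) := mul_le_mul_of_nonneg_right hs (by linarith)
    rw [← hmdef] at h1
    have h3 : m * s ≤ D := by nlinarith
    nlinarith
  have key := R1L.poly s M j w hs hj hw (by linarith) hwj
  have e2 : (11 / 2) * (1 - ν) * (j - 1 + w) + (4 / 3) * ν * (s + j - 1) ≤
      (11 / 2) * (j - 1 + w) + (4 / 9) * (s - w) := by
    have h1 : 0 ≤ ν * (j - 1 + w) := mul_nonneg hν0 (by linarith)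
    have h2 : ν * (s - w) ≤ 1 / 3 * (s - w) :=
      mul_le_mul_of_nonneg_right hν3 (by linarith)
    nlinarith
  have e3 : m * (-(2 / 3) * (j - 1 + w) + (s - 2) + (4 / 3) * (s + j - 1) + x * (s + j - 1)) ≤
      M * (-(2 / 3) * (j - 1 + w) + (s - 2) + (4 / 3) * (s + j - 1) + x * (s + j - 1)) := by
    apply mul_le_mul_of_nonneg_right hmM
    have : 0 ≤ x * (s + j - 1) := mul_nonneg hx0 (by linarith)
    linarith
  have e4 : 0 ≤ D * x * t := by positivity
  have e5 : 0 ≤ m * t := by positivity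
  -- the terms with `x`
  have e6 : (2 / 3) * (M - 1) * (2 * s + M) + 4 / 3 + j * ((4 / 9) * M + 4 / 3) ≤
      D * x * (j + 1) - M * x * (s + j - 1) := by
    have h0 : D * x * (j + 1) - M * x * (s + j - 1) =
        2 * (x * s) + x * M + j * (x * (s * (M + 2) - M)) := by
      rw [hM]; ring
    have h1 : 2 * (x * s) = (2 / 3) * (M - 1) * (2 * s) + 4 / 3 := by
      rw [hxs, hM]; ring
    have h2 : (2 / 3) * (M - 1) * M ≤ x * M := by
      apply mul_le_mul_of_nonneg_right _ (by linarith)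
      rw [hxM]; linarith
    have h3 : (4 / 9) * M + 4 / 3 ≤ x * (s * (M + 2) - M) := by
      have h4 : x * (s * (M + 2) - M) = (2 / 3) * (M - 1) * (s * (M + 2) - M) +
          (2 / 3) * (M + 2 - r * M) := by
        rw [hxM]
        linear_combination (2 / 3) * (M + 2) * hr
      have h5 : 0 ≤ (M - 1) * (s * (M + 2) - M) := by
        apply mul_nonneg (by linarith)
        nlinarith
      have h6 : r * M ≤ 1 / 3 * M := mul_le_mul_of_nonneg_right hr3 (by linarith)
      rw [h4]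
      linarith
    have h7 : j * ((4 / 9) * M + 4 / 3) ≤ j * (x * (s * (M + 2) - M)) :=
      mul_le_mul_of_nonneg_left h3 hj
    rw [h0, h1]
    linarith
  have e7 : -(2 / 3) * (D + 1) * (s - 1 + j) = -(2 / 3) * (s * (M + 2) + 1) * (s - 1 + j) := by
    rw [hM]
  have e8 : (2 / 3) * D * (j - 1 + w) = (2 / 3) * (s * (M + 2)) * (j - 1 + w) := by
    rw [hM]
  have hle : D * XE D q ν u s j t w ≤ 0 := by
    rw [hm]
    linarith
  by_contra hneg
  push Not at hneg
  have : 0 < D * XE D q ν u s j t w := mul_pos hD hneg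
  linarith

end Pool.Agent.Helper82.EC2
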