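import Pool.Agent.Helper82.EC2.StN

/-!
# MP_47b98d_co, second generation: module R2H
-/

set_option autoImplicit false

open Finset
open scoped Classical

namespace Pool.Agent.Helper82.EC2

namespace R2H

/-- the part of the bound without `η`, times `s + 2 - a` -/
noncomputable def Rest (lam s a : ℝ) : ℝ :=
  (s + 2 - a) * (-(50 / 243) * s ^ 2 - (4 / 9) * s * a + (130 / 81) * s - 815 / 162 +
      (1 - lam) * (a - 1) * (815 / 162 + (20 / 27) * s)) +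
      (a - 2) * ((32 / 81) * s ^ 2 - (8 / 9) * s + (1 - lam) * (a - 1) * ((8 / 9) * s))

/-- the coefficient of `η` -/
noncomputable def Brace (lam s a r : ℝ) : ℝ :=
  -(2 / 9) * s ^ 2 - 6 * s * a + 2 * a + (32 / 81) * s * r + (8 / 9) * (s + r) * (a - 2) +
    3 / 2 * lam * (s - 2 * a) * (815 / 162 + (20 / 27) * s + (8 / 9) * r)

lemma rest0 (s a : ℝ) (ha : 3 ≤ a) (h : 8 * a ≤ s) : Rest 0 s a ≤ 0 := by
  unfold Rest
  obtain ⟨x, hx⟩ : ∃ x, x = a - 3 := ⟨_, rfl⟩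
  obtain ⟨z, hz⟩ : ∃ z, z = s - 8 * a := ⟨_, rfl⟩
  have hx0 : 0 ≤ x := by linarith
  have hz0 : 0 ≤ z := by linarith
  have e1 : a = x + 3 := by linarith
  have e2 : s = z + 8 * x + 24 := by linarith
  subst e1
  subst e2
  have h1 := mul_nonneg hx0 hz0
  have h2 := mul_nonneg hx0 h1
  have h3 := mul_nonneg hz0 h1
  have h4 := mul_nonneg hx0 (mul_nonneg hx0 hx0)
  have h5 := mul_nonneg hz0 (mul_nonneg hz0 hz0)
  have h6 := mul_nonneg hx0 hx0
  have h7 := mul_nonneg hz0 hz0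
  nlinarith

lemma rest1 (s a : ℝ) (ha : 3 ≤ a) (h : 4 * a ≤ s) : Rest (1 / 2) s a ≤ 0 := by
  unfold Rest
  obtain ⟨x, hx⟩ : ∃ x, x = a - 3 := ⟨_, rfl⟩
  obtain ⟨z, hz⟩ : ∃ z, z = s - 4 * a := ⟨_, rfl⟩
  have hx0 : 0 ≤ x := by linarith
  have hz0 : 0 ≤ z := by linarith
  have e1 : a = x + 3 := by linarith
  have e2 : s = z + 4 * x + 12 := by linarith
  subst e1
  subst e2
  have h1 := mul_nonneg hx0 hz0
  have h2 := mul_nonneg hx0 h1
  have h3 := mul_nonneg hz0 h1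
  have h4 := mul_nonneg hx0 (mul_nonneg hx0 hx0)
  have h5 := mul_nonneg hz0 (mul_nonneg hz0 hz0)
  have h6 := mul_nonneg hx0 hx0
  have h7 := mul_nonneg hz0 hz0
  nlinarith

lemma rest2 (s a : ℝ) (ha : 3 ≤ a) (h : 2 * a ≤ s) : Rest 1 s a ≤ 0 := by
  unfold Rest
  obtain ⟨x, hx⟩ : ∃ x, x = a - 3 := ⟨_, rfl⟩
  obtain ⟨z, hz⟩ : ∃ z, z = s - 2 * a := ⟨_, rfl⟩
  have hx0 : 0 ≤ x := by linarith
  have hz0 : 0 ≤ z := by linarith
  have e1 : a = x + 3 := by linarith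
  have e2 : s = z + 2 * x + 6 := by linarith
  subst e1
  subst e2
  have h1 := mul_nonneg hx0 hz0
  have h2 := mul_nonneg hx0 h1
  have h3 := mul_nonneg hz0 h1
  have h4 := mul_nonneg hx0 (mul_nonneg hx0 hx0)
  have h5 := mul_nonneg hz0 (mul_nonneg hz0 hz0)
  have h6 := mul_nonneg hx0 hx0
  have h7 := mul_nonneg hz0 hz0
  nlinarith

/-- `Brace` is increasing in `r` -/
lemma brace_mono (lam s a r r' : ℝ) (hl : 0 ≤ lam) (ha : 3 ≤ a) (h : 2 * a ≤ s) (hr : r ≤ r') :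
    Brace lam s a r ≤ Brace lam s a r' := by
  unfold Brace
  have hs : 0 ≤ s := by linarith
  have h1 : 0 ≤ (r' - r) * s := mul_nonneg (by linarith) hs
  have h2 : 0 ≤ (r' - r) * (a - 2) := mul_nonneg (by linarith) (by linarith)
  have h3 : 0 ≤ lam * (s - 2 * a) * (r' - r) :=
    mul_nonneg (mul_nonneg hl (by linarith)) (by linarith)
  have e : (-(2 / 9) * s ^ 2 - 6 * s * a + 2 * a + (32 / 81) * s * r' +
      (8 / 9) * (s + r') * (a - 2) +
      3 / 2 * lam * (s - 2 * a) * (815 / 162 + (20 / 27) * s + (8 / 9) * r')) -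
    (-(2 / 9) * s ^ 2 - 6 * s * a + 2 * a + (32 / 81) * s * r + (8 / 9) * (s + r) * (a - 2) +
      3 / 2 * lam * (s - 2 * a) * (815 / 162 + (20 / 27) * s + (8 / 9) * r)) =
      (32 / 81) * ((r' - r) * s) + (8 / 9) * ((r' - r) * (a - 2)) +
        (4 / 3) * (lam * (s - 2 * a) * (r' - r)) := by ring
  linarith

lemma brace0 (s a : ℝ) (ha : 3 ≤ a) (h : 8 * a ≤ s) : Brace 0 s a (2 * (a - 2)) ≤ 0 := by
  unfold Brace
  obtain ⟨x, hx⟩ : ∃ x, x = a - 3 := ⟨_, rfl⟩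
  obtain ⟨z, hz⟩ : ∃ z, z = s - 8 * a := ⟨_, rfl⟩
  have hx0 : 0 ≤ x := by linarith
  have hz0 : 0 ≤ z := by linarith
  have e1 : a = x + 3 := by linarith
  have e2 : s = z + 8 * x + 24 := by linarith
  subst e1
  subst e2
  have h1 := mul_nonneg hx0 hz0
  have h6 := mul_nonneg hx0 hx0
  have h7 := mul_nonneg hz0 hz0
  nlinarith

lemma brace1 (s a : ℝ) (ha : 3 ≤ a) (h : 4 * a ≤ s) (h' : s ≤ 8 * a) :
    Brace (1 / 2) s a (2 * (a - 2)) ≤ 0 := by
  unfold Brace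
  obtain ⟨x, hx⟩ : ∃ x, x = a - 3 := ⟨_, rfl⟩
  obtain ⟨z, hz⟩ : ∃ z, z = s - 4 * a := ⟨_, rfl⟩
  have hx0 : 0 ≤ x := by linarith
  have hz0 : 0 ≤ z := by linarith
  have hz1 : 0 ≤ 4 * x + 12 - z := by linarith
  have e1 : a = x + 3 := by linarith
  have e2 : s = z + 4 * x + 12 := by linarith
  subst e1
  subst e2
  have h1 := mul_nonneg hx0 hz0
  have h6 := mul_nonneg hx0 hx0
  have h7 := mul_nonneg hz0 hz1
  nlinarith

lemma brace2 (s a : ℝ) (ha : 3 ≤ a) (h : 2 * a ≤ s) (h' : s ≤ 4 * a) :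
    Brace 1 s a (2 * (a - 2)) ≤ 0 := by
  unfold Brace
  obtain ⟨x, hx⟩ : ∃ x, x = a - 3 := ⟨_, rfl⟩
  obtain ⟨z, hz⟩ : ∃ z, z = s - 2 * a := ⟨_, rfl⟩
  have hx0 : 0 ≤ x := by linarith
  have hz0 : 0 ≤ z := by linarith
  have hz1 : 0 ≤ 2 * x + 6 - z := by linarith
  have e1 : a = x + 3 := by linarith
  have e2 : s = z + 2 * x + 6 := by linarith
  subst e1
  subst e2
  have h1 := mul_nonneg hx0 hz0
  have h6 := mul_nonneg hx0 hx0
  have h7 := mul_nonneg hz0 hz1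
  have h8 := mul_nonneg hx0 hz1
  nlinarith

/-- the final expression -/
noncomputable def F (s a j η ρ : ℝ) : ℝ :=
  (-(50 / 243) * s ^ 2 - (4 / 9) * s * a + (32 / 81) * s ^ 2 * ρ + (130 / 81) * s - 815 / 162 -
    (8 / 9) * s * ρ) +
    η * (-(2 / 9) * s ^ 2 - 6 * s * a + 2 * a + (32 / 81) * s ^ 2 * ρ -
      (8 / 9) * s * (1 + ρ)) +
    j * (815 / 162 + (20 / 27) * s + (8 / 9) * s * ρ + (8 / 9) * s * η * (1 + ρ))

lemma comb (lam s a j η ρ : ℝ) (hl0 : 0 ≤ lam) (hl1 : lam ≤ 1) (ha : 3 ≤ a) (has : 2 * a ≤ s)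
    (hρ0 : 0 ≤ ρ) (hρ : ρ * (s + 2 - a) = a - 2) (hη : 0 ≤ η) (hj1 : j ≤ a - 1)
    (hj2 : j ≤ 3 / 2 * η * (s - 2 * a)) (hR : Rest lam s a ≤ 0)
    (hB : Brace lam s a (2 * (a - 2)) ≤ 0) : F s a j η ρ ≤ 0 := by
  have hs : 0 ≤ s := by linarith
  have hM : 0 < s + 2 - a := by linarith
  -- `s * ρ ≤ 2 * (a - 2)`
  have hr : s * ρ ≤ 2 * (a - 2) := by
    have h1 : 0 ≤ ρ * (s + 4 - 2 * a) := mul_nonneg hρ0 (by linarith)
    linarith
  have hB' : Brace lam s a (s * ρ) ≤ 0 := (brace_mono lam s a _ _ hl0 ha has hr).trans hB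
  -- the part without `η`
  have hR' : -(50 / 243) * s ^ 2 - (4 / 9) * s * a + (32 / 81) * s ^ 2 * ρ + (130 / 81) * s -
      815 / 162 - (8 / 9) * s * ρ +
      (1 - lam) * (a - 1) * (815 / 162 + (20 / 27) * s + (8 / 9) * s * ρ) ≤ 0 := by
    by_contra hcon
    push Not at hcon
    have h2 := mul_pos hM hcon
    have h3 : (s + 2 - a) * (-(50 / 243) * s ^ 2 - (4 / 9) * s * a + (32 / 81) * s ^ 2 * ρ +
        (130 / 81) * s - 815 / 162 - (8 / 9) * s * ρ +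
        (1 - lam) * (a - 1) * (815 / 162 + (20 / 27) * s + (8 / 9) * s * ρ)) =
        Rest lam s a + (ρ * (s + 2 - a) - (a - 2)) * ((32 / 81) * s ^ 2 - (8 / 9) * s +
          (1 - lam) * (a - 1) * ((8 / 9) * s)) := by
      unfold Rest
      ring
    rw [h3, hρ, sub_self, zero_mul, add_zero] at h2
    linarith
  have hsρ : 0 ≤ s * ρ := mul_nonneg hs hρ0
  obtain ⟨c, hc⟩ : ∃ c, c = 815 / 162 + (20 / 27) * s + (8 / 9) * s * ρ := ⟨_, rfl⟩
  have hc0 : 0 ≤ c := by rw [hc]; linarith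
  have hjc1 : (1 - lam) * (j * c) ≤ (1 - lam) * ((a - 1) * c) :=
    mul_le_mul_of_nonneg_left (mul_le_mul_of_nonneg_right hj1 hc0) (by linarith)
  have hjc2 : lam * (j * c) ≤ lam * (3 / 2 * η * (s - 2 * a) * c) :=
    mul_le_mul_of_nonneg_left (mul_le_mul_of_nonneg_right hj2 hc0) hl0
  have hd0 : 0 ≤ (8 / 9) * s * η * (1 + ρ) := by positivity
  have hjd : j * ((8 / 9) * s * η * (1 + ρ)) ≤ (a - 1) * ((8 / 9) * s * η * (1 + ρ)) :=
    mul_le_mul_of_nonneg_right hj1 hd0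
  have hηB : η * Brace lam s a (s * ρ) ≤ 0 := mul_nonpos_of_nonneg_of_nonpos hη hB'
  rw [← hc] at hR'
  have key : F s a j η ρ = (-(50 / 243) * s ^ 2 - (4 / 9) * s * a + (32 / 81) * s ^ 2 * ρ +
      (130 / 81) * s - 815 / 162 - (8 / 9) * s * ρ + (1 - lam) * (a - 1) * c) +
      η * Brace lam s a (s * ρ) + ((1 - lam) * (j * c) - (1 - lam) * ((a - 1) * c)) +
      (lam * (j * c) - lam * (3 / 2 * η * (s - 2 * a) * c)) +
      (j * ((8 / 9) * s * η * (1 + ρ)) - (a - 1) * ((8 / 9) * s * η * (1 + ρ))) := by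
    rw [hc]
    unfold F Brace
    ring
  rw [key]
  linarith

lemma F_nonpos (s a j η ρ : ℝ) (ha : 3 ≤ a) (has : 2 * a ≤ s)
    (hρ0 : 0 ≤ ρ) (hρ : ρ * (s + 2 - a) = a - 2) (hη : 0 ≤ η) (hj1 : j ≤ a - 1)
    (hj2 : j ≤ 3 / 2 * η * (s - 2 * a)) : F s a j η ρ ≤ 0 := by
  rcases le_total (8 * a) s with h | h
  · exact comb 0 s a j η ρ le_rfl zero_le_one ha has hρ0 hρ hη hj1 hj2 (rest0 s a ha h)
      (brace0 s a ha h)
  · rcases le_total (4 * a) s with h' | h'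
    · exact comb (1 / 2) s a j η ρ (by norm_num) (by norm_num) ha has hρ0 hρ hη hj1 hj2
        (rest1 s a ha h') (brace1 s a ha h' h)
    · exact comb 1 s a j η ρ (by norm_num) (by norm_num) ha has hρ0 hρ hη hj1 hj2
        (rest2 s a ha has) (brace2 s a ha has h')

/-- `D` times the expression after `w ≤ μ` -/
noncomputable def E1 (D q s a J η ρ μ : ℝ) : ℝ :=
  -(2 / 3) * (D + 1) * (s + J) + (2 / 3 * (D - μ) + 11 / 2) * (J + μ) - 2 * η * D * a +
    μ * (s - a + J) + μ * (s + J) * (2 * η + 2 * q) + 2 * (1 + η) * ρ * (μ * (J + μ))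

lemma E1_mono (D q s a J η ρ μ m : ℝ) (hμ : 1 ≤ μ) (hμm : μ ≤ m) (hD : 2 * m ≤ D) (hJ : -1 ≤ J)
    (hs : 1 ≤ s) (has : a ≤ s) (hη : 0 ≤ η) (hq : 0 ≤ q) (hρ : 0 ≤ ρ) :
    E1 D q s a J η ρ μ ≤ E1 D q s a J η ρ m := by
  have e : E1 D q s a J η ρ m - E1 D q s a J η ρ μ =
      (m - μ) * (2 / 3 * (D - m - μ) + 11 / 2 + 1 / 3 * J + (s - a) +
        (s + J) * (2 * η + 2 * q) + 2 * (1 + η) * ρ * (J + m + μ)) := by
    unfold E1
    ring
  have h1 : 0 ≤ (s + J) * (2 * η + 2 * q) := mul_nonneg (by linarith) (by linarith)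
  have h2 : 0 ≤ 2 * (1 + η) * ρ * (J + m + μ) :=
    mul_nonneg (mul_nonneg (by linarith) hρ) (by linarith)
  have h3 : 0 ≤ (m - μ) * (2 / 3 * (D - m - μ) + 11 / 2 + 1 / 3 * J + (s - a) +
        (s + J) * (2 * η + 2 * q) + 2 * (1 + η) * ρ * (J + m + μ)) :=
    mul_nonneg (by linarith) (by linarith)
  linarith

lemma E1_le_F (D q s a j η ρ : ℝ) (hs : 3 ≤ s) (ha : 0 ≤ a) (hj : 0 ≤ j)
    (hD : D = 3 * s * (1 + η) - 1) (hsD : 3 * s ≤ D) (hq : 3 * (q * D) = 2 * (D + 1)) :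
    E1 D q s a (j - 1) η ρ (4 * s / 9) ≤ F s a j η ρ := by
  -- `q = 2/3 + e`
  obtain ⟨e, he⟩ : ∃ e, e = q - 2 / 3 := ⟨_, rfl⟩
  have heD : e * D = 2 / 3 := by rw [he]; linarith
  have he0 : 0 ≤ e := by
    by_contra hcon
    push Not at hcon
    have := mul_neg_of_neg_of_pos hcon (by linarith : (0 : ℝ) < D)
    linarith
  have hes : e * s ≤ 2 / 9 := by
    have := mul_le_mul_of_nonneg_left hsD he0
    linarith
  have hq' : q = e + 2 / 3 := by linarith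
  have h1 : e * s * (s + j - 1) ≤ 2 / 9 * (s + j - 1) :=
    mul_le_mul_of_nonneg_right hes (by linarith)
  have h2 : 0 ≤ η ^ 2 * a * s := by positivity
  have key : F s a j η ρ - E1 D q s a (j - 1) η ρ (4 * s / 9) =
      8 / 9 * (2 / 9 * (s + j - 1) - e * s * (s + j - 1)) + 6 * (η ^ 2 * a * s) := by
    rw [hq', hD]
    unfold F E1
    ring
  linarith

end R2H

open R2H in
theorem stR2H : StR2H := by
  intro D q ν u s j t w y h hμ h2 hy0 hy
  obtain ⟨hD, hν, hq, hu, hs, hsD, hj, ht, hw, hwm, hwμ, hE⟩ := h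
  have hD0 : 0 < D := by linarith
  have hs0 : 0 < s := by linarith
  obtain ⟨a, ha⟩ : ∃ a, a = j + t + 1 := ⟨_, rfl⟩
  obtain ⟨μ, hμd⟩ : ∃ μ, μ = ν * D := ⟨_, rfl⟩
  obtain ⟨η, hη⟩ : ∃ η, η = ((D + 1) / 3 - s) / s := ⟨_, rfl⟩
  have hηs : η * s = (D + 1) / 3 - s := by rw [hη]; exact div_mul_cancel₀ _ hs0.ne'
  have hη0 : 0 < η := by rw [hη]; exact div_pos (by linarith) hs0
  have hu2 : u = 2 * (1 + η) := by
    have h1 : (u - 2 * (1 + η)) * s = 0 := by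
      have : (u - 2 * (1 + η)) * s = u * s - 2 * s - 2 * (η * s) := by ring
      rw [this, hηs, hu]
      linarith
    rcases mul_eq_zero.1 h1 with h3 | h3
    · linarith
    · exact absurd h3 hs0.ne'
  have hD' : D = 3 * s * (1 + η) - 1 := by
    have : 3 * s * (1 + η) - 1 = 3 * s + 3 * (η * s) - 1 := by ring
    rw [this, hηs]
    ring
  have ha3 : 3 ≤ a := by linarith
  have hE' : 2 * η * a + q * j ≤ η * s := by
    rw [hηs]
    have : (u - 2) * (j + t + 1) = 2 * η * a := by rw [ha, hu2]; ring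
    linarith
  have hq0 : 2 / 3 ≤ q := by
    by_contra hcon
    push Not at hcon
    have h3 := mul_lt_mul_of_pos_right hcon hD0
    linarith
  have hqj : 2 / 3 * j ≤ q * j := mul_le_mul_of_nonneg_right hq0 hj
  have has : 2 * a ≤ s := by
    by_contra hcon
    push Not at hcon
    have h3 := mul_lt_mul_of_pos_left hcon hη0
    linarith
  have hj1 : j ≤ a - 1 := by linarith
  have hj2 : j ≤ 3 / 2 * η * (s - 2 * a) := by linarith
  have hM : 0 < s + 2 - a := by linarith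
  obtain ⟨ρ, hρd⟩ : ∃ ρ, ρ = (a - 2) / (s + 2 - a) := ⟨_, rfl⟩
  have hρ : ρ * (s + 2 - a) = a - 2 := by rw [hρd]; exact div_mul_cancel₀ _ hM.ne'
  have hρ0 : 0 ≤ ρ := by rw [hρd]; exact div_nonneg (by linarith) hM.le
  have hF := F_nonpos s a j η ρ ha3 has hρ0 hρ hη0.le hj1 hj2
  have hEF := E1_le_F D q s a j η ρ hs (by linarith) hj hD' hsD hq
  have hmono := E1_mono D q s a (j - 1) η ρ μ (4 * s / 9) (by rw [hμd]; exact hν)
    (by rw [hμd]; linarith) (by linarith) (by linarith) (by linarith) (by linarith) hη0.le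
    (by linarith) hρ0
  -- `ν ≤ 1`
  have hν1 : ν ≤ 1 := by
    by_contra hcon
    push Not at hcon
    have h3 := mul_lt_mul_of_pos_right hcon hD0
    linarith
  have hν0 : 0 ≤ ν := by
    by_contra hcon
    push Not at hcon
    have h3 := mul_neg_of_neg_of_pos hcon hD0
    linarith
  have hXE : D * XE D q ν u s j t w = 2 * D - (q * D) * (s - 1) - u * D * (j + t + 1) +
      (2 * D - q * D) * j + 2 * t * D + (2 / 3 * (D - ν * D) + 11 / 2 * (1 - ν)) * (j - 1 + w) +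
      (ν * D) * (s - 2 - t) + (ν * D) * u * (s + j - 1) -
      2 * (1 - q) * (ν * D) * (s + j - 1) := by
    unfold XE
    field_simp
  have hJw : 0 ≤ j - 1 + w := by linarith
  have hJw' : j - 1 + w ≤ j - 1 + μ := by rw [hμd]; linarith
  have hμD : μ ≤ D := by rw [hμd]; linarith
  have h5 : (2 / 3 * (D - ν * D) + 11 / 2 * (1 - ν)) * (j - 1 + w) ≤
      (2 / 3 * (D - μ) + 11 / 2) * (j - 1 + μ) := by
    rw [← hμd]
    exact mul_le_mul (by linarith) hJw' hJw (by linarith)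
  -- the term with `y`
  have h6 : D * (y * u * (j + t - 1)) ≤ 2 * (1 + η) * ρ * (μ * (j - 1 + μ)) := by
    have h7 : y * D * (s + 2 - a) ≤ μ * (j - 1 + μ) := by
      have h8 := mul_le_mul_of_nonneg_right hy hD0.le
      have h9 : ν * (j - 1 + w) * D = μ * (j - 1 + w) := by rw [hμd]; ring
      have h10 : μ * (j - 1 + w) ≤ μ * (j - 1 + μ) :=
        mul_le_mul_of_nonneg_left hJw' (by rw [hμd]; linarith)
      have h11 : y * (s + 1 - j - t) * D = y * D * (s + 2 - a) := by rw [ha]; ring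
      linarith
    have h12 : D * (y * u * (j + t - 1)) = 2 * (1 + η) * ρ * (y * D * (s + 2 - a)) := by
      have h13 : j + t - 1 = ρ * (s + 2 - a) := by rw [hρ, ha]; ring
      rw [h13, hu2]
      ring
    rw [h12]
    exact mul_le_mul_of_nonneg_left h7 (mul_nonneg (by linarith) hρ0)
  have hfin : D * (XE D q ν u s j t w + y * u * (j + t - 1)) ≤ E1 D q s a (j - 1) η ρ μ := by
    have h14 : D * (XE D q ν u s j t w + y * u * (j + t - 1)) =
        D * XE D q ν u s j t w + D * (y * u * (j + t - 1)) := by ring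
    rw [h14, hXE]
    have h15 : E1 D q s a (j - 1) η ρ μ = 2 * D - (2 * (D + 1) / 3) * (s - 1) -
      u * D * (j + t + 1) +
      (2 * D - (2 * (D + 1) / 3)) * j + 2 * t * D + (2 / 3 * (D - μ) + 11 / 2) * (j - 1 + μ) +
      (ν * D) * (s - 2 - t) + (ν * D) * u * (s + j - 1) -
      2 * (1 - q) * (ν * D) * (s + j - 1) + 2 * (1 + η) * ρ * (μ * (j - 1 + μ)) := by
      unfold E1
      rw [← hμd, hu2, ha]
      ring
    have h16 : q * D = 2 * (D + 1) / 3 := by linarith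
    rw [h15, h16]
    linarith
  have hneg : D * (XE D q ν u s j t w + y * u * (j + t - 1)) ≤ 0 := by linarith
  by_contra hcon
  push Not at hcon
  have := mul_pos hD0 hcon
  linarith

end Pool.Agent.Helper82.EC2
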