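import Pool.Agent.Helper82.EC2.StN

/-!
# MP_47b98d_co, second generation, module VE
-/

set_option autoImplicit false

namespace Pool.Agent.Helper82.EC2

/-- consequences of `hE` -/
theorem ve_half {D q ν u s j t w : ℝ} (h : HE D q ν u s j t w) : 2 < u ∧ 2 * (j + t + 1) ≤ s := by
  obtain ⟨hD, hν, hq, hu, hs, hsD, hj, ht, hw, hwm, hwμ, hE⟩ := h
  have h1 : (D + 1) / 3 = u * s / 2 := by rw [hu]; linarith
  have h2 : 2 < u := by
    by_contra hcon
    push Not at hcon
    have : u * s ≤ 2 * s := by nlinarith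
    linarith
  refine ⟨h2, ?_⟩
  rw [h1] at hE
  have hq0 : 0 ≤ q := by
    by_contra hcon
    push Not at hcon
    nlinarith
  have h3 : (u - 2) * (j + t + 1) ≤ (u - 2) * (s / 2) := by
    have : 0 ≤ q * j := mul_nonneg hq0 hj
    nlinarith
  have := le_of_mul_le_mul_left h3 (by linarith)
  linarith

theorem stVE : StVE := by
  intro D q ν u s j t w h hc
  obtain ⟨hu2, hN⟩ := ve_half h
  obtain ⟨hD, hν, hq, hu, hs, hsD, hj, ht, hw, hwm, hwμ, hE⟩ := h
  have hD0 : 0 < D := by linarith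
  have e : 1 - ν - (s - 1) / D = (D - ν * D - (s - 1)) / D := by
    field_simp
  rw [e, div_mul_eq_mul_div, le_div_iff₀ hD0]
  set μ := ν * D with hμ
  have hA : j - 1 + w ≤ s - 2 := by linarith
  have hA0 : 0 ≤ j - 1 + w := by linarith
  have hL : ν * (j - 1 + w) * D ≤ μ * (s - 2) := by
    have : ν * (j - 1 + w) * D = μ * (j - 1 + w) := by rw [hμ]; ring
    rw [this]
    exact mul_le_mul_of_nonneg_left hA (by linarith)
  have hR : s / 2 + 2 ≤ s + 1 - j - t := by linarith
  refine hL.trans ?_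
  rcases hc with hc | hc
  · have h1 : 14 * s / 9 + 1 ≤ D - μ - (s - 1) := by linarith
    calc μ * (s - 2) ≤ (4 * s / 9) * (s - 2) :=
          mul_le_mul_of_nonneg_right (by linarith) (by linarith)
      _ ≤ (14 * s / 9 + 1) * (s / 2 + 2) := by nlinarith
      _ ≤ (D - μ - (s - 1)) * (s + 1 - j - t) :=
          mul_le_mul h1 hR (by linarith) (by linarith)
  · have h2 : 3 * (μ + 2) ≤ D := by nlinarith
    have h1 : D / 3 + 3 ≤ D - μ - (s - 1) := by linarith
    calc μ * (s - 2) ≤ D := by nlinarith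
      _ ≤ (D / 3 + 3) * (s / 2 + 2) := by nlinarith
      _ ≤ (D - μ - (s - 1)) * (s + 1 - j - t) :=
          mul_le_mul h1 hR (by linarith) (by linarith)

end Pool.Agent.Helper82.EC2
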