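import Pool.Agent.Helper82.EC2.StN
import Pool.Agent.Helper82.EC2.M_VE

/-!
# MP_47b98d_co, second generation, module R2L
-/

set_option autoImplicit false

namespace Pool.Agent.Helper82.EC2

theorem stR2L : StR2L := by
  intro D q ν u s j t w y h hc h2 hy hyA
  obtain ⟨hu2, hN⟩ := ve_half h
  obtain ⟨hD, hν, hq, hu, hs, hsD, hj, ht, hw, hwm, hwμ, hE⟩ := h
  have hD0 : 0 < D := by linarith
  obtain ⟨δ, hδ⟩ : ∃ δ : ℝ, δ = 1 / D := ⟨_, rfl⟩
  have hδD : δ * D = 1 := by rw [hδ]; field_simp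
  have hδ0 : 0 < δ := by rw [hδ]; positivity
  obtain ⟨μ, hμ⟩ : ∃ μ : ℝ, μ = ν * D := ⟨_, rfl⟩
  obtain ⟨N, hNdef⟩ : ∃ N : ℝ, N = j + t := ⟨_, rfl⟩
  obtain ⟨A, hAdef⟩ : ∃ A : ℝ, A = j - 1 + w := ⟨_, rfl⟩
  obtain ⟨P, hPdef⟩ : ∃ P : ℝ, P = ν * u := ⟨_, rfl⟩
  rw [← hμ] at hν hwμ hc
  rw [← hNdef] at h2
  have hs6 : 2 * (N + 1) ≤ s := by rw [hNdef]; linarith
  have hν' : ν = μ * δ := by rw [hμ, mul_assoc, mul_comm D, hδD, mul_one]
  have hν0 : 0 ≤ ν := by rw [hν']; exact mul_nonneg (by linarith) hδ0.le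
  have hμ0 : 0 ≤ μ := by linarith
  have hq' : q = 2 / 3 + 2 / 3 * δ := by
    linear_combination (δ / 3) * hq - (q - 2 / 3) * hδD
  have hA0 : 0 ≤ A := by rw [hAdef]; linarith
  have hAs : A ≤ s - 2 := by rw [hAdef]; linarith
  have hAμ : A ≤ μ * N := by
    have h1 : A ≤ N - 1 + μ := by rw [hAdef, hNdef]; linarith
    nlinarith
  have hP : P * s = q * μ := by rw [hPdef, hμ]; linear_combination ν * hu
  have hP0 : 0 ≤ P := by rw [hPdef]; exact mul_nonneg hν0 (by linarith)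
  have hq0 : 0 < q := by rw [hq']; positivity
  -- D is large
  have hD18 : 18 ≤ D := by nlinarith
  have hδ18 : 18 * δ ≤ 1 := by nlinarith
  have hqup : q ≤ 19 / 27 := by rw [hq']; linarith
  have hu' : q * (μ + 2) ≤ u := by
    have h1 : q * (μ + 2) * s ≤ u * s := by rw [hu]; nlinarith
    exact le_of_mul_le_mul_right h1 (by linarith)
  -- y
  have hy2 : y ≤ 2 * ν := by
    have h1 : y * (s + 1 - N) ≤ (2 * ν) * (s + 1 - N) := by
      have : y * (s + 1 - N) ≤ ν * A := by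
        rw [hNdef, hAdef]
        have e : s + 1 - (j + t) = s + 1 - j - t := by ring
        rw [e]; exact hyA
      have h3 : ν * A ≤ ν * (2 * (s + 1 - N)) := mul_le_mul_of_nonneg_left (by linarith) hν0
      linarith
    exact le_of_mul_le_mul_right h1 (by linarith)
  have hyu : y * u * (N - 1) ≤ 2 * P * (N - 1) := by
    have : y * u ≤ 2 * P := by
      rw [hPdef]
      have := mul_le_mul_of_nonneg_right hy2 (show 0 ≤ u by linarith)
      linarith
    exact mul_le_mul_of_nonneg_right this (by linarith)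
  -- the pieces
  have hK : (1 - ν) * (2 / 3 + 11 / (2 * D)) * A ≤ (q + 29 / 6 * δ) * A := by
    have e : 2 / 3 + 11 / (2 * D) = q + 29 / 6 * δ := by
      rw [hq', hδ]; field_simp; ring
    rw [e]
    apply mul_le_mul_of_nonneg_right _ hA0
    have : 0 ≤ ν * (q + 29 / 6 * δ) := by positivity
    linarith
  have hmain : XE D q ν u s j t w + y * u * (j + t - 1) ≤
      -(q * μ * N) + 3 * P * (N - 1) + 29 / 6 * δ * A + (2 * q - 1) * (ν * s) := by
    unfold XE
    rw [← hAdef]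
    have e1 : ν * u * (s + j - 1) = P * s + P * (j - 1) := by rw [hPdef]; ring
    rw [e1, hP]
    have e2 : j + t - 1 = N - 1 := by rw [hNdef]
    rw [e2]
    have h5 : u * (j + t + 1) ≥ q * (μ + 2) * (N + 1) := by
      rw [← hNdef]
      exact mul_le_mul_of_nonneg_right hu' (by linarith)
    have h6 : P * (j - 1) ≤ P * (N - 1) := mul_le_mul_of_nonneg_left (by linarith) hP0
    have h7 : 0 ≤ ν * t := mul_nonneg hν0 ht
    have h8 : 0 ≤ 2 * (1 - q) * ν * j := by
      have : 0 ≤ 1 - q := by linarith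
      positivity
    have h9 : q * w ≤ q * (s - 1 - N) := mul_le_mul_of_nonneg_left (by rw [hNdef]; linarith) hq0.le
    have h10 : 0 ≤ (3 * q - 2) * (N + 1) := mul_nonneg (by rw [hq']; linarith) (by linarith)
    have h11 : 0 ≤ q * ν := mul_nonneg hq0.le hν0
    have hAe : q * A = q * j - q + q * w := by rw [hAdef]; ring
    have hNe : N = j + t := hNdef
    nlinarith [h5, h6, h7, h8, h9, h10, h11, hAe, hK, hyu]
  refine hmain.trans ?_
  -- final estimates
  have g1 : 3 * P * (N - 1) ≤ 3 / 10 * q * μ * N := by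
    have h1 : 2 * (N + 1) * P ≤ q * μ := by
      rw [← hP]; nlinarith
    have h2' : 5 * (N - 1) ≤ N * (N + 1) := by nlinarith [sq_nonneg (N - 2)]
    have h3 : 5 * (N - 1) * P ≤ N * (N + 1) * P := mul_le_mul_of_nonneg_right h2' hP0
    have h4 : N * (2 * (N + 1) * P) ≤ N * (q * μ) := mul_le_mul_of_nonneg_left h1 (by linarith)
    nlinarith
  have g2 : 29 / 6 * δ * A ≤ 29 / 108 * (μ * N) := by
    have h1 : 6 * (N + 1) ≤ D := by nlinarith
    have h3 : 18 * δ ≤ 1 := hδ18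
    have h4 : δ * A ≤ δ * (μ * N) := mul_le_mul_of_nonneg_left hAμ hδ0.le
    have h5 : 0 ≤ μ * N := mul_nonneg hμ0 (by linarith)
    nlinarith
  have g3 : (2 * q - 1) * (ν * s) ≤ 11 / 162 * (μ * N) := by
    have h1 : ν * s ≤ μ / 3 := by
      have : s * δ ≤ 1 / 3 := by nlinarith
      rw [hν']; nlinarith
    have h3 : 0 ≤ 2 * q - 1 := by rw [hq']; linarith
    have h4 : (2 * q - 1) * (ν * s) ≤ (11 / 27) * (μ / 3) := by
      have : 0 ≤ ν * s := mul_nonneg hν0 (by linarith)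
      apply mul_le_mul _ h1 this (by norm_num)
      linarith
    nlinarith
  have g4 : 2 / 3 * (μ * N) ≤ q * μ * N := by
    have : 0 ≤ μ * N := mul_nonneg hμ0 (by linarith)
    have h3 : 2 / 3 ≤ q := by rw [hq']; linarith
    nlinarith
  have g5 : 0 ≤ μ * N := mul_nonneg hμ0 (by linarith)
  nlinarith

end Pool.Agent.Helper82.EC2
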