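import Pool.Agent.Helper82.EC2.AllA
import Pool.Agent.Helper82.EC2.M_LE
import Pool.Agent.Helper82.EC2.M_OE
import Pool.Agent.Helper82.EC2.M_R1H
import Pool.Agent.Helper82.EC2.M_R2H
import Pool.Agent.Helper82.EC2.M_R1L
import Pool.Agent.Helper82.EC2.M_R2L
import Pool.Agent.Helper82.EC2.M_VE

/-!
# MP_47b98d_co, second generation: everything together (the exact bound outside a window of degrees)
-/

set_option autoImplicit false

open scoped Classical

namespace Pool.Agent.Helper82.EC2

open EC EC.MGraph

theorem all_NH : StNH := stNH stFRA stLE stOE stR1H stR2H stVE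
theorem all_NL2 : StNL2 := stNL2 stFRA stLE stOE stR1L stR2L stVE

end Pool.Agent.Helper82.EC2
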