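import Pool.Agent.Helper82.EC2.StN
import Pool.Agent.Helper82.EC.Crit2

/-!
# MP_47b98d_co, second generation: from the discharging to critical multigraphs
-/

set_option autoImplicit false

open Finset
open scoped Classical

namespace Pool.Agent.Helper82.EC2

open EC EC.MGraph

/-- the average degree from the discharging -/
theorem avg_of2 (hFan : StFan) (hSum : StSum2) {V E : Type} [Fintype V] [Fintype E]
    {G : MGraph V E} (hG : G.IsDeltaCritical) {Q : ℝ} (hQ : Thr G.maxDeg Q)
    (hGood : ∀ v : V, (G.deg v : ℝ) + Q < G.maxDeg + 1 →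
      Good G.maxDeg G.multiplicity Q (G.deg v)) :
    Q ≤ G.avgDeg := by
  obtain ⟨dt⟩ := exists_data hFan hG.critG
  have h1 := hSum V E G G.maxDeg G.multiplicity dt Q hQ hGood
  have h2 : ∑ v : V, ((G.deg v : ℝ) - Q) =
      2 * (Fintype.card E : ℝ) - (Fintype.card V : ℝ) * Q := by
    rw [sum_sub_distrib, sum_const, card_univ, nsmul_eq_mul]
    congr 1
    have := sum_deg G
    exact_mod_cast this
  have hV : 0 < Fintype.card V := by
    by_contra h0
    have : Fintype.card V = 0 := by omega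
    have hemp : IsEmpty V := Fintype.card_eq_zero_iff.mp this
    have : G.maxDeg = 0 := by
      unfold maxDeg
      rw [univ_eq_empty, sup_empty]; rfl
    have := hQ.two_le
    omega
  have hV' : (0 : ℝ) < Fintype.card V := by exact_mod_cast hV
  rw [h2] at h1
  unfold avgDeg
  rw [le_div_iff₀ hV']
  nlinarith

theorem multiplicity_le_maxDeg {V E : Type} [Fintype V] [Fintype E] (G : MGraph V E) :
    G.multiplicity ≤ G.maxDeg := by
  unfold MGraph.multiplicity
  apply Finset.sup_le
  rintro ⟨u, v⟩ _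
  have h1 : G.mult u v ≤ G.deg u := by
    unfold mult deg inc
    apply card_le_card
    intro f hf
    rw [mem_filter] at hf ⊢
    refine ⟨mem_univ f, ?_⟩
    rw [hf.2]
    exact Sym2.mem_mk_left _ _
  exact h1.trans (le_sup (f := G.deg) (mem_univ u))

theorem thr_qA {D μ : ℕ} (hD : 2 ≤ D) (hμD : μ ≤ D) : Thr D (qA D μ) := by
  have h2 : (2 : ℝ) ≤ D := by exact_mod_cast hD
  have hμ : (μ : ℝ) ≤ D := by exact_mod_cast hμD
  have h0 : (0 : ℝ) ≤ μ := Nat.cast_nonneg μ
  have hp : (0 : ℝ) < 3 * D + μ := by positivity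
  refine ⟨hD, ?_, ?_⟩
  · unfold qA
    rw [← mul_div_assoc, le_div_iff₀ hp]
    nlinarith
  · unfold qA
    rw [← mul_div_assoc, div_le_iff₀ hp]
    nlinarith

theorem thr_qE {D : ℕ} (hD : 2 ≤ D) : Thr D (qE D) := by
  have h2 : (2 : ℝ) ≤ D := by exact_mod_cast hD
  refine ⟨hD, ?_, ?_⟩ <;> unfold qE <;> linarith

/-- all multiplicities -/
theorem final_all (hFan : StFan) (hSum : StSum2) (hN : StNA) {V E : Type} [Fintype V]
    [Fintype E] (G : MGraph V E) (hG : G.IsDeltaCritical) (hD : 2 ≤ G.maxDeg) :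
    2 * (G.maxDeg : ℝ) * ((G.maxDeg : ℝ) + 1) / (3 * G.maxDeg + G.multiplicity) ≤ G.avgDeg := by
  have hμD := multiplicity_le_maxDeg G
  have hμ := one_le_multiplicity G (by omega)
  refine avg_of2 hFan hSum hG (Q := qA G.maxDeg G.multiplicity) (thr_qA hD hμD) ?_
  intro v hv
  exact hN G.maxDeg G.multiplicity (G.deg v) hD hμ hμD (hG.critG.deg_pos v) hv

/-- the exact bound outside a window of degrees -/
theorem final_window (hFan : StFan) (hSum : StSum2) (hH : StNH) (hL : StNL2) {V E : Type}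
    [Fintype V] [Fintype E] (G : MGraph V E) (hG : G.IsDeltaCritical) (hD : 2 ≤ G.maxDeg)
    (hdeg : ∀ v : V, G.maxDeg + 1 ≤ 3 * G.deg v ∨ 9 * G.multiplicity ≤ 4 * G.deg v ∨
      G.deg v * (G.multiplicity + 2) ≤ G.maxDeg) :
    (2 * (G.maxDeg : ℝ) + 2) / 3 ≤ G.avgDeg := by
  have hμ := one_le_multiplicity G (by omega)
  refine avg_of2 hFan hSum hG (Q := qE G.maxDeg) (thr_qE hD) ?_
  intro v hv
  have h3 : 3 * G.deg v ≤ G.maxDeg := by
    have h4 : 3 * (G.deg v : ℝ) < G.maxDeg + 1 := by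
      unfold qE at hv
      linarith
    have h5 : 3 * G.deg v < G.maxDeg + 1 := by exact_mod_cast h4
    omega
  rcases hdeg v with h | h | h
  · omega
  · exact hH G.maxDeg G.multiplicity (G.deg v) hD hμ h (hG.critG.deg_pos v) h3
  · exact hL G.maxDeg G.multiplicity (G.deg v) hD hμ h (hG.critG.deg_pos v) h3

end Pool.Agent.Helper82.EC2
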