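import Pool.Agent.Helper82.EC2.StN

/-!
# EC2 module OA: the conditions on `ω` for the threshold `2 D (D + 1) / (3 D + μ)`
-/

set_option autoImplicit false

open Finset
open scoped Classical

namespace Pool.Agent.Helper82.EC2

namespace OAMod

theorem small_ineq {D Q k : ℝ} (hD : 10 ≤ D) (hQ1 : (3 * D + 1) * Q ≤ 2 * D * (D + 1))
    (_hQ2 : D + 1 ≤ 2 * Q) (hk : D - Q ≤ k) :
    2 * (k + 1) * (Q * D - (2 * D - Q) * k) ≤ (4 * Q - 2 * D + 3) * (D + 1 - k) * k := by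
  obtain ⟨z, hz⟩ : ∃ z, Q = (2 * D - (z - 4 / 3)) / 3 := ⟨2 * D - 3 * Q + 4 / 3, by ring⟩
  obtain ⟨x, hx⟩ : ∃ x, k = D - Q + x := ⟨k - (D - Q), by ring⟩
  have hz0 : 0 ≤ z := by
    rw [hz] at hQ1
    by_contra h
    rw [not_le] at h
    nlinarith
  have hx0 : 0 ≤ x := by linarith
  have ha : D - Q = (D + (z - 4 / 3)) / 3 := by rw [hz]; ring
  have key : (4 * Q - 2 * D + 3) * (D + 1 - k) * k - 2 * (k + 1) * (Q * D - (2 * D - Q) * k) =
      (D ^ 2 * (4 / 3 + 2 * z) + D * (4 * z ^ 2 + 19 / 3 * z - 59 / 9) + 2 * z ^ 3 - 13 * z ^ 2 +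
        33 * z - 692 / 27) / 9 +
      x * ((D * (2 * z + 16 / 3) + 2 * z ^ 2 - 37 / 3 * z + (32 / 9 + 28 / 3 + 9)) / 3 +
        (D - Q) * (6 * (D - Q) - 3) + 2 * (2 * D - Q)) + x ^ 2 * (6 * (D - Q) - 3) := by
    rw [hx, hz]; ring
  have h1 : 0 ≤ D ^ 2 * (4 / 3 + 2 * z) + D * (4 * z ^ 2 + 19 / 3 * z - 59 / 9) + 2 * z ^ 3 -
      13 * z ^ 2 + 33 * z - 692 / 27 := by
    have e1 : 0 ≤ D ^ 2 * (2 * z) := by positivity
    have e2 : 0 ≤ (D - 10) * (4 * z ^ 2) := mul_nonneg (by linarith) (by positivity)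
    have e3 : 0 ≤ D * (19 / 3 * z) := by positivity
    have e4 : 0 ≤ 2 * z ^ 3 := by positivity
    have e5 : 0 ≤ D ^ 2 * (4 / 3) - D * (59 / 9) - 692 / 27 := by nlinarith
    nlinarith
  have ha1 : 1 ≤ D - Q := by rw [ha]; linarith
  have h2 : 0 ≤ (D * (2 * z + 16 / 3) + 2 * z ^ 2 - 37 / 3 * z + (32 / 9 + 28 / 3 + 9)) / 3 +
        (D - Q) * (6 * (D - Q) - 3) + 2 * (2 * D - Q) := by
    have e1 : 0 ≤ (D - 10) * (2 * z) := mul_nonneg (by linarith) (by positivity)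
    have e2 : 0 ≤ (D - Q) * (6 * (D - Q) - 3) := mul_nonneg (by linarith) (by linarith)
    have e3 : 0 ≤ 2 * z ^ 2 := by positivity
    nlinarith
  have h3 : 0 ≤ x ^ 2 * (6 * (D - Q) - 3) := mul_nonneg (sq_nonneg x) (by linarith)
  have h4 := mul_nonneg hx0 h2
  linarith

theorem med_ineq {a Q k : ℝ} (ha : 0 < a) (hQa : Q ≤ 2 * a + 2) (hk : a + 1 ≤ k) (hkQ : k < Q) :
    (2 * k + 2) * ((Q - k) / (2 * a + 2 - k) * (a / (k - 1))) ≤ 2 * (Q - a) + 3 := by
  have h1 : 0 < 2 * a + 2 - k := by linarith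
  have h2 : 0 < k - 1 := by linarith
  have e1 : (Q - k) / (2 * a + 2 - k) ≤ (Q - a - 1) / (a + 1) := by
    rw [div_le_div_iff₀ h1 (by linarith)]
    nlinarith [mul_nonneg (sub_nonneg.2 hk) (sub_nonneg.2 hQa)]
  have e2 : (2 * k + 2) * (a / (k - 1)) ≤ 2 * a + 4 := by
    rw [mul_div_assoc', div_le_iff₀ h2]
    nlinarith
  have e3 : 0 ≤ (2 * k + 2) * (a / (k - 1)) := by
    have : 0 ≤ a / (k - 1) := div_nonneg ha.le h2.le
    have h3 : 0 ≤ 2 * k + 2 := by linarith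
    positivity
  have e4 : 0 ≤ (Q - a - 1) / (a + 1) := div_nonneg (by linarith) (by linarith)
  calc (2 * k + 2) * ((Q - k) / (2 * a + 2 - k) * (a / (k - 1)))
      = (Q - k) / (2 * a + 2 - k) * ((2 * k + 2) * (a / (k - 1))) := by ring
    _ ≤ (Q - a - 1) / (a + 1) * (2 * a + 4) := mul_le_mul e1 e2 e3 e4
    _ ≤ 2 * (Q - a) + 3 := by
        rw [div_mul_eq_mul_div, div_le_iff₀ (by linarith)]
        nlinarith

theorem last_ineq {D Q s : ℝ} (hD : 10 ≤ D) (hQ1 : (3 * D + 1) * Q ≤ 2 * D * (D + 1))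
    (hQ2 : D + 1 ≤ 2 * Q) (_hs0 : 0 ≤ s) (hs : s ≤ 2 * Q - D - 1) :
    (4 * Q - 2 * D + 3) * s * D ≤ (D + 1 - s) * (Q * D - 2 * (D - Q) * s) := by
  obtain ⟨z, hz⟩ : ∃ z, Q = (2 * D - (z - 4 / 3)) / 3 := ⟨2 * D - 3 * Q + 4 / 3, by ring⟩
  have hz0 : 0 ≤ z := by
    rw [hz] at hQ1
    by_contra h
    rw [not_le] at h
    nlinarith
  have hz1 : 2 * z ≤ D - 1 / 3 := by
    rw [hz] at hQ2
    linarith
  have ha1 : 1 ≤ D - Q := by rw [hz]; linarith
  set S := 2 * Q - D - 1 with hS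
  -- value at `S`
  have h1 : 0 ≤ (D + 1 - S) * (Q * D - 2 * (D - Q) * S) - (4 * Q - 2 * D + 3) * S * D := by
    have e : (D + 1 - S) * (Q * D - 2 * (D - Q) * S) - (4 * Q - 2 * D + 3) * S * D =
        (2 * D ^ 3 + 30 * D ^ 2 * (z - 4 / 3) + 27 * D ^ 2 - 18 * D * (z - 4 / 3) ^ 2 +
          36 * D * (z - 4 / 3) + 117 * D + 8 * (z - 4 / 3) ^ 3 + 36 * (z - 4 / 3) ^ 2 +
          36 * (z - 4 / 3)) / 27 := by
      rw [hS, hz]; ring
    rw [e]
    have e1 : 0 ≤ z * (D - 1 / 3 - 2 * z) * D := by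
      have := mul_nonneg hz0 (by linarith : 0 ≤ D - 1 / 3 - 2 * z)
      exact mul_nonneg this (by linarith)
    have e2 : 0 ≤ z ^ 3 := by positivity
    have e3 : 0 ≤ z ^ 2 := by positivity
    have e4 : 0 ≤ (D - 10) * z := mul_nonneg (by linarith) hz0
    have e5 : 0 ≤ (D - 10) * D * z := mul_nonneg (mul_nonneg (by linarith) (by linarith)) hz0
    have e6 : 0 ≤ (D - 10) * D ^ 2 := mul_nonneg (by linarith) (by positivity)
    nlinarith
  -- monotonicity
  have h2 : 0 ≤ (S - s) * (Q * D + 2 * (D - Q) * (D + 1) + (4 * Q - 2 * D + 3) * D -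
      2 * (D - Q) * (s + S)) := by
    refine mul_nonneg (by linarith) ?_
    have e1 : 2 * (D - Q) * (s + S) ≤ 2 * (D - Q) * (D + 1) := by
      refine mul_le_mul_of_nonneg_left ?_ (by linarith)
      rw [hS] at hs ⊢
      linarith
    have e2 : 0 ≤ (4 * Q - 2 * D + 3) * D := mul_nonneg (by linarith) (by linarith)
    have e3 : 0 ≤ Q * D := mul_nonneg (by linarith) (by linarith)
    linarith
  have e : (D + 1 - s) * (Q * D - 2 * (D - Q) * s) - (4 * Q - 2 * D + 3) * s * D =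
      ((D + 1 - S) * (Q * D - 2 * (D - Q) * S) - (4 * Q - 2 * D + 3) * S * D) +
      (S - s) * (Q * D + 2 * (D - Q) * (D + 1) + (4 * Q - 2 * D + 3) * D -
      2 * (D - Q) * (s + S)) := by ring
  linarith

end OAMod

open OAMod

theorem stOA : StOA := by
  intro D μ s m j t hD2 hμ1 hμD hs1 hsQ hm hm1 hEE
  have hDR : (2 : ℝ) ≤ D := by exact_mod_cast hD2
  have hD0 : (0 : ℝ) < D := by linarith
  have hμR : (1 : ℝ) ≤ μ := by exact_mod_cast hμ1
  have hμDR : (μ : ℝ) ≤ D := by exact_mod_cast hμD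
  have hsR : (1 : ℝ) ≤ s := by exact_mod_cast hs1
  have hs0 : (0 : ℝ) < s := by linarith
  have hmR : (m : ℝ) + j + t + 1 = s := by exact_mod_cast hm
  have hm1R : (1 : ℝ) ≤ m := by exact_mod_cast hm1
  have hj0 : (0 : ℝ) ≤ j := Nat.cast_nonneg j
  have ht0 : (0 : ℝ) ≤ t := Nat.cast_nonneg t
  set Q : ℝ := qA D μ with hQdef
  have hden : (0 : ℝ) < 3 * D + μ := by linarith
  have hQe : Q * (3 * D + μ) = 2 * D * (D + 1) := by
    rw [hQdef, qA]
    field_simp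
  have hQ0 : 0 < Q := by
    rw [hQdef, qA]; positivity
  have hQ1 : (3 * (D : ℝ) + 1) * Q ≤ 2 * D * (D + 1) := by
    have := mul_le_mul_of_nonneg_left (by linarith : 3 * (D : ℝ) + 1 ≤ 3 * D + μ) hQ0.le
    linarith
  have hQ2 : (D : ℝ) + 1 ≤ 2 * Q := by
    have h1 : Q * (3 * D + μ) ≤ Q * (4 * D) := mul_le_mul_of_nonneg_left (by linarith) hQ0.le
    rw [hQe] at h1
    nlinarith
  have hQ3 : 3 * Q ≤ 2 * (D : ℝ) + 2 := by
    nlinarith
  have hQD : Q ≤ D := by linarith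
  -- `W`
  have hW : WA D μ * D = 4 * Q - 2 * D + 3 := by
    have e : Q * (μ : ℝ) = D * (2 * (D + 1) - 3 * Q) := by linarith
    have : WA D μ * D = Q - Q * μ / D + 5 := by
      rw [WA, ← hQdef]
      field_simp
    rw [this, e]
    field_simp
    ring
  -- consequences of `0 < EE`
  have hal : al D Q ≤ 1 := by
    rw [al, div_le_one hD0]; linarith
  have hal0 : 0 ≤ al D Q := by
    rw [al]; exact div_nonneg (by linarith) hD0.le
  have hEE' : 0 < (m : ℝ) * (Q / s - 1) + t + al D Q * j - ((D : ℝ) - Q) := hEE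
  have hu2 : 2 < Q / s := by
    by_contra h
    rw [not_lt] at h
    have e1 : (m : ℝ) * (Q / s - 1) ≤ m * 1 := mul_le_mul_of_nonneg_left (by linarith) (by linarith)
    have e2 : al D Q * j ≤ 1 * j := mul_le_mul_of_nonneg_right hal hj0
    linarith
  have hsu : (s : ℝ) + Q / s < 2 * Q - D + 1 := by
    have e1 : 0 ≤ (j : ℝ) * (Q / s - 1 - al D Q) := mul_nonneg hj0 (by linarith)
    have e2 : 0 ≤ (t : ℝ) * (Q / s - 2) := mul_nonneg ht0 (by linarith)
    have e3 : (m : ℝ) = s - 1 - j - t := by linarith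
    rw [e3] at hEE'
    have e4 : (s : ℝ) * (Q / s) = Q := by field_simp
    nlinarith
  have hs2 : 2 ≤ s := by
    have : (2 : ℝ) ≤ s := by linarith
    exact_mod_cast this
  have hs3 : 3 ≤ s := by
    rcases Nat.lt_or_ge 2 s with h | h
    · omega
    · exfalso
      have h2 : s = 2 := by omega
      rw [h2] at hsu
      push_cast at hsu
      nlinarith
  have hs3R : (3 : ℝ) ≤ s := by exact_mod_cast hs3
  have hD10 : 10 ≤ D := by
    by_contra h
    have h9 : D ≤ 9 := by omega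
    have h9R : (D : ℝ) ≤ 9 := by exact_mod_cast h9
    have e1 : (D : ℝ) + 4 < 2 * Q := by linarith
    have e2 := mul_lt_mul_of_pos_left e1 (by linarith : (0 : ℝ) < 3 * D + 1)
    nlinarith
  have hD10R : (10 : ℝ) ≤ D := by exact_mod_cast hD10
  have hsS : (s : ℝ) ≤ 2 * Q - D - 1 := by linarith
  have hn : 0 < (D : ℝ) + 1 - s := by linarith
  have hWpos : 0 ≤ WA D μ := by
    have : 0 ≤ WA D μ * D := by rw [hW]; linarith
    exact nonneg_of_mul_nonneg_left this hD0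
  refine ⟨⟨div_nonneg hWpos hn.le, ?_, ?_⟩, ?_⟩
  · -- small
    intro k hk1 hk2 hk3
    have hkR : (1 : ℝ) ≤ k := by exact_mod_cast hk1
    have hk0 : (0 : ℝ) < k := by linarith
    have hk2R : (D : ℝ) + 1 ≤ s + 2 * k + 2 := by exact_mod_cast hk2
    have hka : (D : ℝ) - Q ≤ k := by linarith
    have hDk : 0 < (D : ℝ) - k + 1 := by linarith
    rw [ph, div_le_div_iff₀ hDk hn]
    rcases le_or_gt (gg Q k - al D Q) 0 with h0 | h0
    · have e1 : (gg Q k - al D Q) * ((D : ℝ) + 1 - s) ≤ 0 :=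
        mul_nonpos_of_nonpos_of_nonneg h0 hn.le
      exact e1.trans (mul_nonneg hWpos hDk.le)
    · have e1 : (gg Q k - al D Q) * ((D : ℝ) + 1 - s) ≤ (gg Q k - al D Q) * (2 * k + 2) :=
        mul_le_mul_of_nonneg_left (by linarith) h0.le
      refine e1.trans ?_
      have e2 := small_ineq hD10R hQ1 hQ2 hka
      have e3 : (gg Q k - al D Q) * (2 * k + 2) * (k * D) =
          2 * (k + 1) * (Q * D - (2 * D - Q) * k) := by
        rw [gg, al]
        field_simp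
        ring
      have e4 : WA D μ * ((D : ℝ) - k + 1) * (k * D) =
          (4 * Q - 2 * D + 3) * (D + 1 - k) * k := by
        rw [← hW]; ring
      have e5 : (gg Q k - al D Q) * (2 * k + 2) * (k * D) ≤
          WA D μ * ((D : ℝ) - k + 1) * (k * D) := by
        rw [e3, e4]; exact e2
      exact le_of_mul_le_mul_right e5 (mul_pos hk0 hD0)
  · -- medium
    intro k hk1 hk2 hk3 hk4
    have hk2R : (D : ℝ) + 1 ≤ s + 2 * k + 2 := by exact_mod_cast hk2
    have ha : 0 < (D : ℝ) - Q := by linarith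
    have e1 := med_ineq (a := (D : ℝ) - Q) (Q := Q) (k := k) ha (by linarith) (by linarith) hk4
    have hff : ff D Q k = (Q - k) / (2 * ((D : ℝ) - Q) + 2 - k) * (((D : ℝ) - Q) / (k - 1)) := by
      rw [ff]
      congr 2
      ring
    rw [← hff] at e1
    have hff0 : 0 ≤ ff D Q k := by
      rw [hff]
      refine mul_nonneg (div_nonneg (by linarith) (by linarith)) (div_nonneg ha.le (by linarith))
    rw [div_mul_eq_mul_div, le_div_iff₀ hn, hW]
    calc ff D Q k * ((D : ℝ) + 1 - s) ≤ ff D Q k * (2 * k + 2) :=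
          mul_le_mul_of_nonneg_left (by linarith) hff0
      _ = (2 * k + 2) * ff D Q k := by ring
      _ ≤ 2 * (Q - (D - Q)) + 3 := e1
      _ = 4 * Q - 2 * D + 3 := by ring
  · -- last
    have e1 := last_ineq hD10R hQ1 hQ2 hs0.le hsS
    rw [div_le_iff₀ hn]
    have e2 : WA D μ * (s * D ^ 2) ≤ ((Q / D / s - dl D Q) * ((D : ℝ) + 1 - s)) * (s * D ^ 2) := by
      have e3 : WA D μ * (s * D ^ 2) = (4 * Q - 2 * D + 3) * s * D := by
        rw [← hW]; ring
      have e4 : ((Q / D / s - dl D Q) * ((D : ℝ) + 1 - s)) * (s * D ^ 2) =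
          (D + 1 - s) * (Q * D - 2 * (D - Q) * s) := by
        rw [dl]
        field_simp
      rw [e3, e4]
      exact e1
    exact le_of_mul_le_mul_right e2 (by positivity)

end Pool.Agent.Helper82.EC2
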