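import Pool.Agent.Helper82.EC.St

/-!
# MP_47b98d_co, second generation: discharging with a real threshold `Q`
-/

set_option autoImplicit false

open Finset
open scoped Classical

namespace Pool.Agent.Helper82.EC2

open EC EC.MGraph

/-! ## numbers -/

/-- admissible thresholds: `(D + 1) / 2 ≤ Q ≤ (2 D + 2) / 3` -/
structure Thr (D : ℕ) (Q : ℝ) : Prop where
  two_le : 2 ≤ D
  lo : (D : ℝ) + 1 ≤ 2 * Q
  hi : 3 * Q ≤ 2 * (D : ℝ) + 2

/-- `(D - Q) / D` -/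
noncomputable def al (D : ℕ) (Q : ℝ) : ℝ := ((D : ℝ) - Q) / D

/-- `2 (D - Q) / D ^ 2` -/
noncomputable def dl (D : ℕ) (Q : ℝ) : ℝ := 2 * ((D : ℝ) - Q) / (D : ℝ) ^ 2

/-- what a small vertex of degree `k` asks on each of its edges -/
noncomputable def gg (Q k : ℝ) : ℝ := Q / k - 1

/-- `(gg k - al) / (D - k + 1)` -/
noncomputable def ph (D : ℕ) (Q k : ℝ) : ℝ := (gg Q k - al D Q) / ((D : ℝ) - k + 1)

/-- bound for the payment to a medium vertex of degree `k` -/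
noncomputable def ff (D : ℕ) (Q k : ℝ) : ℝ :=
  (Q - k) / (2 * (D : ℝ) + 2 - 2 * Q - k) * (((D : ℝ) - Q) / (k - 1))

/-- bound for the deficit of a rich vertex of degree `D - t` with minimum neighbour degree `s`, with
`m` poor edges and `j` rich edges outside the fan -/
noncomputable def EE (D : ℕ) (Q s m j t : ℝ) : ℝ := m * gg Q s + t + al D Q * j - ((D : ℝ) - Q)

/-- condition for `ω`: bound for the loss per edge to a poor vertex whose degree is not very small -/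
structure OMok (D : ℕ) (Q : ℝ) (s : ℕ) (ω : ℝ) : Prop where
  nonneg : 0 ≤ ω
  small : ∀ k : ℕ, 1 ≤ k → D + 1 ≤ s + 2 * k + 2 → (k : ℝ) + Q < D + 1 → ph D Q k ≤ ω
  medium : ∀ k : ℕ, 1 ≤ k → D + 1 ≤ s + 2 * k + 2 → (D : ℝ) + 1 ≤ k + Q → (k : ℝ) < Q →
    ff D Q k ≤ ω * D

/-- the main numerical inequality -/
def FR (D : ℕ) (μ Q s m j t w ω y : ℝ) : Prop :=
  EE D Q s m j t + ((D : ℝ) + 1 - s) * ω * (j - 1 + w) + μ * (s - 2 - t) / D +
    (y * (Q / D - (dl D Q + ω) * (m + 2)) +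
      min μ ((D : ℝ) + 1 - s - y) * ((s - w) * (Q / D / s - dl D Q) +
        (j - 1 + w - (m + 2) * y / μ) * (Q / D / s - dl D Q - ω))) ≤
    ((D : ℝ) + 1 - s) * al D Q

/-- the numerical condition for small vertices of degree `s` in graphs of multiplicity at most `μ` -/
def Good (D μ : ℕ) (Q : ℝ) (s : ℕ) : Prop := ∀ m j t : ℕ, m + j + t + 1 = s → 1 ≤ m →
  0 < EE D Q s m j t → ∃ ω : ℝ, OMok D Q s ω ∧ ω ≤ Q / D / s - dl D Q ∧
    ∀ w : ℕ, 1 ≤ w → w ≤ μ → w ≤ m → ∀ y : ℝ, 0 ≤ y → y ≤ (D : ℝ) + 1 - s →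
      y * ((m : ℝ) + 2) ≤ μ * ((j : ℝ) - 1 + w) → (0 < y → m + 3 ≤ s) →
      FR D μ Q s m j t w ω y

/-! ## payments -/

/-- the share of a rich vertex of degree `du` at a medium vertex of degree `dp` -/
noncomputable def hh (D : ℕ) (Q : ℝ) (du dp : ℕ) : ℝ :=
  if Q ≤ du then ((du : ℝ) - Q) / ((du : ℝ) + dp - D - 1) else 0

section
variable {V E : Type} [Fintype V] [Fintype E]

/-- the sum of all shares at `p` -/
noncomputable def SH (G : MGraph V E) (D : ℕ) (Q : ℝ) (p : V) : ℝ :=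
  ∑ f ∈ G.inc p, hh D Q (G.deg (G.opp p f)) (G.deg p)

/-- the payment of `u` to an adjacent vertex `p`, per edge: `0` unless `u` is rich and `p` is poor -/
noncomputable def pay (G : MGraph V E) (D : ℕ) (Q : ℝ) (u p : V) : ℝ :=
  if Q ≤ G.deg u ∧ (G.deg p : ℝ) < Q then
    if (G.deg p : ℝ) + Q < D + 1 then Q / G.deg p - 1
    else (Q - G.deg p) / SH G D Q p * hh D Q (G.deg u) (G.deg p)
  else 0

/-- total payment of `u` -/
noncomputable def QQ (G : MGraph V E) (D : ℕ) (Q : ℝ) (u : V) : ℝ :=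
  ∑ f ∈ G.inc u, pay G D Q u (G.opp u f)

/-- the poor vertices -/
noncomputable def P0 (G : MGraph V E) (Q : ℝ) : Finset V := univ.filter fun p => (G.deg p : ℝ) < Q

/-- the very small vertices, relative to `s` -/
noncomputable def S0 (G : MGraph V E) (D s : ℕ) : Finset V :=
  univ.filter fun p => s + 2 * G.deg p + 2 ≤ D

variable {G : MGraph V E} {D μ : ℕ}

/-- `u` has a small neighbour -/
def Sm (dt : Data G D μ) (Q : ℝ) (u : V) : Prop := (G.deg (dt.xx u) : ℝ) + Q < D + 1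

/-- number of edges at `u` to poor vertices -/
noncomputable def mm (_ : Data G D μ) (Q : ℝ) (u : V) : ℕ :=
  ((G.inc u).filter fun f => (G.deg (G.opp u f) : ℝ) < Q).card

/-- number of edges at `u` to rich vertices that are not in the fan -/
noncomputable def jj (dt : Data G D μ) (Q : ℝ) (u : V) : ℕ :=
  ((G.inc u).filter fun f => f ∉ dt.FF u ∧ Q ≤ G.deg (G.opp u f)).card

/-- what `u` has left after its payments and after the reserve `al` for each of its rich edges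
outside the fan (the reserve is only made by vertices with a small neighbour) -/
noncomputable def spare (dt : Data G D μ) (Q : ℝ) (u : V) : ℝ :=
  (G.deg u : ℝ) - Q - QQ G D Q u - if Sm dt Q u then al D Q * jj dt Q u else 0

/-- what `u` gives on each edge of its fan (on each of its edges if it has no small neighbour) -/
noncomputable def kap (dt : Data G D μ) (Q : ℝ) (u : V) : ℝ :=
  if Sm dt Q u then max 0 (spare dt Q u) / ((D : ℝ) - G.deg (dt.xx u) + 1) else spare dt Q u / D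

/-- what the vertex `w` gets over the edge `f ∈ FF w` -/
noncomputable def tau (dt : Data G D μ) (Q : ℝ) (w : V) (f : E) : ℝ :=
  if Sm dt Q (G.opp w f) ∧ f ∉ dt.FF (G.opp w f) then al D Q else kap dt Q (G.opp w f)

end

/-! ## statements: discharging -/

/-- a medium vertex has many shares -/
def StShare : Prop := ∀ (V E : Type) [Fintype V] [Fintype E] (G : MGraph V E) (D μ : ℕ)
  (_ : Data G D μ) (Q : ℝ), Thr D Q → ∀ p : V, (D : ℝ) + 1 ≤ G.deg p + Q → (G.deg p : ℝ) < Q →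
    2 * (D : ℝ) + 2 - 2 * Q - G.deg p ≤ SH G D Q p

/-- every poor vertex receives exactly what it needs -/
def StRec2 : Prop := ∀ (V E : Type) [Fintype V] [Fintype E] (G : MGraph V E) (D μ : ℕ)
  (_ : Data G D μ) (Q : ℝ), Thr D Q → ∀ p : V, (G.deg p : ℝ) < Q →
    ∑ f ∈ G.inc p, pay G D Q (G.opp p f) p = Q - G.deg p

/-- bounds for one payment -/
def StPay : Prop := ∀ (V E : Type) [Fintype V] [Fintype E] (G : MGraph V E) (D μ : ℕ)
  (_ : Data G D μ) (Q : ℝ), Thr D Q → ∀ u p : V, 0 ≤ pay G D Q u p ∧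
    ((D : ℝ) + 1 ≤ G.deg p + Q → (G.deg p : ℝ) < Q →
      pay G D Q u p ≤ hh D Q (G.deg u) (G.deg p) ∧ pay G D Q u p ≤ ff D Q (G.deg p) ∧
      ff D Q (G.deg p) ≤ gg Q ((D : ℝ) + 1 - Q))

/-- a rich vertex without small neighbours can pay (no condition on the multiplicity) -/
def StMp2 : Prop := ∀ (V E : Type) [Fintype V] [Fintype E] (G : MGraph V E) (D μ : ℕ)
  (dt : Data G D μ) (Q : ℝ), Thr D Q → ∀ u : V, Q ≤ G.deg u → ¬ Sm dt Q u →
    QQ G D Q u ≤ (G.deg u : ℝ) - Q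

/-- counts at a rich vertex `w` with a small neighbour -/
def StAc2 : Prop := ∀ (V E : Type) [Fintype V] [Fintype E] (G : MGraph V E) (D μ : ℕ)
  (dt : Data G D μ) (Q : ℝ), Thr D Q → ∀ w : V, Q ≤ G.deg w → Sm dt Q w →
    (∀ f ∈ dt.FF w, Q ≤ G.deg (G.opp w f)) ∧
    mm dt Q w + jj dt Q w + (D - G.deg w) + 1 = G.deg (dt.xx w) ∧
    1 ≤ G.mult (dt.xx w) w ∧ G.mult (dt.xx w) w ≤ mm dt Q w ∧
    (∀ v ∈ (dt.FF w).image (G.opp w),
      G.degTo v ((P0 G Q).erase (dt.xx w)) + 1 ≤ jj dt Q w + G.mult (dt.xx w) w) ∧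
    ∑ v ∈ (dt.FF w).image (G.opp w), G.degTo v ((S0 G D (G.deg (dt.xx w))).erase (dt.xx w)) + 1 ≤
      jj dt Q w + G.mult (dt.xx w) w ∧
    ∑ v ∈ (dt.FF w).image (G.opp w), G.mult (dt.xx w) v + G.mult (dt.xx w) w ≤
      G.deg (dt.xx w) ∧
    ∑ v ∈ (dt.FF w).image (G.opp w), (D - G.deg v) + 2 + (D - G.deg w) ≤ G.deg (dt.xx w) ∧
    (∀ f ∈ dt.FF w, f ∈ dt.FF (G.opp w f) → G.deg (dt.xx (G.opp w f)) < G.deg (dt.xx w) →
      mm dt Q w + 2 + G.mult (dt.xx w) (G.opp w f) ≤ G.deg (dt.xx (G.opp w f)) ∧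
      G.degTo (G.opp w f) ((S0 G D (G.deg (dt.xx w))).erase (dt.xx w)) +
        G.mult (dt.xx w) (G.opp w f) + 1 ≤ G.deg (dt.xx (G.opp w f)))

/-- the loss on one edge `f ∈ FF w` -/
def StLoss2 : Prop := ∀ (V E : Type) [Fintype V] [Fintype E] (G : MGraph V E) (D μ : ℕ)
  (dt : Data G D μ) (Q ω : ℝ), Thr D Q → ∀ w : V, Q ≤ G.deg w → Sm dt Q w →
    OMok D Q (G.deg (dt.xx w)) ω → ω ≤ Q / D / G.deg (dt.xx w) - dl D Q → ∀ f ∈ dt.FF w,
    al D Q - tau dt Q w f ≤ ω * G.degTo (G.opp w f) ((P0 G Q).erase (dt.xx w)) +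
      ((if G.deg (dt.xx (G.opp w f)) < G.deg (dt.xx w) then
          Q / D / G.deg (dt.xx (G.opp w f)) - dl D Q - ω
        else Q / D / G.deg (dt.xx w) - dl D Q - ω) *
        G.degTo (G.opp w f) ((S0 G D (G.deg (dt.xx w))).erase (dt.xx w)) +
      (Q / D / G.deg (dt.xx w) - dl D Q) * G.mult (dt.xx w) (G.opp w f)) +
      ((D : ℝ) - G.deg (G.opp w f)) / D

/-- the optimisation over the distribution of the fan edges among the neighbours -/
def StFL : Prop := ∀ (ι : Type) (N : Finset ι) (A : ι → Prop) (mu S h ρ : ι → ℝ)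
  (n μ s H SA r q δ ω : ℝ), 0 < μ → 0 < r → 0 < s → 0 ≤ q → 0 ≤ δ → 0 ≤ ω → ω ≤ q / s - δ →
    (∀ v ∈ N, 0 ≤ mu v ∧ mu v ≤ μ) → ∑ v ∈ N, mu v = n → (∀ v ∈ N, 0 ≤ S v ∧ 0 ≤ h v) →
    ∑ v ∈ N, S v ≤ SA → ∑ v ∈ N, h v ≤ H →
    (∀ v ∈ N, A v → r + h v ≤ ρ v ∧ S v + h v + 1 ≤ ρ v ∧ ρ v + 1 ≤ s) →
    ∃ y : ℝ, 0 ≤ y ∧ y ≤ n ∧ y * r ≤ μ * SA ∧ (0 < y → r + 1 ≤ s) ∧
      ∑ v ∈ N, mu v * ((if A v then q / ρ v - δ - ω else q / s - δ - ω) * S v +
        (q / s - δ) * h v) ≤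
      y * (q - (δ + ω) * r) +
        min μ (n - y) * (H * (q / s - δ) + (SA - r * y / μ) * (q / s - δ - ω))

/-- a rich vertex with a small neighbour does not end with a deficit -/
def StDebt2 : Prop := ∀ (V E : Type) [Fintype V] [Fintype E] (G : MGraph V E) (D μ : ℕ)
  (dt : Data G D μ) (Q : ℝ), Thr D Q → ∀ w : V, Q ≤ G.deg w → Sm dt Q w →
    Good D μ Q (G.deg (dt.xx w)) → spare dt Q w < 0 →
    0 ≤ spare dt Q w + ∑ f ∈ dt.FF w, tau dt Q w f

/-- the whole discharging -/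
def StSum2 : Prop := ∀ (V E : Type) [Fintype V] [Fintype E] (G : MGraph V E) (D μ : ℕ)
  (_ : Data G D μ) (Q : ℝ), Thr D Q →
    (∀ v : V, (G.deg v : ℝ) + Q < D + 1 → Good D μ Q (G.deg v)) →
    0 ≤ ∑ v : V, ((G.deg v : ℝ) - Q)

/-! ## statements: numbers -/

/-- the threshold `2 D (D + 1) / (3 D + μ)` -/
noncomputable def qA (D μ : ℕ) : ℝ := 2 * (D : ℝ) * ((D : ℝ) + 1) / (3 * D + μ)

/-- the threshold `(2 D + 2) / 3` -/
noncomputable def qE (D : ℕ) : ℝ := (2 * (D : ℝ) + 2) / 3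

/-- all multiplicities -/
def StNA : Prop := ∀ D μ s : ℕ, 2 ≤ D → 1 ≤ μ → μ ≤ D → 1 ≤ s → (s : ℝ) + qA D μ < D + 1 →
  Good D μ (qA D μ) s

/-- the exact threshold, large minimum degree -/
def StNH : Prop := ∀ D μ s : ℕ, 2 ≤ D → 1 ≤ μ → 9 * μ ≤ 4 * s → 1 ≤ s → 3 * s ≤ D →
  Good D μ (qE D) s

/-- the exact threshold, small degree -/
def StNL : Prop := ∀ D μ s : ℕ, 2 ≤ D → 1 ≤ μ → s * (μ + 1) ≤ D → 1 ≤ s → 3 * s ≤ D →
  Good D μ (qE D) s

end Pool.Agent.Helper82.EC2
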