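import Pool.Agent.Helper82.EC2.St

/-!
# MP_47b98d_co, second generation: statements of the numerical modules
-/

set_option autoImplicit false

open Finset
open scoped Classical

namespace Pool.Agent.Helper82.EC2

/-! ## reduction of `FR` to three inequalities -/

/-- left minus right side of `FR` at `y = 0`, with `ω = W / (D + 1 - s)` and `μ ≤ D + 1 - s` -/
noncomputable def T0 (D : ℕ) (μ Q s m j t w W : ℝ) : ℝ :=
  EE D Q s m j t - ((D : ℝ) + 1 - s) * al D Q + W * (j - 1 + w) + μ * (s - 2 - t) / D +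
    μ * ((s - w) * (Q / D / s - dl D Q) +
      (j - 1 + w) * (Q / D / s - dl D Q - W / ((D : ℝ) + 1 - s)))

/-- `FR` for all `y` from `y = 0`, from `0 < y ≤ n - μ` and from one inequality for `y > n - μ` -/
def StFRA : Prop := ∀ (D : ℕ) (μ Q s m j t w W : ℝ), 2 ≤ D → 0 < Q → Q ≤ D → 1 ≤ μ → 1 ≤ s →
  s ≤ D → μ ≤ (D : ℝ) + 1 - s → m + j + t + 1 = s → 0 ≤ j → 0 ≤ t → 1 ≤ w → w ≤ m → 0 ≤ W →
  W / ((D : ℝ) + 1 - s) ≤ Q / D / s - dl D Q →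
  T0 D μ Q s m j t w W ≤ 0 →
  (∀ y : ℝ, 0 < y → y ≤ (D : ℝ) + 1 - s - μ → y * (m + 2) ≤ μ * (j - 1 + w) → m + 3 ≤ s →
    T0 D μ Q s m j t w W + y * (Q / D) * (j + t - 1) / s ≤ 0) →
  (∀ y : ℝ, (D : ℝ) + 1 - s - μ < y → y ≤ (D : ℝ) + 1 - s → y * (m + 2) ≤ μ * (j - 1 + w) →
    m + 3 ≤ s →
    T0 D μ Q s m j t w W + ((D : ℝ) + 1 - s - μ) * (Q / D) * (j + t - 1) / s +
      (y - ((D : ℝ) + 1 - s - μ)) * dl D Q * (s - w) ≤ 0) →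
  ∀ y : ℝ, 0 ≤ y → y ≤ (D : ℝ) + 1 - s → y * (m + 2) ≤ μ * (j - 1 + w) → (0 < y → m + 3 ≤ s) →
    FR D μ Q s m j t w (W / ((D : ℝ) + 1 - s)) y

/-! ## the threshold `2 D (D + 1) / (3 D + μ)` -/

/-- the hypotheses in normalised form: `ν = μ / D`, `q = Q / D`, `u = Q / s`,
`p = (1 - ν) u / 2 - 1` -/
structure HA (D q ν u s p j t w : ℝ) : Prop where
  hD : 12 ≤ D
  hν : 1 ≤ ν * D
  hν1 : ν < 1
  hq : q * (3 + ν) * D = 2 * (D + 1)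
  hu : u * s = q * D
  hu2 : 2 < u
  hp : (1 - ν) * u = 2 * (1 + p)
  hs : 2 ≤ s
  hj : 0 ≤ j
  ht : 0 ≤ t
  hw : 1 ≤ w
  hwm : w ≤ s - 1 - j - t
  hwμ : w ≤ ν * D
  hE : (u - 2) * (j + t + 1) + q * j ≤ s * p

/-- upper bound for `T0` -/
noncomputable def XA (D q ν u s p j t w : ℝ) : ℝ :=
  2 - (1 + ν) * u - j * (2 * p + q + 2 * (1 - q) * ν) - t * (u - 2 + ν) - q * (s - 1) +
    ν * (s - 2) - 2 * (1 - q) * ν * (s - 1) + (1 - ν) * (q * (1 - ν) + 5 / D) * (j - 1 + w)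

/-- case `y = 0` -/
def StR1A : Prop := ∀ D q ν u s p j t w : ℝ, HA D q ν u s p j t w → XA D q ν u s p j t w ≤ 0

/-- case `0 < y ≤ n - μ`; here `y` is divided by `D` -/
def StR2A : Prop := ∀ D q ν u s p j t w y : ℝ, HA D q ν u s p j t w → 2 ≤ j + t → 0 ≤ y →
  y ≤ 1 - ν - (s - 1) / D → y * (s + 1 - j - t) ≤ ν * (j - 1 + w) →
  XA D q ν u s p j t w + y * u * (j + t - 1) ≤ 0

/-- case `n - μ < y ≤ n`; here `y` is divided by `D` -/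
def StR3A : Prop := ∀ D q ν u s p j t w y : ℝ, HA D q ν u s p j t w → 2 ≤ j + t →
  1 - ν - (s - 1) / D ≤ y → y ≤ 1 - (s - 1) / D → y * (s + 1 - j - t) ≤ ν * (j - 1 + w) →
  XA D q ν u s p j t w + (1 - ν - (s - 1) / D) * u * (j + t - 1) +
    2 * (1 - q) * (y - (1 - ν - (s - 1) / D)) * (s - w) ≤ 0

/-- `D + 1 - s` times `ω` -/
noncomputable def WA (D μ : ℕ) : ℝ := qA D μ / D * (1 - (μ : ℝ) / D) + 5 / D

/-- from natural numbers to the normalised form -/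
def StLA : Prop := ∀ D μ s m j t w : ℕ, 2 ≤ D → 1 ≤ μ → μ ≤ D → 1 ≤ s →
  (s : ℝ) + qA D μ < D + 1 → m + j + t + 1 = s → 1 ≤ m → 0 < EE D (qA D μ) s m j t → 1 ≤ w →
  w ≤ μ → w ≤ m →
  HA D (qA D μ / D) ((μ : ℝ) / D) (qA D μ / s) s
    ((1 - (μ : ℝ) / D) * (qA D μ / s) / 2 - 1) j t w ∧
  (μ : ℝ) ≤ (D : ℝ) + 1 - s ∧
  T0 D μ (qA D μ) s m j t w (WA D μ) ≤ XA D (qA D μ / D) ((μ : ℝ) / D) (qA D μ / s) s
    ((1 - (μ : ℝ) / D) * (qA D μ / s) / 2 - 1) j t w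

/-- the conditions on `ω` -/
def StOA : Prop := ∀ D μ s m j t : ℕ, 2 ≤ D → 1 ≤ μ → μ ≤ D → 1 ≤ s →
  (s : ℝ) + qA D μ < D + 1 → m + j + t + 1 = s → 1 ≤ m → 0 < EE D (qA D μ) s m j t →
  OMok D (qA D μ) s (WA D μ / ((D : ℝ) + 1 - s)) ∧
  WA D μ / ((D : ℝ) + 1 - s) ≤ qA D μ / D / s - dl D (qA D μ)

/-! ## the threshold `(2 D + 2) / 3` -/

/-- the hypotheses in normalised form: `ν = μ / D`, `q = Q / D`, `u = Q / s` -/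
structure HE (D q ν u s j t w : ℝ) : Prop where
  hD : 9 ≤ D
  hν : 1 ≤ ν * D
  hq : 3 * (q * D) = 2 * (D + 1)
  hu : u * s = q * D
  hs : 3 ≤ s
  hsD : 3 * s ≤ D
  hj : 0 ≤ j
  ht : 0 ≤ t
  hw : 1 ≤ w
  hwm : w ≤ s - 1 - j - t
  hwμ : w ≤ ν * D
  hE : (u - 2) * (j + t + 1) + q * j ≤ (D + 1) / 3 - s

/-- upper bound for `T0` -/
noncomputable def XE (D q ν u s j t w : ℝ) : ℝ :=
  2 - q * (s - 1) - u * (j + t + 1) + (2 - q) * j + 2 * t +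
    (1 - ν) * (2 / 3 + 11 / (2 * D)) * (j - 1 + w) + ν * (s - 2 - t) + ν * u * (s + j - 1) -
    2 * (1 - q) * ν * (s + j - 1)

/-- large `s`, case `y = 0` -/
def StR1H : Prop := ∀ D q ν u s j t w : ℝ, HE D q ν u s j t w → 9 * (ν * D) ≤ 4 * s →
  XE D q ν u s j t w ≤ 0

/-- large `s`, case `y > 0` -/
def StR2H : Prop := ∀ D q ν u s j t w y : ℝ, HE D q ν u s j t w → 9 * (ν * D) ≤ 4 * s →
  2 ≤ j + t → 0 ≤ y → y * (s + 1 - j - t) ≤ ν * (j - 1 + w) →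
  XE D q ν u s j t w + y * u * (j + t - 1) ≤ 0

/-- small `s`, case `y = 0` -/
def StR1L : Prop := ∀ D q ν u s j t w : ℝ, HE D q ν u s j t w → s * (ν * D + 2) ≤ D →
  XE D q ν u s j t w ≤ 0

/-- small `s`, case `y > 0` -/
def StR2L : Prop := ∀ D q ν u s j t w y : ℝ, HE D q ν u s j t w → s * (ν * D + 2) ≤ D →
  2 ≤ j + t → 0 ≤ y → y * (s + 1 - j - t) ≤ ν * (j - 1 + w) →
  XE D q ν u s j t w + y * u * (j + t - 1) ≤ 0

/-- the case `y > n - μ` does not occur -/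
def StVE : Prop := ∀ D q ν u s j t w : ℝ, HE D q ν u s j t w →
  (9 * (ν * D) ≤ 4 * s ∨ s * (ν * D + 2) ≤ D) →
  ν * (j - 1 + w) ≤ (1 - ν - (s - 1) / D) * (s + 1 - j - t)

/-- `D + 1 - s` times `ω` -/
noncomputable def WE (D : ℕ) : ℝ := 2 / 3 + 11 / (2 * (D : ℝ))

/-- from natural numbers to the normalised form -/
def StLE : Prop := ∀ D μ s m j t w : ℕ, 2 ≤ D → 1 ≤ μ → 1 ≤ s → 3 * s ≤ D →
  (9 * μ ≤ 4 * s ∨ s * (μ + 2) ≤ D) → m + j + t + 1 = s → 1 ≤ m → 0 < EE D (qE D) s m j t →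
  1 ≤ w → w ≤ μ → w ≤ m →
  HE D (qE D / D) ((μ : ℝ) / D) (qE D / s) s j t w ∧ (μ : ℝ) ≤ (D : ℝ) + 1 - s ∧
  T0 D μ (qE D) s m j t w (WE D) ≤ XE D (qE D / D) ((μ : ℝ) / D) (qE D / s) s j t w

/-- the conditions on `ω` -/
def StOE : Prop := ∀ D s m j t : ℕ, 2 ≤ D → 1 ≤ s → 3 * s ≤ D → m + j + t + 1 = s → 1 ≤ m →
  0 < EE D (qE D) s m j t → OMok D (qE D) s (WE D / ((D : ℝ) + 1 - s)) ∧
  WE D / ((D : ℝ) + 1 - s) ≤ qE D / D / s - dl D (qE D)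

/-- the exact threshold, small degree -/
def StNL2 : Prop := ∀ D μ s : ℕ, 2 ≤ D → 1 ≤ μ → s * (μ + 2) ≤ D → 1 ≤ s → 3 * s ≤ D →
  Good D μ (qE D) s

end Pool.Agent.Helper82.EC2
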